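import Pool.Agent.CdebT.Torus

set_option autoImplicit false

/-!
The covering argument: an involution with finite centralizer which inverts two tori `D`, `E`
such that all products `d e` have finite order.
-/

namespace Pool.Agent.CdebT

open Subgroup

open scoped Pointwise

universe u

variable {G : Type u} [Group G]

/-- B. H. Neumann's lemma for a torus -/
theorem tor_cover {E : Subgroup G} (hE : IsTor E) {ι : Type*} (s : Finset ι)
    (Hs : ι → Subgroup G) (g : ι → G) (hcov : ∀ e ∈ E, ∃ j ∈ s, (g j)⁻¹ * e ∈ Hs j) :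
    ∃ j ∈ s, (g j)⁻¹ ∈ Hs j ∧ E ≤ Hs j := by
  classical
  -- representatives in `E`
  let γ : ι → E := fun j => if h : ∃ e : E, (g j)⁻¹ * (e : G) ∈ Hs j then h.choose else 1
  have hγ : ∀ j, (∃ e : E, (g j)⁻¹ * (e : G) ∈ Hs j) → (g j)⁻¹ * (γ j : G) ∈ Hs j := by
    intro j hj
    have h1 : γ j = hj.choose := dif_pos hj
    rw [h1]
    exact hj.choose_spec
  let s' : Finset ι := s.filter (fun j => ∃ e : E, (g j)⁻¹ * (e : G) ∈ Hs j)
  have hcover : ⋃ j ∈ s', γ j • (((Hs j).subgroupOf E : Subgroup E) : Set E) = Set.univ := by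
    rw [Set.eq_univ_iff_forall]
    intro e
    obtain ⟨j, hj, hje⟩ := hcov e e.2
    rw [Set.mem_iUnion₂]
    have hex : ∃ e : E, (g j)⁻¹ * (e : G) ∈ Hs j := ⟨e, hje⟩
    refine ⟨j, Finset.mem_filter.2 ⟨hj, hex⟩, ?_⟩
    rw [mem_leftCoset_iff]
    change (γ j)⁻¹ * e ∈ (Hs j).subgroupOf E
    rw [Subgroup.mem_subgroupOf]
    have h1 := (Hs j).mul_mem ((Hs j).inv_mem (hγ j hex)) hje
    have h2 : ((g j)⁻¹ * (γ j : G))⁻¹ * ((g j)⁻¹ * (e : G)) = (((γ j)⁻¹ * e : E) : G) := by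
      push_cast
      group
    rwa [h2] at h1
  obtain ⟨j, hj, hjf⟩ := Subgroup.exists_finiteIndex_of_leftCoset_cover hcover
  obtain ⟨hjs, e, he⟩ := Finset.mem_filter.1 hj
  have hle : E ≤ Hs j := by
    intro x hx
    have h1 := hE.top.le_of_finiteIndex hjf (Subgroup.mem_top (⟨x, hx⟩ : E))
    exact Subgroup.mem_subgroupOf.1 h1
  refine ⟨j, hjs, ?_, hle⟩
  have h1 := (Hs j).mul_mem he ((Hs j).inv_mem (hle e.2))
  rwa [mul_inv_cancel_right] at h1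

/-- a torus covered by finitely many transporters -/
theorem tor_cover_pairs {E : Subgroup G} (hE : IsTor E) {I : Set (G × G)} (hI : I.Finite)
    (hcov : ∀ e ∈ E, ∃ p ∈ I, e * p.1 * e⁻¹ = p.2) :
    ∃ p ∈ I, p.1 = p.2 ∧ ∀ e ∈ E, e * p.1 = p.1 * e := by
  classical
  let γ : G × G → G := fun p => if h : ∃ g : G, g * p.1 * g⁻¹ = p.2 then h.choose else 1
  have hγ : ∀ p : G × G, (∃ g : G, g * p.1 * g⁻¹ = p.2) → γ p * p.1 * (γ p)⁻¹ = p.2 := by
    intro p hp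
    have h1 : γ p = hp.choose := dif_pos hp
    rw [h1]
    exact hp.choose_spec
  let s : Finset (G × G) := hI.toFinset.filter (fun p => ∃ g : G, g * p.1 * g⁻¹ = p.2)
  obtain ⟨p, hp, hp1, hp2⟩ := tor_cover hE s (fun p => centralizer {p.1}) γ (by
    intro e he
    obtain ⟨p, hp, hep⟩ := hcov e he
    have hex : ∃ g : G, g * p.1 * g⁻¹ = p.2 := ⟨e, hep⟩
    refine ⟨p, Finset.mem_filter.2 ⟨hI.mem_toFinset.2 hp, hex⟩, ?_⟩
    rw [Pool.Agent.Cdeb98.mem_centralizer_singleton]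
    have h1 := hγ p hex
    rw [← hep] at h1
    have h2 : (γ p)⁻¹ * (e * p.1 * e⁻¹) * γ p = p.1 := by rw [← h1]; group
    calc (γ p)⁻¹ * e * p.1 = ((γ p)⁻¹ * (e * p.1 * e⁻¹) * γ p) * ((γ p)⁻¹ * e) := by group
      _ = p.1 * ((γ p)⁻¹ * e) := by rw [h2])
  obtain ⟨hps, hex⟩ := Finset.mem_filter.1 hp
  have h3 : ∀ e ∈ E, e * p.1 = p.1 * e := fun e he =>
    Pool.Agent.Cdeb98.mem_centralizer_singleton.1 (hp2 he)
  refine ⟨p, hI.mem_toFinset.1 hps, ?_, h3⟩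
  have h4 := hγ p hex
  have h5 := Pool.Agent.Cdeb98.mem_centralizer_singleton.1 hp1
  have h6 : γ p * p.1 = p.1 * γ p := by
    have : Commute (γ p)⁻¹ p.1 := h5
    have h7 : Commute (γ p) p.1 := by simpa using this.inv_left
    exact h7
  rw [h6, mul_inv_cancel_right] at h4
  exact h4

/-- the dichotomy for the product of an involution and a conjugate -/
theorem dichotomy {D E : Subgroup G} {i : G} (hi : i * i = 1)
    (hiD : ∀ d ∈ D, i * d * i = d⁻¹) (hiE : ∀ e ∈ E, i * e * i = e⁻¹)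
    (htor : ∀ d ∈ D, ∀ e ∈ E, ∃ n : ℕ, 0 < n ∧ (d * e) ^ n = 1)
    {d e : G} (hd : d ∈ D) (he : e ∈ E) :
    (∃ c : G, c * i = i * c ∧ e * (c⁻¹ * d⁻¹) * e⁻¹ = d⁻¹ * c) ∨
    (∃ z z' : G, z * i = i * z ∧ z' * i = i * z' ∧ z ≠ 1 ∧ z * z = 1 ∧ z ∈ D ⊔ E ∧
      e * z * e⁻¹ = d⁻¹ * z' * d) := by
  have hii : i⁻¹ = i := inv_eq_of_mul_eq_one_left hi
  obtain ⟨r, hr⟩ : ∃ r : G, r = e * d * d * e := ⟨_, rfl⟩
  obtain ⟨j, hj⟩ : ∃ j : G, j = (d * e)⁻¹ * i * (d * e) := ⟨_, rfl⟩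
  have hd' : i * d⁻¹ * i = d := by
    have := hiD d⁻¹ (D.inv_mem hd)
    rwa [inv_inv] at this
  have he' : i * e⁻¹ * i = e := by
    have := hiE e⁻¹ (E.inv_mem he)
    rwa [inv_inv] at this
  have hrj : r = i * j := by
    have h1 : i * j = (i * e⁻¹ * i) * (i * d⁻¹ * i) * d * e := by
      have h2 : (i * e⁻¹ * i) * (i * d⁻¹ * i) = i * e⁻¹ * (i * i) * d⁻¹ * i := by group
      rw [h2, hi, hj]; group
    rw [h1, hd', he', hr]
  have hij : i * r = j := by rw [hrj, ← mul_assoc, hi, one_mul]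
  have hirk : ∀ k : ℕ, i * r ^ k * i = (r ^ k)⁻¹ := by
    have h1 : i * r * i = r⁻¹ := by
      have h2 : i * r * i = (i * e * i) * (i * d * i) * (i * d * i) * (i * e * i) := by
        have h3 : (i * e * i) * (i * d * i) * (i * d * i) * (i * e * i)
            = i * e * (i * i) * d * (i * i) * d * (i * i) * e * i := by group
        rw [h3, hi, hr]; group
      rw [h2, hiD d hd, hiE e he, hr]; group
    intro k
    have h2 : i * r ^ k * i = (i * r * i⁻¹) ^ k := by rw [conj_pow, hii]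
    rw [h2, hii, h1, inv_pow]
  -- finite order
  have hfo : IsOfFinOrder r := by
    obtain ⟨n, hn, hn1⟩ := htor (d * d) (D.mul_mem hd hd) (e * e) (E.mul_mem he he)
    rw [isOfFinOrder_iff_pow_eq_one]
    refine ⟨n, hn, ?_⟩
    have h1 : r = e * (d * d * (e * e)) * e⁻¹ := by rw [hr]; group
    rw [h1, conj_pow, hn1]; group
  have hn0 : 0 < orderOf r := hfo.orderOf_pos
  have hrDE : r ∈ D ⊔ E := by
    have h1 : d ∈ D ⊔ E := (le_sup_left : D ≤ D ⊔ E) hd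
    have h2 : e ∈ D ⊔ E := (le_sup_right : E ≤ D ⊔ E) he
    rw [hr]
    exact mul_mem (mul_mem (mul_mem h2 h1) h1) h2
  rcases Nat.even_or_odd' (orderOf r) with ⟨m, hm | hm⟩
  · -- even order
    right
    obtain ⟨z, hz⟩ : ∃ z : G, z = r ^ m := ⟨_, rfl⟩
    have hm0 : 0 < m := by omega
    have hz2 : z * z = 1 := by
      rw [hz, ← pow_add, ← two_mul, ← hm, pow_orderOf_eq_one]
    have hz1 : z ≠ 1 := by
      rw [hz]
      exact pow_ne_one_of_lt_orderOf hm0.ne' (by omega)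
    have hzinv : z⁻¹ = z := inv_eq_of_mul_eq_one_left hz2
    have hzi : z * i = i * z := by
      have h1 := hirk m
      rw [← hz, hzinv] at h1
      calc z * i = (i * z * i) * i := by rw [h1]
        _ = i * z * (i * i) := by group
        _ = i * z := by rw [hi, mul_one]
    have hzr : z * r = r * z := by
      rw [hz, ← pow_succ, ← pow_succ']
    have hzj : z * j = j * z := by
      rw [← hij, ← mul_assoc, hzi, mul_assoc, hzr, mul_assoc]
    refine ⟨z, (d * e) * z * (d * e)⁻¹, hzi, ?_, hz1, hz2, ?_, ?_⟩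
    · have h1 : i = (d * e) * j * (d * e)⁻¹ := by rw [hj]; group
      calc (d * e) * z * (d * e)⁻¹ * i = (d * e) * z * (d * e)⁻¹ * ((d * e) * j * (d * e)⁻¹) := by
            rw [← h1]
        _ = (d * e) * (z * j) * (d * e)⁻¹ := by group
        _ = (d * e) * (j * z) * (d * e)⁻¹ := by rw [hzj]
        _ = ((d * e) * j * (d * e)⁻¹) * ((d * e) * z * (d * e)⁻¹) := by group
        _ = i * ((d * e) * z * (d * e)⁻¹) := by rw [← h1]
    · rw [hz]
      exact pow_mem hrDE m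
    · group
  · -- odd order
    left
    obtain ⟨t, ht⟩ : ∃ t : G, t = r ^ (m + 1) := ⟨_, rfl⟩
    have hit : i * t * i = t⁻¹ := by rw [ht]; exact hirk (m + 1)
    have hti : t⁻¹ * i * t = j := by
      have h1 : t⁻¹ * i = i * t := by
        rw [← hit, mul_assoc, hi, mul_one]
      rw [h1, mul_assoc, ht, ← pow_add]
      have h2 : m + 1 + (m + 1) = orderOf r + 1 := by omega
      rw [h2, pow_succ, pow_orderOf_eq_one, one_mul, hij]
    obtain ⟨c, hc⟩ : ∃ c : G, c = (d * e) * t⁻¹ := ⟨_, rfl⟩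
    have hci : c * i = i * c := by
      have h1 : c * i * c⁻¹ = i := by
        have h2 : c * i * c⁻¹ = (d * e) * (t⁻¹ * i * t) * (d * e)⁻¹ := by rw [hc]; group
        rw [h2, hti, hj]; group
      calc c * i = (c * i * c⁻¹) * c := by group
        _ = i * c := by rw [h1]
    refine ⟨c, hci, ?_⟩
    have htc : t = c⁻¹ * d * e := by rw [hc]; group
    have hcinv : i * c⁻¹ * i = c⁻¹ := by
      have h1 : c⁻¹ * i = i * c⁻¹ := by
        have : Commute c i := hci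
        exact this.inv_left
      rw [← h1, mul_assoc, hi, mul_one]
    have h1 : c⁻¹ * d⁻¹ * e⁻¹ = e⁻¹ * d⁻¹ * c := by
      have h2 : i * t * i = (i * c⁻¹ * i) * (i * d * i) * (i * e * i) := by
        have h3 : (i * c⁻¹ * i) * (i * d * i) * (i * e * i)
            = i * c⁻¹ * (i * i) * d * (i * i) * e * i := by group
        rw [h3, hi, htc]; group
      rw [hcinv, hiD d hd, hiE e he, hit, htc] at h2
      rw [← h2]; group
    calc e * (c⁻¹ * d⁻¹) * e⁻¹ = e * (c⁻¹ * d⁻¹ * e⁻¹) := by group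
      _ = e * (e⁻¹ * d⁻¹ * c) := by rw [h1]
      _ = d⁻¹ * c := by group

/-- the covering argument -/
theorem cover_contradiction {D E : Subgroup G} (hD : IsTor D) (hE : IsTor E)
    (hne : ∃ d ∈ D, d ≠ 1) {i : G} (hi : i * i = 1)
    (hiD : ∀ d ∈ D, i * d * i = d⁻¹) (hiE : ∀ e ∈ E, i * e * i = e⁻¹)
    (hfin : {c : G | c * i = i * c}.Finite)
    (htor : ∀ d ∈ D, ∀ e ∈ E, ∃ n : ℕ, 0 < n ∧ (d * e) ^ n = 1)
    (hF4 : ∀ d ∈ D, (∀ e ∈ E, d * e = e * d) → d = 1)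
    (hF5 : ∀ z ∈ D ⊔ E, z * z = 1 → (∀ d ∈ D, z * d = d * z) → (∀ e ∈ E, z * e = e * z) →
      z = 1) : False := by
  classical
  set C : Set G := {c : G | c * i = i * c} with hC
  -- first covering
  have hfirst : ∀ d ∈ D, (∃ c ∈ C, c⁻¹ * d⁻¹ = d⁻¹ * c ∧ ∀ e ∈ E, e * (c⁻¹ * d⁻¹) = (c⁻¹ * d⁻¹) * e) ∨
      (∃ z ∈ C, ∃ z' ∈ C, z ≠ 1 ∧ z * z = 1 ∧ z ∈ D ⊔ E ∧ z = d⁻¹ * z' * d ∧
        ∀ e ∈ E, e * z = z * e) := by
    intro d hd
    let I1 : Set (G × G) := (fun c => (c⁻¹ * d⁻¹, d⁻¹ * c)) '' C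
    let I2 : Set (G × G) := (fun q : G × G => (q.1, d⁻¹ * q.2 * d)) ''
      {q | q ∈ C ×ˢ C ∧ q.1 ≠ 1 ∧ q.1 * q.1 = 1 ∧ q.1 ∈ D ⊔ E}
    have hI2 : I2.Finite :=
      ((hfin.prod hfin).subset (fun q hq => hq.1)).image _
    have hI : (I1 ∪ I2).Finite := (hfin.image _).union hI2
    obtain ⟨p, hp, hp1, hp2⟩ := tor_cover_pairs hE hI (by
      intro e he
      rcases dichotomy hi hiD hiE htor hd he with ⟨c, hc, hce⟩ | ⟨z, z', hz, hz', h1, h2, h3, h4⟩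
      · exact ⟨_, Or.inl ⟨c, hc, rfl⟩, hce⟩
      · exact ⟨_, Or.inr ⟨(z, z'), ⟨⟨hz, hz'⟩, h1, h2, h3⟩, rfl⟩, h4⟩)
    rcases hp with ⟨c, hc, rfl⟩ | ⟨⟨z, z'⟩, ⟨⟨hz, hz'⟩, h1, h2, h3⟩, rfl⟩
    · left
      exact ⟨c, hc, hp1, hp2⟩
    · right
      exact ⟨z, hz, z', hz', h1, h2, h3, hp1, hp2⟩
  -- second covering
  let V : Set (G × G) := {q | q ∈ C ×ˢ C ∧ q.1 ≠ 1 ∧ q.1 * q.1 = 1 ∧ q.1 ∈ D ⊔ E ∧
    ∀ e ∈ E, e * q.1 = q.1 * e}
  have hV : V.Finite := (hfin.prod hfin).subset (fun q hq => hq.1)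
  let s : Finset (G ⊕ (G × G)) := hfin.toFinset.disjSum hV.toFinset
  let Hs : G ⊕ (G × G) → Subgroup G := fun j => Sum.elim (fun _ => ⊥) (fun q => centralizer {q.1}) j
  let γ1 : G → G := fun c =>
    if h : ∃ d ∈ D, ∀ e ∈ E, e * (c⁻¹ * d⁻¹) = (c⁻¹ * d⁻¹) * e then h.choose else 1
  let γ2 : G × G → G := fun q => if h : ∃ g : G, g * q.1 * g⁻¹ = q.2 then h.choose else 1
  obtain ⟨j, hj, hj1, hj2⟩ := tor_cover hD s Hs (fun j => Sum.elim γ1 γ2 j) (by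
    intro d hd
    rcases hfirst d hd with ⟨c, hc, _, hce⟩ | ⟨z, hz, z', hz', h1, h2, h3, h4, h5⟩
    · refine ⟨Sum.inl c, Finset.inl_mem_disjSum.2 (hfin.mem_toFinset.2 hc), ?_⟩
      change (γ1 c)⁻¹ * d ∈ (⊥ : Subgroup G)
      rw [Subgroup.mem_bot]
      have hex : ∃ d ∈ D, ∀ e ∈ E, e * (c⁻¹ * d⁻¹) = (c⁻¹ * d⁻¹) * e := ⟨d, hd, hce⟩
      have hg : γ1 c = hex.choose := dif_pos hex
      obtain ⟨hgD, hge⟩ := hex.choose_spec
      rw [← hg] at hgD hge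
      refine hF4 _ (D.mul_mem (D.inv_mem hgD) hd) ?_
      intro e he
      -- `γ⁻¹ d = (c⁻¹ γ⁻¹) ... `
      have h1 : Commute e (c⁻¹ * d⁻¹) := hce e he
      have h2 : Commute e (c⁻¹ * (γ1 c)⁻¹) := hge e he
      have h3 : Commute e ((c⁻¹ * (γ1 c)⁻¹)⁻¹ * (c⁻¹ * d⁻¹)) := (h2.inv_right).mul_right h1
      have h4 : (c⁻¹ * (γ1 c)⁻¹)⁻¹ * (c⁻¹ * d⁻¹) = γ1 c * d⁻¹ := by group
      rw [h4] at h3
      have h5 : Commute e (γ1 c * d⁻¹)⁻¹ := h3.inv_right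
      have h6 : (γ1 c * d⁻¹)⁻¹ = (γ1 c)⁻¹ * d := by
        rw [mul_inv_rev, inv_inv]
        exact hD.comm d hd _ (D.inv_mem hgD)
      rw [h6] at h5
      exact h5.symm
    · have hex : ∃ g : G, g * z * g⁻¹ = z' := ⟨d, by rw [h4]; group⟩
      have hg : γ2 (z, z') = hex.choose := dif_pos hex
      have hgs := hex.choose_spec
      rw [← hg] at hgs
      refine ⟨Sum.inr (z, z'), Finset.inr_mem_disjSum.2 (hV.mem_toFinset.2
        ⟨⟨hz, hz'⟩, h1, h2, h3, h5⟩), ?_⟩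
      change (γ2 (z, z'))⁻¹ * d ∈ centralizer {z}
      rw [Pool.Agent.Cdeb98.mem_centralizer_singleton]
      generalize γ2 (z, z') = u at hgs
      have h6 : d * z * d⁻¹ = z' := by rw [h4]; group
      have h7 : u⁻¹ * (d * z * d⁻¹) * u = z := by rw [h6, ← hgs]; group
      calc u⁻¹ * d * z
          = (u⁻¹ * (d * z * d⁻¹) * u) * (u⁻¹ * d) := by group
        _ = z * (u⁻¹ * d) := by rw [h7])
  rcases j with c | ⟨z, z'⟩
  · -- `D` would be trivial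
    obtain ⟨d, hd, hd1⟩ := hne
    exact hd1 (Subgroup.mem_bot.1 (hj2 hd))
  · have hq := hV.mem_toFinset.1 (Finset.inr_mem_disjSum.1 hj)
    obtain ⟨_, h1, h2, h3, h4⟩ := hq
    apply h1
    refine hF5 z h3 h2 ?_ (fun e he => (h4 e he).symm)
    intro d hd
    exact (Pool.Agent.Cdeb98.mem_centralizer_singleton.1 (hj2 hd)).symm

end Pool.Agent.CdebT
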