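import Pool.Agent.CdebT.Final

set_option autoImplicit false

/-!
Tori `D`, `E` with finitely many double cosets `D s E`, an involution `a` inverting `D`, and such
that all tori centralizing a nontrivial element of `E` lie in `E`: dihedral groups generated by `a`
and involutions of conjugates of `E`.
-/

namespace Pool.Agent.CdebT

open Subgroup

open Pool.Agent.Cdeb98 (conjS mem_conjS conj_mem_conjS conjS_mul conjS_one conjS_mono conjS_sup
  conjS_finiteIndex dcc_of_le dcc_of_surjective dcc_prod exists_pow_mem_of_relIndex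
  exists_pow_mem_of_finiteIndex mem_sup_of_comm FD relIndex_ne_zero_of_map
  le_centralizer_singleton mem_centralizer_singleton exists_left_transversal)

universe u v

variable {G : Type u} [Group G]

/-- every torus centralizing a nontrivial element of `E` lies in `E` -/
def ClT (E : Subgroup G) : Prop :=
  ∀ e ∈ E, e ≠ 1 → ∀ P : Subgroup G, IsTor P → (∀ p ∈ P, p * e = e * p) → P ≤ E

/-- involutions of conjugates of `E` -/
def IsJ (E : Subgroup G) (t : G) : Prop := (∃ g, t ∈ conjS g E) ∧ t ≠ 1 ∧ t * t = 1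

theorem conj_ne_one {g x : G} (h : x ≠ 1) : g * x * g⁻¹ ≠ 1 := by
  intro h1
  apply h
  have h2 : x = g⁻¹ * (g * x * g⁻¹) * g := by group
  rw [h2, h1]; group

theorem IsJ.conj {E : Subgroup G} {t : G} (h : IsJ E t) (x : G) : IsJ E (x * t * x⁻¹) := by
  obtain ⟨⟨g, hg⟩, h1, h2⟩ := h
  refine ⟨⟨x * g, ?_⟩, conj_ne_one h1, ?_⟩
  · rw [conjS_mul]; exact conj_mem_conjS hg
  · calc x * t * x⁻¹ * (x * t * x⁻¹) = x * (t * t) * x⁻¹ := by group
      _ = 1 := by rw [h2]; group

theorem ClT.conj {E : Subgroup G} (h : ClT E) (g : G) : ClT (conjS g E) := by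
  intro e he he1 P hP hc
  rw [mem_conjS] at he
  have he1' : g⁻¹ * e * g ≠ 1 := by
    have := conj_ne_one (g := g⁻¹) he1
    rwa [inv_inv] at this
  have h1 : conjS g⁻¹ P ≤ E := by
    refine h _ he he1' _ (hP.conj _) ?_
    intro p hp
    rw [mem_conjS, inv_inv] at hp
    have h2 := hc _ hp
    calc p * (g⁻¹ * e * g) = g⁻¹ * ((g * p * g⁻¹) * e) * g := by group
      _ = g⁻¹ * (e * (g * p * g⁻¹)) * g := by rw [h2]
      _ = g⁻¹ * e * g * p := by group
  have h2 := conjS_mono (g := g) h1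
  rwa [← conjS_mul, mul_inv_cancel, conjS_one] at h2

theorem ClT.eq {E : Subgroup G} (h : ClT E) (hE : IsTor E) {g g' e : G} (he : e ∈ conjS g E)
    (he' : e ∈ conjS g' E) (he1 : e ≠ 1) : conjS g E = conjS g' E := by
  apply le_antisymm
  · exact h.conj g' e he' he1 _ (hE.conj g) (fun p hp => (hE.conj g).comm p hp e he)
  · exact h.conj g e he he1 _ (hE.conj g') (fun p hp => (hE.conj g').comm p hp e he')

theorem ClT.normalizes {E : Subgroup G} (h : ClT E) (hE : IsTor E) {g x e : G}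
    (he : e ∈ conjS g E) (he1 : e ≠ 1) (hx : x * e = e * x) :
    conjS x (conjS g E) = conjS g E := by
  rw [← conjS_mul]
  refine h.eq hE (e := e) ?_ he he1
  rw [conjS_mul, mem_conjS]
  have h1 : x⁻¹ * e * x = e := by
    rw [mul_assoc, ← hx]; group
  rw [h1]; exact he

/-- an involution normalizing a torus and centralizing no nontrivial subtorus inverts it -/
theorem inverts_of_trivial {T : Subgroup G} (hT : IsTor T) {z : G} (hz : z * z = 1)
    (hn : conjS z T = T)
    (hP : ∀ P : Subgroup G, IsTor P → P ≤ T → (∀ p ∈ P, p * z = z * p) → ∀ p ∈ P, p = 1) :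
    ∀ t ∈ T, z * t * z = t⁻¹ := by
  have hzi : z⁻¹ = z := inv_eq_of_mul_eq_one_left hz
  have hn' : ∀ t ∈ T, z * t * z ∈ T := by
    intro t ht
    have h1 := conj_mem_conjS (g := z) ht
    rwa [hn, hzi] at h1
  let f : T →* G :=
    { toFun := fun t => (t : G) * (z * t * z)
      map_one' := by simp [hz]
      map_mul' := by
        rintro ⟨a, ha⟩ ⟨b, hb⟩
        change a * b * (z * (a * b) * z) = a * (z * a * z) * (b * (z * b * z))
        have h1 := hT.comm b hb _ (hn' a ha)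
        calc a * b * (z * (a * b) * z) = a * (b * (z * a * (z⁻¹)⁻¹⁻¹)) * (z * b * z) := by
              rw [inv_inv]; group
          _ = a * (b * (z * a * z)) * (z * b * z) := by rw [inv_inv, hzi]
          _ = a * ((z * a * z) * b) * (z * b * z) := by rw [h1]
          _ = a * (z * a * z) * (b * (z * b * z)) := by group }
  have h1 := hP f.range (hT.range f) (by
    rintro _ ⟨⟨t, ht⟩, rfl⟩
    exact T.mul_mem ht (hn' t ht)) (by
    rintro _ ⟨⟨t, ht⟩, rfl⟩
    change t * (z * t * z) * z = z * (t * (z * t * z))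
    have h1 := hT.comm t ht _ (hn' t ht)
    calc t * (z * t * z) * z = (z * t * z) * t * z := by rw [h1]
      _ = z * (t * (z * t * z)) := by group)
  intro t ht
  have h2 := h1 (t * (z * t * z)) ⟨⟨t, ht⟩, rfl⟩
  exact (inv_eq_of_mul_eq_one_right h2).symm

/-- a torus normalizing a torus centralizes it -/
theorem IsTor.comm_of_normalizes {D E : Subgroup G} (hD : IsTor D) (hE : IsTor E)
    (hn : ∀ d ∈ D, conjS d E = E) : ∀ d ∈ D, ∀ e ∈ E, d * e = e * d := by
  intro d hd e he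
  obtain ⟨n, hn0, hn1⟩ := hE.tors e he
  have h1 : (centralizer {e}).relIndex D ≠ 0 := by
    refine relIndex_ne_zero_of_map (hE.pow_finite hn0) (fun d => d * e * d⁻¹) ?_ ?_
    · intro d hd
      refine ⟨?_, by rw [conj_pow, hn1]; group⟩
      have := conj_mem_conjS (g := d) he
      rwa [hn d hd] at this
    · intro x _ y _ hxy
      have hxy' : x * e * x⁻¹ = y * e * y⁻¹ := hxy
      rw [mem_centralizer_singleton]
      calc x⁻¹ * y * e = x⁻¹ * (y * e * y⁻¹) * y := by group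
        _ = x⁻¹ * (x * e * x⁻¹) * y := by rw [hxy']
        _ = e * (x⁻¹ * y) := by group
  exact mem_centralizer_singleton.1 (hD.le_of_relIndex le_rfl h1 hd)

/-- a subgroup of a torus without nontrivial subtori is finite -/
theorem IsTor.finite_of_no_subtorus {D H : Subgroup G} (hD : IsTor D) (hH : H ≤ D)
    (h : ∀ P : Subgroup G, IsTor P → P ≤ H → ∀ p ∈ P, p = 1) : (H : Set G).Finite := by
  obtain ⟨P, hPH, hP, hPi⟩ := exists_tor (Q := H) (fun a ha b hb => hD.comm a (hH ha) b (hH hb))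
    (dcc_of_le hH hD.min)
  have hPbot : P = ⊥ := by
    rw [eq_bot_iff]
    intro x hx
    rw [Subgroup.mem_bot]
    exact h P hP hPH x hx
  rw [hPbot] at hPi
  have hfin : Finite H := by
    rw [Subgroup.relIndex, Subgroup.bot_subgroupOf, Subgroup.index_bot] at hPi
    exact Nat.finite_of_card_ne_zero hPi
  exact hfin

/-- the common hypotheses -/
structure Setup (D E : Subgroup G) : Prop where
  hD : IsTor D
  hE : IsTor E
  fd : FD D E
  sep : Cdeb98.Sep D E
  cl : ClT E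

variable {D E : Subgroup G}

/-- `D` meets centralizers of nontrivial elements of conjugates of `E` in a finite group -/
theorem Setup.no_torus (h : Setup D E) {g e : G} (he : e ∈ conjS g E) (he1 : e ≠ 1)
    {P : Subgroup G} (hP : IsTor P) (hPD : P ≤ D) (hc : ∀ p ∈ P, p * e = e * p) :
    ∀ p ∈ P, p = 1 := by
  intro p hp
  have h1 := h.cl.conj g e he he1 P hP hc hp
  exact h.sep.conj_right g p (hPD hp) p h1 (IsConj.refl p)

/-- the stabilizer of `E` in `D` is finite -/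
theorem Setup.stab_finite (h : Setup D E) (hEne : ∃ e ∈ E, e ≠ 1) :
    {x | x ∈ D ∧ conjS x E = E}.Finite := by
  let St : Subgroup G :=
    { carrier := {x | x ∈ D ∧ conjS x E = E}
      one_mem' := ⟨D.one_mem, conjS_one _⟩
      mul_mem' := by
        rintro a b ⟨ha, ha'⟩ ⟨hb, hb'⟩
        exact ⟨D.mul_mem ha hb, by rw [conjS_mul, hb', ha']⟩
      inv_mem' := by
        rintro a ⟨ha, ha'⟩
        refine ⟨D.inv_mem ha, ?_⟩
        nth_rewrite 1 [← ha']
        rw [← conjS_mul, inv_mul_cancel, conjS_one] }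
  obtain ⟨e, he, he1⟩ := hEne
  refine h.hD.finite_of_no_subtorus (H := St) (fun x hx => hx.1) ?_
  intro P hP hPSt
  refine h.no_torus (g := 1) (e := e) (by rw [conjS_one]; exact he) he1 hP
    (fun p hp => (hPSt hp).1) ?_
  intro p hp
  exact hP.comm_of_normalizes h.hE (fun p hp => (hPSt hp).2) p hp e he

/-- elements of `D` not normalizing `E` have small centralizers -/
theorem Setup.pow_mem (h : Setup D E) {x : G} (hx : x ∈ D) (hxE : conjS x E ≠ E) {c : G}
    (hc : c * x = x * c) : ∃ n : ℕ, 0 < n ∧ c ^ n ∈ D := by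
  obtain ⟨X, hX⟩ : ∃ X : Subgroup G, X = centralizer {x} := ⟨_, rfl⟩
  have hDX : D ≤ X := by
    rw [hX]; exact le_centralizer_singleton (fun d hd => h.hD.comm d hd x hx)
  obtain ⟨P, hPQ, hP, hPi⟩ := exists_tor (Q := X ⊓ E)
    (fun a ha b hb => h.hE.comm a ha.2 b hb.2)
    (dcc_of_le (inf_le_right : X ⊓ E ≤ E) h.hE.min)
  have hP1 : ∀ p ∈ P, p = 1 := by
    intro p hp
    by_contra hp1
    apply hxE
    have h1 : p * x = x * p := by
      have := (hPQ hp).1
      rw [hX] at this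
      exact mem_centralizer_singleton.1 this
    have h2 := h.cl.normalizes h.hE (g := 1) (x := x) (e := p)
      (by rw [conjS_one]; exact (hPQ hp).2) hp1 h1.symm
    rwa [conjS_one] at h2
  obtain ⟨S, hS, hcov⟩ := Cdeb98.FD_subgroup h.fd hDX hPQ hPi
  have hcX : c ∈ X := by rw [hX]; exact mem_centralizer_singleton.2 hc
  choose σ hσ d hd e he heq using fun n : ℕ => hcov ((⟨c, hcX⟩ : X) ^ n)
  have : Finite S := hS
  obtain ⟨k, l, hkl, hskl⟩ := Finite.exists_ne_map_eq_of_infinite (fun k : ℕ => (⟨σ k, hσ k⟩ : S))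
  have hs' : σ k = σ l := congrArg Subtype.val hskl
  have he1 : ∀ n, e n = 1 := fun n => Subtype.ext (hP1 _ (he n))
  have hmem : ∀ k l : ℕ, σ k = σ l → c ^ k * (c ^ l)⁻¹ ∈ D := by
    intro k l hs
    have h1 : ((⟨c, hcX⟩ : X) ^ k) * ((⟨c, hcX⟩ : X) ^ l)⁻¹ = d k * (d l)⁻¹ := by
      rw [heq k, heq l, he1, he1, hs]; group
    have h2 := congrArg Subtype.val h1
    have h3 : c ^ k * (c ^ l)⁻¹ = ((d k : X) : G) * ((d l : X) : G)⁻¹ := by
      simpa using h2
    rw [h3]
    exact D.mul_mem (hd k) (D.inv_mem (hd l))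
  rcases lt_or_gt_of_ne hkl with hlt | hlt
  · refine ⟨l - k, by omega, ?_⟩
    have h1 := hmem l k hs'.symm
    rwa [← pow_sub c hlt.le] at h1
  · refine ⟨k - l, by omega, ?_⟩
    have h1 := hmem k l hs'
    rwa [← pow_sub c hlt.le] at h1

/-- a product of an involution inverting `D` and an involution of a conjugate of `E` has
finite order -/
theorem Setup.finite_order (h : Setup D E) {a t : G} (haa : a * a = 1)
    (haD : ∀ d ∈ D, a * d * a = d⁻¹) (ht : IsJ E t) : ∃ n : ℕ, 0 < n ∧ (a * t) ^ n = 1 := by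
  by_contra hcon
  push Not at hcon
  obtain ⟨⟨g, hg⟩, ht1, htt⟩ := ht
  have hai : a⁻¹ = a := inv_eq_of_mul_eq_one_left haa
  have hti : t⁻¹ = t := inv_eq_of_mul_eq_one_left htt
  have hEne : ∃ e ∈ E, e ≠ 1 := by
    refine ⟨g⁻¹ * t * g, mem_conjS.1 hg, ?_⟩
    have := conj_ne_one (g := g⁻¹) ht1
    rwa [inv_inv] at this
  obtain ⟨r, hr⟩ : ∃ r : G, r = a * t := ⟨_, rfl⟩
  rw [← hr] at hcon
  have hrt : r * t = a := by rw [hr, mul_assoc, htt, mul_one]
  have hta : t * a = r⁻¹ := by rw [hr, mul_inv_rev, hai, hti]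
  have htr : t * r * t = r⁻¹ := by
    rw [← hta, hr]
    calc t * (a * t) * t = t * a * (t * t) := by group
      _ = t * a := by rw [htt, mul_one]
  have htrn : ∀ n : ℕ, t * r ^ n * t = (r ^ n)⁻¹ := by
    intro n
    have h1 : t * r ^ n * t⁻¹ = (t * r * t⁻¹) ^ n := (conj_pow).symm
    rw [hti, htr, inv_pow] at h1
    exact h1
  -- `T l = r^l t r^{-l}`
  have hT : ∀ l : ℕ, r ^ l * t * (r ^ l)⁻¹ = r ^ (2 * l) * t := by
    intro l
    have h1 : t * (r ^ l)⁻¹ = r ^ l * t := by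
      have h2 := htrn l
      calc t * (r ^ l)⁻¹ = t * (t * r ^ l * t) := by rw [h2]
        _ = (t * t) * r ^ l * t := by group
        _ = r ^ l * t := by rw [htt, one_mul]
    rw [mul_assoc, h1, ← mul_assoc, ← pow_add, two_mul]
  obtain ⟨S, hS, hcov⟩ := h.fd
  choose σ hσ d hd e he heq using fun l : ℕ => hcov (r ^ (l + 1) * g)
  have hfinS : Finite S := hS
  obtain ⟨s, hs⟩ := Finite.exists_infinite_fiber (fun k : ℕ => (⟨σ k, hσ k⟩ : S))
  have hΛ : ((fun k : ℕ => (⟨σ k, hσ k⟩ : S)) ⁻¹' {s}).Infinite := Set.infinite_coe_iff.1 hs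
  obtain ⟨k, hk⟩ := hΛ.nonempty
  have hform : ∀ l : ℕ, r ^ (2 * (l + 1)) * t =
      d l * (σ l * (g⁻¹ * t * g) * (σ l)⁻¹) * (d l)⁻¹ := by
    intro l
    rw [← hT]
    have h1 : r ^ (l + 1) = d l * σ l * e l * g⁻¹ := by
      rw [← heq l]; group
    have h2 := h.hE.comm _ (he l) _ (mem_conjS.1 hg)
    rw [h1]
    calc d l * σ l * e l * g⁻¹ * t * (d l * σ l * e l * g⁻¹)⁻¹
        = d l * σ l * (e l * (g⁻¹ * t * g)) * (e l)⁻¹ * (σ l)⁻¹ * (d l)⁻¹ := by group
      _ = d l * σ l * ((g⁻¹ * t * g) * e l) * (e l)⁻¹ * (σ l)⁻¹ * (d l)⁻¹ := by rw [h2]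
      _ = d l * (σ l * (g⁻¹ * t * g) * (σ l)⁻¹) * (d l)⁻¹ := by group
  have hinj : Set.InjOn (fun l => d l * (d k)⁻¹)
      ((fun k : ℕ => (⟨σ k, hσ k⟩ : S)) ⁻¹' {s}) := by
    intro l hl l' hl' hll
    have hdd : d l = d l' := mul_right_cancel hll
    have hσσ : σ l = σ l' := congrArg Subtype.val
      ((Set.mem_singleton_iff.1 hl).trans (Set.mem_singleton_iff.1 hl').symm)
    have h1 : r ^ (2 * (l + 1)) = r ^ (2 * (l' + 1)) := by
      have h2 := (hform l).trans ((by rw [hdd, hσσ] : _ = _).trans (hform l').symm)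
      exact mul_right_cancel h2
    by_contra hne
    rcases lt_or_gt_of_ne hne with hlt | hlt
    · apply hcon (2 * (l' - l)) (by omega)
      have h3 : 2 * (l' + 1) = 2 * (l + 1) + 2 * (l' - l) := by omega
      rw [h3, pow_add] at h1
      exact (mul_eq_left.1 h1.symm)
    · apply hcon (2 * (l - l')) (by omega)
      have h3 : 2 * (l + 1) = 2 * (l' + 1) + 2 * (l - l') := by omega
      rw [h3, pow_add] at h1
      exact (mul_eq_left.1 h1)
  have himg := hΛ.image hinj
  obtain ⟨_, ⟨l, hl, rfl⟩, hnot⟩ := himg.exists_notMem_finite (h.stab_finite hEne)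
  obtain ⟨δ, hδ⟩ : ∃ δ : G, δ = d l * (d k)⁻¹ := ⟨_, rfl⟩
  have hδD : δ ∈ D := by rw [hδ]; exact D.mul_mem (hd l) (D.inv_mem (hd k))
  have hδE : conjS δ E ≠ E := by
    intro h1
    apply hnot
    change d l * (d k)⁻¹ ∈ D ∧ conjS (d l * (d k)⁻¹) E = E
    rw [← hδ]
    exact ⟨hδD, h1⟩
  have hσσ : σ l = σ k := congrArg Subtype.val
    ((Set.mem_singleton_iff.1 hl).trans (Set.mem_singleton_iff.1 hk).symm)
  have hTlk : r ^ (2 * (l + 1)) * t = δ * (r ^ (2 * (k + 1)) * t) * δ⁻¹ := by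
    rw [hform l, hform k, hσσ, hδ]; group
  -- the product formula
  have hprod : ∀ m n : ℕ, (r ^ (2 * (m + 1)) * t) * a * (r ^ (2 * (n + 1)) * t) * a =
      r ^ (2 * (m + n + 1)) := by
    intro m n
    have h1 : ∀ q : ℕ, r ^ (2 * (q + 1)) * (t * a) = r ^ (2 * q + 1) := by
      intro q
      rw [hta, show 2 * (q + 1) = 2 * q + 1 + 1 by ring, pow_succ r (2 * q + 1)]
      group
    calc (r ^ (2 * (m + 1)) * t) * a * (r ^ (2 * (n + 1)) * t) * a
        = (r ^ (2 * (m + 1)) * (t * a)) * (r ^ (2 * (n + 1)) * (t * a)) := by group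
      _ = r ^ (2 * m + 1) * r ^ (2 * n + 1) := by rw [h1, h1]
      _ = r ^ (2 * (m + n + 1)) := by rw [← pow_add]; congr 1; ring
  have haδ : a * δ * a = δ⁻¹ := haD δ hδD
  have haδ' : a * δ = δ⁻¹ * a := by
    rw [← haδ, mul_assoc, haa, mul_one]
  have haδ'' : δ⁻¹ * a = a * δ := haδ'.symm
  obtain ⟨Y, hY⟩ : ∃ Y : G, Y = (r ^ (2 * (k + 1)) * t) * δ⁻¹ * a * (r ^ (2 * (k + 1)) * t) * a :=
    ⟨_, rfl⟩
  have e1 : r ^ (2 * (l + k + 1)) = δ * Y := by
    rw [← hprod l k, hTlk, hY]; group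
  have e2 : r ^ (2 * (l + k + 1)) = Y * δ := by
    rw [show l + k + 1 = k + l + 1 by ring, ← hprod k l, hTlk, hY]
    calc (r ^ (2 * (k + 1)) * t) * a * (δ * (r ^ (2 * (k + 1)) * t) * δ⁻¹) * a
        = (r ^ (2 * (k + 1)) * t) * (a * δ) * (r ^ (2 * (k + 1)) * t) * (δ⁻¹ * a) := by group
      _ = (r ^ (2 * (k + 1)) * t) * (δ⁻¹ * a) * (r ^ (2 * (k + 1)) * t) * (a * δ) := by
        rw [haδ', haδ'']
      _ = (r ^ (2 * (k + 1)) * t) * δ⁻¹ * a * (r ^ (2 * (k + 1)) * t) * a * δ := by group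
  have hcomm : r ^ (2 * (l + k + 1)) * δ = δ * r ^ (2 * (l + k + 1)) := by
    have h1 : Y = δ⁻¹ * r ^ (2 * (l + k + 1)) := by rw [e1]; group
    calc r ^ (2 * (l + k + 1)) * δ = δ * (δ⁻¹ * r ^ (2 * (l + k + 1))) * δ := by group
      _ = δ * (Y * δ) := by rw [← h1, mul_assoc]
      _ = δ * r ^ (2 * (l + k + 1)) := by rw [← e2]
  obtain ⟨q, hq0, hq⟩ := h.pow_mem hδD hδE hcomm
  obtain ⟨m, hm0, hm⟩ := h.hD.tors _ hq
  rw [← pow_mul, ← pow_mul] at hm
  exact hcon _ (Nat.mul_pos (by omega) (Nat.mul_pos hq0 hm0)) hm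

end Pool.Agent.CdebT
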