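import Pool.Agent.CdebT.Dihedral

set_option autoImplicit false

/-!
Dihedral groups generated by an involution inverting `D` and involutions of conjugates of `E`:
the trichotomy, and the exclusion of a mixed action.
-/

namespace Pool.Agent.CdebT

open Subgroup

open Pool.Agent.Cdeb98 (conjS mem_conjS conj_mem_conjS conjS_mul conjS_one conjS_mono conjS_sup
  conjS_finiteIndex dcc_of_le dcc_of_surjective dcc_prod exists_pow_mem_of_relIndex
  exists_pow_mem_of_finiteIndex mem_sup_of_comm FD relIndex_ne_zero_of_map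
  le_centralizer_singleton mem_centralizer_singleton exists_left_transversal)

universe u v

variable {G : Type u} [Group G] {D E : Subgroup G}

/-- only finitely many involutions of conjugates of `E` commute with `a` -/
theorem Setup.finite_J (h : Setup D E) {a : G} (haa : a * a = 1)
    (haD : ∀ d ∈ D, a * d * a = d⁻¹) : {u | IsJ E u ∧ u * a = a * u}.Finite := by
  obtain ⟨S, hS, hcov⟩ := h.fd
  have hE2 := h.hE.two_finite
  have hsub : ∀ q : G × G, {u | (IsJ E u ∧ u * a = a * u) ∧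
      ∃ d ∈ D, u = d * (q.1 * q.2 * q.1⁻¹) * d⁻¹}.Finite := by
    intro q
    rcases Set.eq_empty_or_nonempty {u | (IsJ E u ∧ u * a = a * u) ∧
      ∃ d ∈ D, u = d * (q.1 * q.2 * q.1⁻¹) * d⁻¹} with hemp | ⟨u0, ⟨hu0J, hu0⟩, d0, hd0, hud0⟩
    · rw [hemp]; exact Set.finite_empty
    -- the elements of `D` commuting with `u0`
    have hF : ((D ⊓ centralizer {u0} : Subgroup G) : Set G).Finite := by
      refine h.hD.finite_of_no_subtorus inf_le_left ?_
      intro P hP hPle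
      obtain ⟨⟨g, hg⟩, hu01, _⟩ := hu0J
      exact h.no_torus hg hu01 hP (fun p hp => (hPle hp).1)
        (fun p hp => mem_centralizer_singleton.1 (hPle hp).2)
    have hFf : Finite (D ⊓ centralizer {u0} : Subgroup G) := hF
    have hn : 0 < Nat.card (D ⊓ centralizer {u0} : Subgroup G) := Nat.card_pos
    obtain ⟨n, hndef⟩ : ∃ n, n = Nat.card (D ⊓ centralizer {u0} : Subgroup G) := ⟨_, rfl⟩
    rw [← hndef] at hn
    refine ((h.hD.pow_finite (n := 2 * n) (by omega)).image (fun c => c * u0 * c⁻¹)).subset ?_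
    rintro u ⟨⟨_, hu⟩, d, hd, hud⟩
    obtain ⟨c, hc⟩ : ∃ c : G, c = d * d0⁻¹ := ⟨_, rfl⟩
    have hcD : c ∈ D := by rw [hc]; exact D.mul_mem hd (D.inv_mem hd0)
    have huc : u = c * u0 * c⁻¹ := by rw [hud, hud0, hc]; group
    have hau : a * u0 * a = u0 := by rw [← hu0, mul_assoc, haa, mul_one]
    have hau' : a * u * a = u := by rw [← hu, mul_assoc, haa, mul_one]
    have h1 : c⁻¹ * u0 * c = c * u0 * c⁻¹ := by
      have hai : a * c⁻¹ * a = c := by
        have := haD c⁻¹ (D.inv_mem hcD)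
        rwa [inv_inv] at this
      calc c⁻¹ * u0 * c = (a * c * a) * (a * u0 * a) * (a * c⁻¹ * a) := by
            rw [haD c hcD, hau, hai]
        _ = a * c * (a * a) * u0 * (a * a) * c⁻¹ * a := by group
        _ = a * (c * u0 * c⁻¹) * a := by rw [haa]; group
        _ = c * u0 * c⁻¹ := by rw [← huc, hau']
    have h2 : c * c * u0 = u0 * (c * c) := by
      calc c * c * u0 = c * (c * u0 * c⁻¹) * c := by group
        _ = c * (c⁻¹ * u0 * c) * c := by rw [h1]
        _ = u0 * (c * c) := by group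
    have h3 : c * c ∈ D ⊓ centralizer {u0} :=
      ⟨D.mul_mem hcD hcD, mem_centralizer_singleton.2 h2⟩
    have h4 : (c * c) ^ n = 1 := by
      have h5 : (⟨c * c, h3⟩ : (D ⊓ centralizer {u0} : Subgroup G)) ^ n = 1 := by
        rw [hndef]; exact pow_card_eq_one'
      exact congrArg Subtype.val h5
    refine ⟨c, ⟨hcD, ?_⟩, huc.symm⟩
    rw [pow_mul, pow_two, h4]
  refine ((hS.prod hE2).biUnion (fun q _ => hsub q)).subset ?_
  rintro u ⟨⟨⟨g, hg⟩, hu1, huu⟩, hua⟩
  obtain ⟨s, hs, d, hd, e, he, hx⟩ := hcov g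
  have hj := mem_conjS.1 hg
  refine Set.mem_biUnion (x := (s, g⁻¹ * u * g)) ⟨hs, hj, ?_⟩
    ⟨⟨⟨⟨g, hg⟩, hu1, huu⟩, hua⟩, d, hd, ?_⟩
  · calc (g⁻¹ * u * g) ^ 2 = g⁻¹ * (u * u) * g := by rw [pow_two]; group
      _ = 1 := by rw [huu]; group
  · change u = d * (s * (g⁻¹ * u * g) * s⁻¹) * d⁻¹
    have h2 := h.hE.comm _ he _ hj
    calc u = g * (g⁻¹ * u * g) * g⁻¹ := by group
      _ = d * s * (e * (g⁻¹ * u * g)) * e⁻¹ * s⁻¹ * d⁻¹ := by
        nth_rewrite 1 [hx]
        nth_rewrite 3 [hx]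
        group
      _ = d * s * ((g⁻¹ * u * g) * e) * e⁻¹ * s⁻¹ * d⁻¹ := by rw [h2]
      _ = d * (s * (g⁻¹ * u * g) * s⁻¹) * d⁻¹ := by group

/-- relations in the dihedral group -/
theorem dih {a t r : G} (haa : a * a = 1) (htt : t * t = 1) (hr : r = a * t) :
    r * t = a ∧ (∀ n : ℕ, t * r ^ n * t = (r ^ n)⁻¹) ∧ (∀ n : ℕ, a * r ^ n * a = (r ^ n)⁻¹) ∧
      ∀ l : ℕ, r ^ l * t * (r ^ l)⁻¹ = r ^ (2 * l) * t := by
  have hai : a⁻¹ = a := inv_eq_of_mul_eq_one_left haa
  have hti : t⁻¹ = t := inv_eq_of_mul_eq_one_left htt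
  have hrt : r * t = a := by rw [hr, mul_assoc, htt, mul_one]
  have hta : t * a = r⁻¹ := by rw [hr, mul_inv_rev, hai, hti]
  have htr : t * r * t = r⁻¹ := by
    rw [← hta, hr]
    calc t * (a * t) * t = t * a * (t * t) := by group
      _ = t * a := by rw [htt, mul_one]
  have har : a * r * a = r⁻¹ := by
    rw [← hta, hr]
    calc a * (a * t) * a = (a * a) * t * a := by group
      _ = t * a := by rw [haa, one_mul]
  have htrn : ∀ n : ℕ, t * r ^ n * t = (r ^ n)⁻¹ := by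
    intro n
    have h1 : t * r ^ n * t⁻¹ = (t * r * t⁻¹) ^ n := (conj_pow).symm
    rw [hti, htr, inv_pow] at h1
    exact h1
  have harn : ∀ n : ℕ, a * r ^ n * a = (r ^ n)⁻¹ := by
    intro n
    have h1 : a * r ^ n * a⁻¹ = (a * r * a⁻¹) ^ n := (conj_pow).symm
    rw [hai, har, inv_pow] at h1
    exact h1
  refine ⟨hrt, htrn, harn, ?_⟩
  intro l
  have h1 : t * (r ^ l)⁻¹ = r ^ l * t := by
    have h2 := htrn l
    calc t * (r ^ l)⁻¹ = t * (t * r ^ l * t) := by rw [h2]
      _ = (t * t) * r ^ l * t := by group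
      _ = r ^ l * t := by rw [htt, one_mul]
  rw [mul_assoc, h1, ← mul_assoc, ← pow_add, two_mul]

/-- the trichotomy for an involution `a` inverting `D` and an involution of a conjugate of `E` -/
theorem Setup.trichotomy (h : Setup D E) {a t : G} (haa : a * a = 1)
    (haD : ∀ d ∈ D, a * d * a = d⁻¹) (ht : IsJ E t) :
    IsJ E a ∨ (∃ w, IsJ E w ∧ w * a = a * w ∧ w * t = t * w) ∨
      ∃ e, IsJ E e ∧ e * a = a * e ∧ (e * a) * t = t * (e * a) := by
  obtain ⟨n0, hn0, hn1⟩ := h.finite_order haa haD ht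
  have ht' := ht
  obtain ⟨⟨g, hg⟩, ht1, htt⟩ := ht
  obtain ⟨r, hr⟩ : ∃ r : G, r = a * t := ⟨_, rfl⟩
  obtain ⟨hrt, htrn, harn, hconj⟩ := dih haa htt hr
  have hpos : 0 < orderOf r := by
    rw [hr]
    exact orderOf_pos_iff.2 (isOfFinOrder_iff_pow_eq_one.2 ⟨n0, hn0, hn1⟩)
  have hJ : ∀ l : ℕ, IsJ E (r ^ (2 * l) * t) := by
    intro l
    rw [← hconj]
    exact ht'.conj _
  rcases Nat.even_or_odd' (orderOf r) with ⟨m, hm | hm⟩
  · have hm0 : 0 < m := by omega
    obtain ⟨w, hw⟩ : ∃ w : G, w = r ^ m := ⟨_, rfl⟩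
    have hww : w * w = 1 := by
      rw [hw, ← pow_add, ← two_mul, ← hm, pow_orderOf_eq_one]
    have hw1 : w ≠ 1 := by
      rw [hw]
      exact pow_ne_one_of_lt_orderOf hm0.ne' (by omega)
    have hwi : w⁻¹ = w := inv_eq_of_mul_eq_one_left hww
    have hwa : w * a = a * w := by
      have h1 : a * w * a = w := by
        have := harn m
        rw [← hw, hwi] at this
        exact this
      calc w * a = (a * w * a) * a := by rw [h1]
        _ = a * w * (a * a) := by group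
        _ = a * w := by rw [haa, mul_one]
    have htw : t * w * t = w := by
      have := htrn m
      rw [← hw, hwi] at this
      exact this
    have hwt : w * t = t * w := by
      calc w * t = (t * w * t) * t := by rw [htw]
        _ = t * w * (t * t) := by group
        _ = t * w := by rw [htt, mul_one]
    rcases Nat.even_or_odd' m with ⟨q, hq | hq⟩
    · -- `m` even
      right; left
      obtain ⟨t', ht'def⟩ : ∃ t' : G, t' = w * t := ⟨_, rfl⟩
      have ht'J : IsJ E t' := by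
        have := hJ q
        rw [← hq, ← hw, ← ht'def] at this
        exact this
      have ht'g : t' ∈ conjS (r ^ q * g) E := by
        have h1 : t' = r ^ q * t * (r ^ q)⁻¹ := by
          rw [hconj, ← hq, ← hw, ht'def]
        rw [h1, conjS_mul]
        exact conj_mem_conjS hg
      have ht't : t' * t = t * t' := by
        rw [ht'def]
        calc w * t * t = t * w * t := by rw [hwt]
          _ = t * (w * t) := by group
      have hw2 : t * t' = w := by
        rw [ht'def, hwt]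
        calc t * (t * w) = (t * t) * w := by group
          _ = w := by rw [htt, one_mul]
      refine ⟨w, ?_, hwa, hwt⟩
      by_cases hP : ∀ P : Subgroup G, IsTor P → P ≤ conjS g E → (∀ p ∈ P, p * t' = t' * p) →
          ∀ p ∈ P, p = 1
      · have hinv := inverts_of_trivial (h.hE.conj g) ht'J.2.2
          (h.cl.normalizes h.hE hg ht1 ht't) hP
        obtain ⟨e, he, hee⟩ := (h.hE.conj g).div 2 (by norm_num) t hg
        have h1 : t' * e⁻¹ * t' = e := by
          have := hinv e⁻¹ ((conjS g E).inv_mem he)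
          rwa [inv_inv] at this
        have h2 : e * t' * e⁻¹ = w := by
          have h3 : t' * e⁻¹ = e * t' := by
            calc t' * e⁻¹ = (t' * e⁻¹ * t') * t' := by
                  rw [mul_assoc (t' * e⁻¹), ht'J.2.2, mul_one]
              _ = e * t' := by rw [h1]
          calc e * t' * e⁻¹ = e * (t' * e⁻¹) := by group
            _ = e * (e * t') := by rw [h3]
            _ = e ^ 2 * t' := by rw [pow_two]; group
            _ = w := by rw [hee, hw2]
        rw [← h2]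
        exact ht'J.conj e
      · push Not at hP
        obtain ⟨P, hP, hPg, hPt, p, hp, hp1⟩ := hP
        have h1 : P ≤ conjS (r ^ q * g) E := h.cl.conj _ t' ht'g ht'J.2.1 P hP hPt
        have h2 := h.cl.eq h.hE (hPg hp) (h1 hp) hp1
        refine ⟨⟨g, ?_⟩, hw1, hww⟩
        rw [← hw2]
        refine (conjS g E).mul_mem hg ?_
        rw [h2]; exact ht'g
    · -- `m` odd
      right; right
      obtain ⟨e, he⟩ : ∃ e : G, e = w * a := ⟨_, rfl⟩
      have heJ : IsJ E e := by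
        have h1 := hJ (q + 1)
        have h2 : r ^ (2 * (q + 1)) * t = e := by
          rw [he, hw, ← hrt, hq]
          calc r ^ (2 * (q + 1)) * t = r ^ (2 * q + 1 + 1) * t := by
                rw [show 2 * (q + 1) = 2 * q + 1 + 1 by ring]
            _ = r ^ (2 * q + 1) * (r * t) := by rw [pow_succ]; group
        rwa [h2] at h1
      have hea : e * a = w := by rw [he, mul_assoc, haa, mul_one]
      have hae : a * e = w := by
        rw [he, hwa, ← mul_assoc, haa, one_mul]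
      exact ⟨e, heJ, by rw [hea, hae], by rw [hea]; exact hwt⟩
  · -- odd order
    left
    have h1 := hJ (m + 1)
    have h2 : r ^ (2 * (m + 1)) * t = a := by
      rw [show 2 * (m + 1) = 2 * m + 1 + 1 by ring, pow_succ, ← hm, pow_orderOf_eq_one, one_mul]
      exact hrt
    rwa [h2] at h1

/-- some involution of a conjugate of `E` commutes with `a` -/
theorem Setup.exists_J (h : Setup D E) {a j : G} (haa : a * a = 1)
    (haD : ∀ d ∈ D, a * d * a = d⁻¹) (hj : IsJ E j) : ∃ u, IsJ E u ∧ u * a = a * u := by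
  rcases h.trichotomy haa haD hj with h1 | ⟨w, h1, h2, _⟩ | ⟨e, h1, h2, _⟩
  · exact ⟨a, h1, rfl⟩
  · exact ⟨w, h1, h2⟩
  · exact ⟨e, h1, h2⟩

/-- an involution inverting `D`, normalizing `E` and centralizing a nontrivial torus of `E`
centralizes `E` -/
theorem Setup.no_mixed (h : Setup D E) {a j : G} (haa : a * a = 1)
    (haD : ∀ d ∈ D, a * d * a = d⁻¹) (hj : j ∈ E) (hj1 : j ≠ 1) (hjj : j * j = 1)
    (hDne : ∃ d ∈ D, d ≠ 1) (hn : conjS a E = E) {P : Subgroup G} (hP : IsTor P) (hPE : P ≤ E)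
    (hPa : ∀ p ∈ P, p * a = a * p) (hPne : ∃ p ∈ P, p ≠ 1) : ∀ e ∈ E, a * e * a = e := by
  by_contra hcon
  push Not at hcon
  obtain ⟨e0, he0, he0a⟩ := hcon
  have hai : a⁻¹ = a := inv_eq_of_mul_eq_one_left haa
  have hE1 : conjS 1 E = E := conjS_one E
  have haE : ∀ e ∈ E, a * e * a ∈ E := by
    intro e he
    have h1 := conj_mem_conjS (g := a) he
    rwa [hn, hai] at h1
  obtain ⟨p0, hp0, hp01⟩ := hPne
  -- step 1
  have step1 : ∀ u : G, IsJ E u → u * a = a * u → u ∈ E := by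
    intro u hu hua
    have h1 : (centralizer {u}).relIndex P ≠ 0 := by
      refine relIndex_ne_zero_of_map (h.finite_J haa haD) (fun p => p * u * p⁻¹) ?_ ?_
      · intro p hp
        refine ⟨hu.conj p, ?_⟩
        have h2 := hPa p hp
        have h3 : p⁻¹ * a = a * p⁻¹ := by
          have : Commute p a := h2
          exact this.inv_left
        calc p * u * p⁻¹ * a = p * u * (p⁻¹ * a) := by group
          _ = p * (u * a) * p⁻¹ := by rw [h3]; group
          _ = (p * a) * u * p⁻¹ := by rw [hua]; group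
          _ = a * (p * u * p⁻¹) := by rw [h2]; group
      · intro x _ y _ hxy
        have hxy' : x * u * x⁻¹ = y * u * y⁻¹ := hxy
        rw [mem_centralizer_singleton]
        calc x⁻¹ * y * u = x⁻¹ * (y * u * y⁻¹) * y := by group
          _ = x⁻¹ * (x * u * x⁻¹) * y := by rw [hxy']
          _ = u * (x⁻¹ * y) := by group
    have h2 := hP.le_of_relIndex le_rfl h1
    obtain ⟨⟨g, hg⟩, hu1, _⟩ := hu
    have h3 : P ≤ conjS g E := h.cl.conj g u hg hu1 P hP
      (fun p hp => mem_centralizer_singleton.1 (h2 hp))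
    have h4 := h.cl.eq h.hE (h3 hp0) (g' := 1) (by rw [hE1]; exact hPE hp0) hp01
    rw [← hE1, ← h4]
    exact hg
  -- the torus `R`
  let f : E →* G :=
    { toFun := fun e => (e : G) * (a * (e : G)⁻¹ * a)
      map_one' := by simp [haa]
      map_mul' := by
        rintro ⟨x, hx⟩ ⟨y, hy⟩
        change x * y * (a * (x * y)⁻¹ * a) = x * (a * x⁻¹ * a) * (y * (a * y⁻¹ * a))
        have h1 := haE _ (E.inv_mem hx)
        have h2 := haE _ (E.inv_mem hy)
        have h3 : a * (x * y)⁻¹ * a = (a * y⁻¹ * a) * (a * x⁻¹ * a) := by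
          calc a * (x * y)⁻¹ * a = a * y⁻¹ * 1 * x⁻¹ * a := by group
            _ = (a * y⁻¹ * a) * (a * x⁻¹ * a) := by rw [← haa]; group
        rw [h3]
        have h4 := h.hE.comm _ h2 _ h1
        have h5 := h.hE.comm _ hy _ h1
        calc x * y * ((a * y⁻¹ * a) * (a * x⁻¹ * a))
            = x * y * ((a * x⁻¹ * a) * (a * y⁻¹ * a)) := by rw [h4]
          _ = x * (y * (a * x⁻¹ * a)) * (a * y⁻¹ * a) := by group
          _ = x * ((a * x⁻¹ * a) * y) * (a * y⁻¹ * a) := by rw [h5]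
          _ = x * (a * x⁻¹ * a) * (y * (a * y⁻¹ * a)) := by group }
  have hR : IsTor f.range := h.hE.range f
  have hRE : f.range ≤ E := by
    rintro _ ⟨⟨x, hx⟩, rfl⟩
    exact E.mul_mem hx (haE _ (E.inv_mem hx))
  have hf0 : f ⟨e0, he0⟩ ≠ 1 := by
    intro h1
    have h1' : e0 * (a * e0⁻¹ * a) = 1 := h1
    apply he0a
    have h2 : (a * e0⁻¹ * a)⁻¹ = a * e0 * a := by
      rw [mul_inv_rev, mul_inv_rev, inv_inv, hai]; group
    rw [← h2]
    exact (eq_inv_of_mul_eq_one_left h1').symm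
  -- step 2
  have step2 : ∀ t0 : G, IsJ E t0 → t0 ∉ E → conjS t0 E = E := by
    intro t0 ht0 ht0E
    by_contra hne
    have hex : ∀ ρ ∈ E, ∃ e ∈ E, e * e = 1 ∧ e * a = a * e ∧
        (e * (ρ * a * ρ⁻¹)) * t0 = t0 * (e * (ρ * a * ρ⁻¹)) := by
      intro ρ hρ
      have ht1 : IsJ E (ρ⁻¹ * t0 * ρ) := by
        have := ht0.conj ρ⁻¹
        rwa [inv_inv] at this
      rcases h.trichotomy haa haD ht1 with h1 | ⟨w, h1, h2, h3⟩ | ⟨e, h1, h2, h3⟩
      · exfalso
        apply he0a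
        have h2 := step1 a h1 rfl
        rw [h.hE.comm a h2 e0 he0, mul_assoc, haa, mul_one]
      · exfalso
        apply hne
        have hwE := step1 w h1 h2
        have hwt : t0 * w = w * t0 := by
          have h4 := h.hE.comm w hwE ρ hρ
          have h5 : ρ⁻¹ * w = w * ρ⁻¹ := by
            have : Commute w ρ := h4
            exact this.inv_right.symm
          calc t0 * w = ρ * (ρ⁻¹ * t0 * ρ) * (ρ⁻¹ * w) := by group
            _ = ρ * ((ρ⁻¹ * t0 * ρ) * w) * ρ⁻¹ := by rw [h5]; group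
            _ = ρ * (w * (ρ⁻¹ * t0 * ρ)) * ρ⁻¹ := by rw [h3]
            _ = (ρ * w) * ρ⁻¹ * t0 := by group
            _ = w * t0 := by rw [← h4]; group
        have h6 := h.cl.normalizes h.hE (g := 1) (x := t0) (e := w)
          (by rw [hE1]; exact hwE) h1.2.1 hwt
        rwa [hE1] at h6
      · have heE := step1 e h1 h2
        refine ⟨e, heE, h1.2.2, h2, ?_⟩
        have h4 := h.hE.comm e heE ρ hρ
        have h5 : e * (ρ * a * ρ⁻¹) = ρ * (e * a) * ρ⁻¹ := by
          calc e * (ρ * a * ρ⁻¹) = (e * ρ) * a * ρ⁻¹ := by group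
            _ = ρ * (e * a) * ρ⁻¹ := by rw [h4]; group
        rw [h5]
        calc ρ * (e * a) * ρ⁻¹ * t0 = ρ * ((e * a) * (ρ⁻¹ * t0 * ρ)) * ρ⁻¹ := by group
          _ = ρ * ((ρ⁻¹ * t0 * ρ) * (e * a)) * ρ⁻¹ := by rw [h3]
          _ = t0 * (ρ * (e * a) * ρ⁻¹) := by group
    obtain ⟨e1, he1, he11, he1a, he1t⟩ := hex 1 E.one_mem
    have he1t' : Commute (e1 * a) t0 := by
      change e1 * a * t0 = t0 * (e1 * a)
      have h1 : e1 * (1 * a * 1⁻¹) = e1 * a := by group
      rwa [h1] at he1t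
    have hsq : ∀ y : E, Commute (f y * f y) t0 := by
      rintro ⟨ρ, hρ⟩
      obtain ⟨e, he, hee, hea, het⟩ := hex ρ hρ
      have het' : Commute (e * (ρ * a * ρ⁻¹)) t0 := het
      have h1 := het'.mul_left he1t'
      have hfE : f ⟨ρ, hρ⟩ ∈ E := hRE ⟨_, rfl⟩
      have h2 : (e * (ρ * a * ρ⁻¹)) * (e1 * a) = e * f ⟨ρ, hρ⟩ * e1 := by
        have h3 : f ⟨ρ, hρ⟩ = ρ * (a * ρ⁻¹ * a) := rfl
        rw [h3, he1a]
        group
      rw [h2] at h1
      have h3 := h1.mul_left h1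
      have h4 : (e * f ⟨ρ, hρ⟩ * e1) * (e * f ⟨ρ, hρ⟩ * e1) = f ⟨ρ, hρ⟩ * f ⟨ρ, hρ⟩ := by
        have h5 := h.hE.comm e he _ hfE
        have h6 := h.hE.comm e1 he1 _ (E.mul_mem he hfE)
        calc (e * f ⟨ρ, hρ⟩ * e1) * (e * f ⟨ρ, hρ⟩ * e1)
            = (e * f ⟨ρ, hρ⟩) * (e1 * (e * f ⟨ρ, hρ⟩)) * e1 := by group
          _ = (e * f ⟨ρ, hρ⟩) * (e * f ⟨ρ, hρ⟩) * (e1 * e1) := by rw [h6]; group
          _ = (e * f ⟨ρ, hρ⟩) * (e * f ⟨ρ, hρ⟩) := by rw [he11, mul_one]
          _ = (e * f ⟨ρ, hρ⟩) * (f ⟨ρ, hρ⟩ * e) := by rw [h5]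
          _ = e * (f ⟨ρ, hρ⟩ * f ⟨ρ, hρ⟩) * e := by group
          _ = (f ⟨ρ, hρ⟩ * f ⟨ρ, hρ⟩) * (e * e) := by
            rw [h.hE.comm e he _ (E.mul_mem hfE hfE)]; group
          _ = f ⟨ρ, hρ⟩ * f ⟨ρ, hρ⟩ := by rw [hee, mul_one]
      rwa [h4] at h3
    obtain ⟨⟨g, hg⟩, ht01, _⟩ := ht0
    have hRt : ∀ y ∈ f.range, y * t0 = t0 * y := by
      intro y hy
      obtain ⟨z, hz, hzy⟩ := hR.div 2 (by norm_num) y hy
      obtain ⟨x, rfl⟩ := hz
      rw [← hzy, pow_two]
      exact hsq x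
    have hRg : f.range ≤ conjS g E := h.cl.conj g t0 hg ht01 _ hR hRt
    have h4 := h.cl.eq h.hE (hRg ⟨⟨e0, he0⟩, rfl⟩) (g' := 1)
      (by rw [hE1]; exact hRE ⟨⟨e0, he0⟩, rfl⟩) hf0
    apply ht0E
    rw [← hE1, ← h4]
    exact hg
  -- step 3
  have step3 : ∀ t0 : G, IsJ E t0 → t0 ∉ E → ∀ e ∈ E, t0 * e * t0 = e⁻¹ := by
    intro t0 ht0 ht0E
    refine inverts_of_trivial h.hE ht0.2.2 (step2 t0 ht0 ht0E) ?_
    intro P' hP' hP'E hP't p hp
    by_contra hp1
    apply ht0E
    obtain ⟨⟨g, hg⟩, ht01, _⟩ := ht0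
    have h3 : P' ≤ conjS g E := h.cl.conj g t0 hg ht01 P' hP' hP't
    have h4 := h.cl.eq h.hE (h3 hp) (g' := 1) (by rw [hE1]; exact hP'E hp) hp1
    rw [← hE1, ← h4]
    exact hg
  have step3' : ∀ x t0 : G, IsJ E t0 → t0 ∉ conjS x E → ∀ e ∈ conjS x E, t0 * e * t0 = e⁻¹ := by
    intro x t0 ht0 ht0E e he
    have h1 : IsJ E (x⁻¹ * t0 * x) := by
      have := ht0.conj x⁻¹
      rwa [inv_inv] at this
    have h2 := step3 _ h1 (fun h3 => ht0E (mem_conjS.2 h3)) _ (mem_conjS.1 he)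
    calc t0 * e * t0 = x * ((x⁻¹ * t0 * x) * (x⁻¹ * e * x) * (x⁻¹ * t0 * x)) * x⁻¹ := by group
      _ = x * (x⁻¹ * e * x)⁻¹ * x⁻¹ := by rw [h2]
      _ = e⁻¹ := by group
  -- step 4
  obtain ⟨t, ht, htE⟩ : ∃ t, IsJ E t ∧ t ∉ E := by
    by_contra hcon
    push Not at hcon
    have hjJ : IsJ E j := ⟨⟨1, by rw [hE1]; exact hj⟩, hj1, hjj⟩
    have hst : ∀ d ∈ D, conjS d E = E := by
      intro d _
      have h1 := hcon _ (hjJ.conj d)
      have h2 := h.cl.eq h.hE (g := d) (g' := 1) (e := d * j * d⁻¹) (conj_mem_conjS hj)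
        (by rw [hE1]; exact h1) (conj_ne_one hj1)
      rwa [hE1] at h2
    have hfin : Finite D :=
      ((h.stab_finite ⟨j, hj, hj1⟩).subset (fun d hd => ⟨hd, hst d hd⟩) : Set.Finite (D : Set G))
    obtain ⟨d, hd, hd1⟩ := hDne
    exact hd1 (h.hD.eq_one_of_finite hfin d hd)
  obtain ⟨e, he, he4⟩ := h.hE.div 4 (by norm_num) j hj
  have hinv := step3 t ht htE
  have ht' := ht
  obtain ⟨⟨g, hg⟩, ht1, htt⟩ := ht
  have hti : t⁻¹ = t := inv_eq_of_mul_eq_one_left htt
  have h1 : e * t * e⁻¹ = e * e * t := by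
    have h2 := hinv e⁻¹ (E.inv_mem he)
    rw [inv_inv] at h2
    calc e * t * e⁻¹ = e * (t * e⁻¹ * t) * t⁻¹ := by group
      _ = e * e * t := by rw [h2, hti]
  have h2 : (e * t * e⁻¹) * t = t * (e * t * e⁻¹) := by
    by_cases h3 : e * t * e⁻¹ ∈ conjS g E
    · exact (h.hE.conj g).comm _ h3 t hg
    · have h4 := step3' g _ (ht'.conj e) h3 t hg
      have h5 := (ht'.conj e).2.2
      rw [hti] at h4
      calc (e * t * e⁻¹) * t = (e * t * e⁻¹) * t * ((e * t * e⁻¹) * (e * t * e⁻¹)) := by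
            rw [h5, mul_one]
        _ = ((e * t * e⁻¹) * t * (e * t * e⁻¹)) * (e * t * e⁻¹) := by group
        _ = t * (e * t * e⁻¹) := by rw [h4]
  rw [h1] at h2
  have h3 : e * e = (e * e)⁻¹ := by
    calc e * e = (e * e * t) * t := by rw [mul_assoc (e * e), htt, mul_one]
      _ = t * (e * e * t) := h2
      _ = t * (e * e) * t := by group
      _ = (e * e)⁻¹ := hinv _ (E.mul_mem he he)
  apply hj1
  rw [← he4]
  calc e ^ 4 = (e * e) * (e * e) := by
        rw [show (4 : ℕ) = 2 + 2 by norm_num, pow_add, pow_two]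
    _ = (e * e)⁻¹ * (e * e) := by rw [← h3]
    _ = 1 := inv_mul_cancel _

end Pool.Agent.CdebT
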