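import Pool.Agent.CdebT.DihedralB

set_option autoImplicit false

/-!
Products `G = A B`, `A` with a quasicyclic subgroup `D` of finite index inverted by an involution
of `G`, and `B` with a subgroup `E` of finite index which is a divisible abelian 2-group with the
minimal condition.
-/

namespace Pool.Agent.CdebT

open Subgroup

open Pool.Agent.Cdeb98 (conjS mem_conjS conj_mem_conjS conjS_mul conjS_one conjS_mono conjS_sup
  conjS_finiteIndex dcc_of_le dcc_of_surjective dcc_prod exists_pow_mem_of_relIndex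
  exists_pow_mem_of_finiteIndex mem_sup_of_comm FD relIndex_ne_zero_of_map
  le_centralizer_singleton mem_centralizer_singleton exists_left_transversal)

universe u v

variable {G : Type u} [Group G]

theorem IsTor.conjS_eq {X Y : Subgroup G} (hX : IsTor X) (hXY : X ≤ Y) (hi : X.relIndex Y ≠ 0) :
    ∀ y ∈ Y, conjS y X = X := by
  have h1 : ∀ y ∈ Y, conjS y X ≤ X := by
    intro y hy
    refine (hX.conj y).le_of_relIndex ?_ hi
    intro x hx
    rw [mem_conjS] at hx
    have h2 := Y.mul_mem (Y.mul_mem hy (hXY hx)) (Y.inv_mem hy)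
    have h3 : y * (y⁻¹ * x * y) * y⁻¹ = x := by group
    rwa [h3] at h2
  intro y hy
  apply le_antisymm (h1 y hy)
  have h2 := conjS_mono (g := y) (h1 y⁻¹ (Y.inv_mem hy))
  rwa [← conjS_mul, mul_inv_cancel, conjS_one] at h2

/-- the case where centralizers are under control -/
theorem dihedral_core {A B D E : Subgroup G} (hAB : ∀ g : G, ∃ a ∈ A, ∃ b ∈ B, g = a * b)
    (h : Setup D E) (hDA : D ≤ A) (hEB : E ≤ B)
    (hDi : D.relIndex A ≠ 0) (hEi : E.relIndex B ≠ 0) {a j : G} (haa : a * a = 1)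
    (haD : ∀ d ∈ D, a * d * a = d⁻¹) (hj : j ∈ E) (hj1 : j ≠ 1) (hjj : j * j = 1)
    (hDne : ∃ d ∈ D, d ≠ 1) : ∃ T : Subgroup G, IsTor T ∧ T.Normal ∧ T.FiniteIndex := by
  have hE1 : conjS 1 E = E := conjS_one E
  have hai : a⁻¹ = a := inv_eq_of_mul_eq_one_left haa
  obtain ⟨u, hu, hua⟩ := h.exists_J haa haD (j := j) ⟨⟨1, by rw [hE1]; exact hj⟩, hj1, hjj⟩
  obtain ⟨⟨g, hg⟩, hu1, huu⟩ := hu
  obtain ⟨α, hα, β, hβ, rfl⟩ := hAB g
  rw [conjS_mul, h.hE.conjS_eq hEB hEi β hβ] at hg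
  obtain ⟨b, hb⟩ : ∃ b : G, b = α⁻¹ * a * α := ⟨_, rfl⟩
  have hbb : b * b = 1 := by
    calc b * b = α⁻¹ * (a * a) * α := by rw [hb]; group
      _ = 1 := by rw [haa]; group
  have hbi : b⁻¹ = b := inv_eq_of_mul_eq_one_left hbb
  have hbD : ∀ d ∈ D, b * d * b = d⁻¹ := by
    intro d hd
    have h1 : α * d * α⁻¹ ∈ D := by
      have := conj_mem_conjS (g := α) hd
      rwa [h.hD.conjS_eq hDA hDi α hα] at this
    calc b * d * b = α⁻¹ * (a * (α * d * α⁻¹) * a) * α := by rw [hb]; group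
      _ = α⁻¹ * (α * d * α⁻¹)⁻¹ * α := by rw [haD _ h1]
      _ = d⁻¹ := by group
  obtain ⟨w, hw⟩ : ∃ w : G, w = α⁻¹ * u * α := ⟨_, rfl⟩
  have hwE : w ∈ E := by rw [hw]; exact mem_conjS.1 hg
  have hw1 : w ≠ 1 := by
    rw [hw]
    have := conj_ne_one (g := α⁻¹) hu1
    rwa [inv_inv] at this
  have hwb : b * w = w * b := by
    calc b * w = α⁻¹ * (a * u) * α := by rw [hb, hw]; group
      _ = α⁻¹ * (u * a) * α := by rw [hua]
      _ = w * b := by rw [hb, hw]; group
  have hbE : conjS b E = E := by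
    have h1 := h.cl.normalizes h.hE (g := 1) (x := b) (e := w) (by rw [hE1]; exact hwE) hw1 hwb
    rwa [hE1] at h1
  by_cases hP : ∀ P : Subgroup G, IsTor P → P ≤ E → (∀ p ∈ P, p * b = b * p) → ∀ p ∈ P, p = 1
  · have hinv := inverts_of_trivial h.hE hbb hbE hP
    refine product hAB h.hD h.hE hDA hEB hDi hEi (Or.inr rfl : (-1 : ℤ) = 1 ∨ (-1 : ℤ) = -1)
      (MulAut.conj b) (fun d hd => ?_) (fun e he => ?_) ?_
    · rw [MulAut.conj_apply, hbi, hbD d hd]
    · rw [MulAut.conj_apply, hbi, hinv e he, zpow_neg_one]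
    · intro Γ _ D' E' hD' hE' hfd hsep hinv
      refine main hD' hE' hfd hsep ?_
      intro g
      obtain ⟨i, hi, hiD, hiE⟩ := hinv g
      exact ⟨i, hi, hiD, fun e he => by rw [hiE e he, zpow_neg_one]⟩
  · push Not at hP
    obtain ⟨P, hP, hPE, hPb, hPne⟩ := hP
    have hcE := h.no_mixed hbb hbD hj hj1 hjj hDne hbE hP hPE hPb hPne
    refine product_p hAB h.hD h.hE hDA hEB hDi hEi (m := 2) (c := 2) (by norm_num) (by norm_num)
      (MulAut.conj b) (fun d hd => ?_) (fun d hd => ?_) (fun e he => ?_)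
    · rw [MulAut.conj_apply, hbi, hbD d hd]
      refine ⟨(zpowers d).inv_mem (mem_zpowers d), ?_⟩
      refine ⟨-1, ?_⟩
      change (d⁻¹ * d⁻¹) ^ (-1 : ℤ) = d ^ 2
      rw [zpow_neg_one, mul_inv_rev, inv_inv, pow_two]
    · rw [pow_two]
      change MulAut.conj b (MulAut.conj b d) = d
      rw [MulAut.conj_apply, MulAut.conj_apply, hbi, hbD d hd]
      have h1 := hbD _ (D.inv_mem hd)
      rw [inv_inv] at h1
      exact h1
    · rw [MulAut.conj_apply, hbi, hcE e he]

/-- finite relative index passes to images -/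
theorem relIndex_map_ne_zero {H : Type v} [Group H] (f : G →* H) {X Y : Subgroup G}
    (hi : X.relIndex Y ≠ 0) : (X.map f).relIndex (Y.map f) ≠ 0 := by
  classical
  obtain ⟨R, hR, hcov⟩ := exists_left_transversal hi
  have hex : ∀ y ∈ Y.map f, ∃ ρ ∈ R, ∃ x ∈ X, y = f ρ * f x := by
    rintro _ ⟨y, hy, rfl⟩
    obtain ⟨ρ, hρ, _, x, hx, hyx⟩ := hcov y hy
    exact ⟨ρ, hρ, x, hx, by rw [hyx, map_mul]⟩
  let c : H → H := fun y => if hy : ∃ ρ ∈ R, ∃ x ∈ X, y = f ρ * f x then f hy.choose else 1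
  have hc : ∀ y ∈ Y.map f, c y ∈ f '' R ∧ ∃ x ∈ X, y = c y * f x := by
    intro y hy
    have h1 := hex y hy
    have h2 : c y = f h1.choose := dif_pos h1
    obtain ⟨h3, x, hx, h4⟩ := h1.choose_spec
    rw [h2]
    exact ⟨⟨_, h3, rfl⟩, x, hx, h4⟩
  refine relIndex_ne_zero_of_map (hR.image f) c (fun t ht => (hc t ht).1) ?_
  intro t ht t' ht' htt
  obtain ⟨_, x, hx, h1⟩ := hc t ht
  obtain ⟨_, x', hx', h2⟩ := hc t' ht'
  have h3 : t⁻¹ * t' = f (x⁻¹ * x') := by
    rw [h1, h2, ← htt, map_mul, map_inv]; group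
  rw [h3]
  exact ⟨_, X.mul_mem (X.inv_mem hx) hx', rfl⟩

/-- if a torus `E` has only trivial subtori in `X ≥ D`, then `D` has finite index in `X` -/
theorem relIndex_of_trivial {D E X : Subgroup G} (hE : IsTor E) (hfd : FD D E) (hDX : D ≤ X)
    (htriv : ∀ P : Subgroup G, IsTor P → P ≤ X ⊓ E → ∀ p ∈ P, p = 1) : D.relIndex X ≠ 0 := by
  classical
  obtain ⟨P, hPQ, hP, hPi⟩ := exists_tor (Q := X ⊓ E)
    (fun a ha b hb => hE.comm a ha.2 b hb.2)
    (dcc_of_le (inf_le_right : X ⊓ E ≤ E) hE.min)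
  have hP1 := htriv P hP hPQ
  obtain ⟨S, hS, hcov⟩ := (Cdeb98.FD_subgroup hfd hDX hPQ hPi).symm
  choose σ hσ p hp e he heq using hcov
  have hp1 : ∀ x, p x = 1 := fun x => Subtype.ext (hP1 _ (hp x))
  have hfin : ((fun x : X => (x : G)) '' S).Finite := hS.image _
  refine relIndex_ne_zero_of_map hfin
    (fun x => if hx : x ∈ X then ((σ ⟨x, hx⟩ : X) : G) else 1) ?_ ?_
  · intro t ht
    simp only [dif_pos ht]
    exact ⟨_, hσ _, rfl⟩
  · intro t ht t' ht' htt
    simp only [dif_pos ht, dif_pos ht'] at htt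
    have h1 : σ ⟨t, ht⟩ = σ ⟨t', ht'⟩ := Subtype.ext htt
    have h2 : (⟨t, ht⟩ : X)⁻¹ * ⟨t', ht'⟩ = (e ⟨t, ht⟩)⁻¹ * e ⟨t', ht'⟩ := by
      nth_rewrite 1 [heq ⟨t, ht⟩, heq ⟨t', ht'⟩]
      rw [hp1, hp1, h1]; group
    have h3 : t⁻¹ * t' = ((e ⟨t, ht⟩ : X) : G)⁻¹ * ((e ⟨t', ht'⟩ : X) : G) :=
      congrArg Subtype.val h2
    rw [h3]
    exact D.mul_mem (D.inv_mem (he _)) (he _)

/-- the same statement for images, with trivial images of subtori -/
theorem relIndex_of_trivial_mod {D E X : Subgroup G} (hE : IsTor E) (hfd : FD D E) (hDX : D ≤ X)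
    {Q : Type v} [Group Q] (π : G →* Q)
    (htriv : ∀ P : Subgroup G, IsTor P → P ≤ X ⊓ E → ∀ p ∈ P, π p = 1) :
    (D.map π).relIndex (X.map π) ≠ 0 := by
  classical
  obtain ⟨P, hPQ, hP, hPi⟩ := exists_tor (Q := X ⊓ E)
    (fun a ha b hb => hE.comm a ha.2 b hb.2)
    (dcc_of_le (inf_le_right : X ⊓ E ≤ E) hE.min)
  have hP1 := htriv P hP hPQ
  obtain ⟨S, hS, hcov⟩ := (Cdeb98.FD_subgroup hfd hDX hPQ hPi).symm
  have hex : ∀ q ∈ X.map π, ∃ s ∈ (fun s : X => π (s : G)) '' S, ∃ d ∈ D.map π, q = s * d := by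
    rintro _ ⟨x, hx, rfl⟩
    obtain ⟨s, hs, p, hp, d, hd, heq⟩ := hcov ⟨x, hx⟩
    refine ⟨_, ⟨s, hs, rfl⟩, π (d : G), ⟨_, hd, rfl⟩, ?_⟩
    have h1 : x = (p : X) * (s : X) * (d : X) := congrArg Subtype.val heq
    have h2 : π ((p : X) : G) = 1 := hP1 _ hp
    rw [h1, map_mul, map_mul, h2, one_mul]
  choose! σ hσ d hd heq using hex
  refine relIndex_ne_zero_of_map (hS.image _) σ hσ ?_
  intro t ht t' ht' htt
  have h3 : t⁻¹ * t' = (d t)⁻¹ * d t' := by
    nth_rewrite 1 [heq t ht, heq t' ht']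
    rw [htt]; group
  rw [h3]
  exact (D.map π).mul_mem ((D.map π).inv_mem (hd t ht)) (hd t' ht')

/-- tori commuting with elements of `E` modulo the centralizer `K` of `N` -/
theorem clT_map {E N K : Subgroup G} (hE : IsTor E) (hEN : E ≤ N)
    (hKN : ∀ k ∈ K, ∀ u ∈ N, u * k = k * u) {Q : Type v} [Group Q] (π : G →* Q)
    (hone : ∀ x, π x = 1 ↔ x ∈ K) (hNmf : (N.map π).FiniteIndex)
    (hcy : ∀ y ∈ E, y ∉ K → (E.map π).relIndex ((centralizer {y}).map π) ≠ 0) :
    ClT (E.map π) := by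
  have hmod : ∀ z f : G, π z * π f = π f * π z → z * f * z⁻¹ * f⁻¹ ∈ K := by
    intro z f h1
    rw [← hone]
    simp only [map_mul, map_inv]
    rw [h1]; group
  rintro _ ⟨y, hy, rfl⟩ hy1 P hP hPy x hx
  have hyK : y ∉ K := fun h1 => hy1 ((hone y).2 h1)
  obtain ⟨n, hn0, hn⟩ := exists_pow_mem_of_relIndex (hcy y hy hyK)
  obtain ⟨k, hk0, hk⟩ := hE.tors y hy
  obtain ⟨q, hq, hqx⟩ := hP.div n hn0 x hx
  obtain ⟨u, hu, huq⟩ := hP.div k hk0 q hq
  obtain ⟨u, huN, rfl⟩ := (hP.le_of_finiteIndex hNmf) hu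
  obtain ⟨c, hc⟩ : ∃ c : G, c = u * y * u⁻¹ * y⁻¹ := ⟨_, rfl⟩
  have hcK : c ∈ K := by rw [hc]; exact hmod u y (hPy _ hu)
  have hcu : Commute c u := (hKN c hcK u huN).symm
  have hcy' : Commute c y := (hKN c hcK y (hEN hy)).symm
  have h1 : u * y = c * y * u := by rw [hc]; group
  have h2 : ∀ m : ℕ, u * y ^ m = c ^ m * y ^ m * u := by
    intro m
    induction m with
    | zero => simp
    | succ m ih =>
      have h4 : y ^ m * c = c * y ^ m := (hcy'.symm.pow_left m)
      calc u * y ^ (m + 1) = (u * y ^ m) * y := by rw [pow_succ]; group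
        _ = c ^ m * y ^ m * (u * y) := by rw [ih]; group
        _ = c ^ m * (y ^ m * c) * y * u := by rw [h1]; group
        _ = c ^ m * c * (y ^ m * y) * u := by rw [h4]; group
        _ = c ^ (m + 1) * y ^ (m + 1) * u := by rw [← pow_succ, ← pow_succ]
  have hck : c ^ k = 1 := by
    have h3 := h2 k
    rw [hk, mul_one, mul_one] at h3
    exact (mul_eq_right.1 h3.symm)
  have h4 : ∀ m : ℕ, u ^ m * y = c ^ m * y * u ^ m := by
    intro m
    induction m with
    | zero => simp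
    | succ m ih =>
      have h5 : u * c ^ m = c ^ m * u := (hcu.symm.pow_right m)
      calc u ^ (m + 1) * y = u * (u ^ m * y) := by rw [pow_succ']; group
        _ = (u * c ^ m) * y * u ^ m := by rw [ih]; group
        _ = c ^ m * (u * y) * u ^ m := by rw [h5]; group
        _ = (c ^ m * c) * y * (u * u ^ m) := by rw [h1]; group
        _ = c ^ (m + 1) * y * u ^ (m + 1) := by rw [← pow_succ, ← pow_succ']
  have h5 : u ^ k ∈ centralizer {y} := by
    rw [mem_centralizer_singleton, h4 k, hck, one_mul]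
  have h6 := hn _ ⟨u ^ k, h5, rfl⟩
  rwa [map_pow, huq, hqx] at h6

/-- in a quasicyclic group with an involution `j`, every nontrivial element has a power `j` -/
theorem quasi_involution {E : Subgroup G} (hE : IsTor E)
    (hE1 : ∀ P : Subgroup G, P ≤ E → P = E ∨ (P : Set G).Finite) {j : G} (hj : j ∈ E)
    (hj1 : j ≠ 1) (hjj : j * j = 1) : ∀ e ∈ E, e ≠ 1 → j ∈ zpowers e := by
  have hdiv : ∀ x : E, ∃ y : E, y * y = x := by
    rintro ⟨x, hx⟩
    obtain ⟨y, hy, hyx⟩ := hE.div 2 (by norm_num) x hx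
    refine ⟨⟨y, hy⟩, Subtype.ext ?_⟩
    change y * y = x
    rw [← hyx, pow_two]
  choose sq hsq using hdiv
  let x : ℕ → E := fun n => Nat.rec (⟨j, hj⟩ : E) (fun _ y => sq y) n
  have hx0 : x 0 = ⟨j, hj⟩ := rfl
  have hxs : ∀ n, x (n + 1) * x (n + 1) = x n := fun n => hsq _
  have hxj : ∀ n, (x n) ^ (2 ^ n) = ⟨j, hj⟩ := by
    intro n
    induction n with
    | zero => simp [hx0]
    | succ n ih => rw [pow_succ', pow_mul, pow_two, hxs, ih]
  -- the key property
  have key : ∀ n : ℕ, ∀ e : E, e ∈ zpowers (x n) → e ≠ 1 → (⟨j, hj⟩ : E) ∈ zpowers e := by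
    intro n
    induction n with
    | zero =>
      rintro e ⟨k, hk⟩ he1
      have hk' : (x 0) ^ k = e := hk
      rcases Int.even_or_odd k with ⟨l, hl⟩ | ⟨l, hl⟩
      · exfalso
        apply he1
        have h2 : (⟨j, hj⟩ : E) ^ (2 : ℤ) = 1 := by
          have : (⟨j, hj⟩ : E) * ⟨j, hj⟩ = 1 := Subtype.ext hjj
          rw [zpow_two, this]
        rw [← hk', hx0, hl, ← two_mul, zpow_mul, h2, one_zpow]
      · have h2 : (⟨j, hj⟩ : E) ^ (2 : ℤ) = 1 := by
          have : (⟨j, hj⟩ : E) * ⟨j, hj⟩ = 1 := Subtype.ext hjj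
          rw [zpow_two, this]
        have h3 : e = ⟨j, hj⟩ := by
          rw [← hk', hx0, hl, zpow_add, zpow_mul, h2, one_zpow, one_mul, zpow_one]
        rw [h3]; exact mem_zpowers _
    | succ n ih =>
      rintro e ⟨k, hk⟩ he1
      have hk' : (x (n + 1)) ^ k = e := hk
      have h2 : (x (n + 1)) ^ (2 : ℤ) = x n := by rw [zpow_two, hxs]
      rcases Int.even_or_odd k with ⟨l, hl⟩ | ⟨l, hl⟩
      · refine ih e ⟨l, ?_⟩ he1
        change (x n) ^ l = e
        rw [← h2, ← zpow_mul, ← hk', hl]; congr 1; ring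
      · have h3 : e * e ∈ zpowers (x n) := by
          refine ⟨k, ?_⟩
          change (x n) ^ k = e * e
          rw [← h2, ← zpow_mul, ← hk', ← zpow_add]; congr 1; ring
        by_cases h4 : e * e = 1
        · exfalso
          have h5 : (x n) ^ k = 1 := by
            rw [← h4, ← h2, ← zpow_mul, ← hk', ← zpow_add]; congr 1; ring
          have h6 : (x n) ^ ((2 ^ (n + 1) : ℕ) : ℤ) = 1 := by
            rw [zpow_natCast, pow_succ, pow_mul, hxj]
            exact Subtype.ext (by change j ^ 2 = 1; rw [pow_two, hjj])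
          have hcop : IsCoprime k ((2 ^ (n + 1) : ℕ) : ℤ) := by
            push_cast
            apply IsCoprime.pow_right
            exact ⟨1, -l, by rw [hl]; ring⟩
          obtain ⟨a, b, hab⟩ := hcop
          have h7 : x n = 1 := by
            calc x n = (x n) ^ (a * k + b * ((2 ^ (n + 1) : ℕ) : ℤ)) := by rw [hab, zpow_one]
              _ = ((x n) ^ k) ^ a * ((x n) ^ ((2 ^ (n + 1) : ℕ) : ℤ)) ^ b := by
                rw [zpow_add, ← zpow_mul, ← zpow_mul, mul_comm a k, mul_comm b]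
              _ = 1 := by rw [h5, h6, one_zpow, one_zpow, one_mul]
          have h8 := hxj n
          rw [h7, one_pow] at h8
          exact hj1 (congrArg Subtype.val h8).symm
        · have h5 := ih _ h3 h4
          have h6 : zpowers (e * e) ≤ zpowers e := by
            rw [zpowers_le]
            exact (zpowers e).mul_mem (mem_zpowers e) (mem_zpowers e)
          exact h6 h5
  -- the union of the chain
  let P : Subgroup G :=
    { carrier := {e : G | ∃ n : ℕ, e ∈ zpowers (x n).1}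
      one_mem' := ⟨0, one_mem _⟩
      mul_mem' := by
        rintro a b ⟨m, hm⟩ ⟨n, hn⟩
        have hmono : ∀ m k : ℕ, zpowers (x m).1 ≤ zpowers (x (m + k)).1 := by
          intro m k
          induction k with
          | zero => exact le_rfl
          | succ k ih =>
            refine ih.trans ?_
            rw [zpowers_le]
            have h1 : (x (m + k)).1 = (x (m + k + 1)).1 * (x (m + k + 1)).1 :=
              congrArg Subtype.val (hxs (m + k)).symm
            rw [h1]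
            exact (zpowers _).mul_mem (mem_zpowers _) (mem_zpowers _)
        have hn' := hmono n m hn
        rw [add_comm] at hn'
        exact ⟨m + n, (zpowers _).mul_mem (hmono m n hm) hn'⟩
      inv_mem' := by
        rintro a ⟨m, hm⟩
        exact ⟨m, inv_mem hm⟩ }
  have hPE : P ≤ E := by
    rintro e ⟨n, hn⟩
    exact (zpowers_le.2 (x n).2) hn
  have hPeq : P = E := by
    rcases hE1 P hPE with h1 | h1
    · exact h1
    · exfalso
      have hfin : Finite P := h1
      let f : P → P := fun y => y * y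
      have hsurj : Function.Surjective f := by
        rintro ⟨y, n, k, hk⟩
        have hk' : (x n).1 ^ k = y := hk
        refine ⟨⟨(x (n + 1)).1 ^ k, n + 1, k, rfl⟩, Subtype.ext ?_⟩
        change (x (n + 1)).1 ^ k * (x (n + 1)).1 ^ k = y
        have h3 : (x n).1 = (x (n + 1)).1 * (x (n + 1)).1 :=
          congrArg Subtype.val (hxs n).symm
        rw [← hk', h3, (Commute.refl (x (n + 1)).1).mul_zpow]
      have hinj := Finite.injective_iff_surjective.2 hsurj
      have hjP : j ∈ P := ⟨0, mem_zpowers _⟩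
      have h2 : f ⟨j, hjP⟩ = f 1 := by
        apply Subtype.ext
        change j * j = 1 * 1
        rw [hjj, one_mul]
      exact hj1 (congrArg Subtype.val (hinj h2))
  intro e he he1
  rw [← hPeq] at he
  obtain ⟨n, hn⟩ := he
  have heE : e ∈ E := (zpowers_le.2 (x n).2) hn
  obtain ⟨k, hk⟩ := key n ⟨e, heE⟩ (mem_zpowers_subtype hn)
    (fun h => he1 (congrArg Subtype.val h))
  exact ⟨k, congrArg Subtype.val hk⟩

end Pool.Agent.CdebT
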