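import Pool.Agent.CdebT.DihedralC

set_option autoImplicit false

/-!
Products `G = A B` with tori `D ≤ A`, `E ≤ B` of finite index, an involution of `G` inverting `D`,
a 2-element of `E` not centralizing `D`, and `D` or `E` quasicyclic, or power automorphisms.
-/

namespace Pool.Agent.CdebT

open Subgroup

open Pool.Agent.Cdeb98 (conjS mem_conjS conj_mem_conjS conjS_mul conjS_one conjS_mono conjS_sup
  conjS_finiteIndex dcc_of_le dcc_of_surjective dcc_prod exists_pow_mem_of_relIndex
  exists_pow_mem_of_finiteIndex mem_sup_of_comm FD relIndex_ne_zero_of_map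
  le_centralizer_singleton mem_centralizer_singleton exists_left_transversal)

universe u v

variable {G : Type u} [Group G]

/-- the control of centralizers when `E` is a 2-group whose involutions are central in `B` -/
theorem clT_of_quasi {A B D E : Subgroup G} (hAB : ∀ g : G, ∃ a ∈ A, ∃ b ∈ B, g = a * b)
    (hD : IsTor D) (hE : IsTor E) (hDA : D ≤ A) (hEB : E ≤ B)
    (hDi : D.relIndex A ≠ 0) (hEi : E.relIndex B ≠ 0) (hfd : FD D E) (hsep : Cdeb98.Sep D E)
    (hclD : ClT D) (hDne : ∃ d ∈ D, d ≠ 1)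
    (hB : ∀ β ∈ B, ∀ j ∈ E, j * j = 1 → β * j * β⁻¹ = j)
    (hE2 : ∀ e ∈ E, e ≠ 1 → ∃ j ∈ zpowers e, j ≠ 1 ∧ j * j = 1)
    (hF : ∀ z ∈ E, (∀ d ∈ D, z * d = d * z) → z = 1) : ClT E := by
  have hD1 : conjS 1 D = D := conjS_one D
  have hnD := hD.conjS_eq hDA hDi
  have hnE := hE.conjS_eq hEB hEi
  intro e he he1 P hP hPe
  obtain ⟨j, hje, hj1, hjj⟩ := hE2 e he he1
  have hj : j ∈ E := (zpowers_le.2 he) hje
  have hjB : ∀ β ∈ B, β * j * β⁻¹ = j := fun β hβ => hB β hβ j hj hjj
  -- `j` normalizes no conjugate of `D`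
  have hjN : ∀ g : G, conjS j (conjS g D) ≠ conjS g D := by
    intro g hg
    obtain ⟨α, hα, β, hβ, hgαβ⟩ := hAB g⁻¹
    have hg' : g = β⁻¹ * α⁻¹ := by rw [← inv_inv g, hgαβ, mul_inv_rev]
    have hjD : conjS j D = D := by
      have h1 : conjS g D = conjS β⁻¹ D := by
        rw [hg', conjS_mul, hnD _ (A.inv_mem hα)]
      rw [h1] at hg
      have h2 : j * β⁻¹ = β⁻¹ * j := by
        have h3 := hjB _ (B.inv_mem hβ)
        calc j * β⁻¹ = (β⁻¹ * j * β⁻¹⁻¹) * β⁻¹ := by rw [h3]
          _ = β⁻¹ * j := by group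
      rw [← conjS_mul, h2, conjS_mul] at hg
      have h4 := congrArg (conjS β) hg
      have h5 : ∀ X : Subgroup G, conjS β (conjS β⁻¹ X) = X := by
        intro X
        rw [← conjS_mul, mul_inv_cancel, conjS_one]
      rw [h5, h5] at h4
      exact h4
    have hJN : ∀ g : G, conjS (g * j * g⁻¹) D = D := by
      intro g
      obtain ⟨α, hα, β, hβ, rfl⟩ := hAB g
      have h1 : α * β * j * (α * β)⁻¹ = α * j * α⁻¹ := by
        calc α * β * j * (α * β)⁻¹ = α * (β * j * β⁻¹) * α⁻¹ := by group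
          _ = α * j * α⁻¹ := by rw [hjB β hβ]
      rw [h1, conjS_mul, conjS_mul, hnD _ (A.inv_mem hα), hjD, hnD α hα]
    let Nd : Subgroup G :=
      { carrier := {x | conjS x D = D}
        one_mem' := conjS_one _
        mul_mem' := by
          intro a b ha hb
          change conjS (a * b) D = D
          rw [conjS_mul, show conjS b D = D from hb, show conjS a D = D from ha]
        inv_mem' := by
          intro a ha
          change conjS a⁻¹ D = D
          nth_rewrite 1 [← show conjS a D = D from ha]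
          rw [← conjS_mul, inv_mul_cancel, conjS_one] }
    have hDNd : D ≤ Nd := fun d hd => hD.conjS_eq le_rfl
      (by rw [Subgroup.relIndex_self]; exact one_ne_zero) d hd
    have hNdi : D.relIndex Nd ≠ 0 := by
      refine relIndex_of_trivial hE hfd hDNd ?_
      intro P hP hPle p hp
      by_contra hp1
      have h1 := hP.comm_of_normalizes hD (fun p hp => (hPle hp).1)
      obtain ⟨d, hd, hd1⟩ := hDne
      have h2 : P ≤ D := hclD d hd hd1 P hP (fun p hp => h1 p hp d hd)
      exact hp1 (hsep p (h2 hp) p (hPle hp).2 (IsConj.refl p))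
    obtain ⟨M, hM⟩ : ∃ M : Subgroup G, M = Subgroup.normalClosure {j} := ⟨_, rfl⟩
    have hMn : M.Normal := by rw [hM]; infer_instance
    have hjM : j ∈ M := by rw [hM]; exact Subgroup.subset_normalClosure rfl
    have hMNd : M ≤ Nd := by
      rw [hM, Subgroup.normalClosure, Subgroup.closure_le]
      intro x hx
      rw [Group.mem_conjugatesOfSet_iff] at hx
      obtain ⟨y, hy, hyx⟩ := hx
      rw [Set.mem_singleton_iff] at hy
      subst hy
      obtain ⟨c, hc⟩ := isConj_iff.1 hyx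
      rw [← hc]
      exact hJN c
    obtain ⟨T0, hT0le, hT0, hT0i⟩ := exists_tor (Q := M ⊓ D)
      (fun a ha b hb => hD.comm a ha.2 b hb.2)
      (dcc_of_le (inf_le_right : M ⊓ D ≤ D) hD.min)
    have hT0M : T0.relIndex M ≠ 0 := by
      refine Subgroup.relIndex_ne_zero_trans hT0i ?_
      rw [Subgroup.inf_relIndex_left]
      exact mt (Subgroup.relIndex_eq_zero_of_le_right hMNd) hNdi
    have hT0n : ∀ g : G, conjS g T0 ≤ T0 := by
      intro g
      refine (hT0.conj g).le_of_relIndex ?_ hT0M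
      intro x hx
      rw [mem_conjS] at hx
      have h1 := hMn.conj_mem _ (hT0le hx).1 g
      have h2 : g * (g⁻¹ * x * g) * g⁻¹ = x := by group
      rwa [h2] at h1
    have hT0n' : ∀ g : G, conjS g T0 = T0 := by
      intro g
      apply le_antisymm (hT0n g)
      have h2 := conjS_mono (g := g) (hT0n g⁻¹)
      rwa [← conjS_mul, mul_inv_cancel, conjS_one] at h2
    have hET := hE.comm_of_normalizes hT0 (fun e _ => hT0n' e)
    have hT01 : T0 = ⊥ := by
      rw [eq_bot_iff]
      intro x hx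
      rw [Subgroup.mem_bot]
      by_contra hx1
      have h1 : E ≤ D := hclD x (hT0le hx).2 hx1 E hE (fun e he => hET e he x hx)
      exact hj1 (hsep j (h1 hj) j hj (IsConj.refl j))
    rw [hT01] at hT0M
    have hMf : Finite M := by
      rw [Subgroup.relIndex, Subgroup.bot_subgroupOf, Subgroup.index_bot] at hT0M
      exact Nat.finite_of_card_ne_zero hT0M
    have hMf' : (M : Set G).Finite := hMf
    apply hj1
    refine hF j hj ?_
    have h1 : (centralizer {j}).relIndex D ≠ 0 := by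
      refine relIndex_ne_zero_of_map hMf' (fun d => d * j * d⁻¹)
        (fun d _ => hMn.conj_mem j hjM d) ?_
      intro x _ y _ hxy
      have hxy' : x * j * x⁻¹ = y * j * y⁻¹ := hxy
      rw [mem_centralizer_singleton]
      calc x⁻¹ * y * j = x⁻¹ * (y * j * y⁻¹) * y := by group
        _ = x⁻¹ * (x * j * x⁻¹) * y := by rw [hxy']
        _ = j * (x⁻¹ * y) := by group
    intro d hd
    exact (mem_centralizer_singleton.1 (hD.le_of_relIndex le_rfl h1 hd)).symm
  -- the conclusion
  obtain ⟨k, hk⟩ := hje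
  have hk' : e ^ k = j := hk
  have hPj : ∀ p ∈ P, p * j = j * p := by
    intro p hp
    have h1 : Commute p e := hPe p hp
    rw [← hk']
    exact h1.zpow_right k
  have hEj : E ≤ centralizer {j} := le_centralizer_singleton (fun e he => hE.comm e he j hj)
  refine hP.le_of_relIndex (le_centralizer_singleton hPj) ?_
  refine relIndex_of_trivial hD hfd.symm hEj ?_
  intro P' hP' hP'le p hp
  by_contra hp1
  have h1 := mem_centralizer_singleton.1 (hP'le hp).1
  apply hjN 1
  exact hclD.normalizes hD (g := 1) (x := j) (e := p) (by rw [hD1]; exact (hP'le hp).2) hp1 h1.symm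

theorem dihedral_reduce {A B D E : Subgroup G} (hAB : ∀ g : G, ∃ a ∈ A, ∃ b ∈ B, g = a * b)
    (hD : IsTor D) (hE : IsTor E) (hDA : D ≤ A) (hEB : E ≤ B)
    (hDi : D.relIndex A ≠ 0) (hEi : E.relIndex B ≠ 0) {a : G} (haa : a * a = 1)
    (haD : ∀ d ∈ D, a * d * a = d⁻¹) {y0 : G} (hy0 : y0 ∈ E) (hy02 : ∃ k : ℕ, y0 ^ (2 ^ k) = 1)
    (hy0D : ∃ d ∈ D, d * y0 ≠ y0 * d)
    (hcase : (∀ P : Subgroup G, P ≤ D → P = D ∨ (P : Set G).Finite) ∨
      (∀ P : Subgroup G, P ≤ E → P = E ∨ (P : Set G).Finite) ∨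
      ((∀ x ∈ D, (∃ e ∈ E, e * x ≠ x * e) → ∀ P : Subgroup G, IsTor P → P ≤ centralizer {x} ⊓ E →
        ∀ p ∈ P, ∀ d ∈ D, p * d = d * p) ∧
      (∀ β ∈ B, ∀ y ∈ E, β * y * β⁻¹ ∈ zpowers y) ∧ ∀ y ∈ E, ∃ k : ℕ, y ^ (2 ^ k) = 1)) :
    ∃ T : Subgroup G, IsTor T ∧ T.Normal ∧ T.FiniteIndex := by
  -- `A` normalizes `D`, `B` normalizes `E`
  have hnorm : ∀ X Y : Subgroup G, IsTor X → X ≤ Y → X.relIndex Y ≠ 0 →
      ∀ y ∈ Y, conjS y X = X := by
    intro X Y hX hXY hi
    have h1 : ∀ y ∈ Y, conjS y X ≤ X := by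
      intro y hy
      refine (hX.conj y).le_of_relIndex ?_ hi
      intro x hx
      rw [mem_conjS] at hx
      have h2 := Y.mul_mem (Y.mul_mem hy (hXY hx)) (Y.inv_mem hy)
      have h3 : y * (y⁻¹ * x * y) * y⁻¹ = x := by group
      rwa [h3] at h2
    intro y hy
    apply le_antisymm (h1 y hy)
    have h2 := conjS_mono (g := y) (h1 y⁻¹ (Y.inv_mem hy))
    rwa [← conjS_mul, mul_inv_cancel, conjS_one] at h2
  have hnD := hnorm D A hD hDA hDi
  have hnE := hnorm E B hE hEB hEi
  -- finite union of double cosets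
  have hfd : FD D E := by
    obtain ⟨R, hR, hRc⟩ := exists_left_transversal hDi
    obtain ⟨R', hR', hRc'⟩ := exists_left_transversal hEi
    refine ⟨Set.image2 (fun a b => a⁻¹ * b) R R', hR.image2 _ hR', fun g => ?_⟩
    obtain ⟨a, ha, b, hb, rfl⟩ := hAB g
    obtain ⟨ρ, hρ, _, p, hp, hap⟩ := hRc a⁻¹ (A.inv_mem ha)
    obtain ⟨ρ', hρ', _, p', hp', hbp⟩ := hRc' b hb
    refine ⟨ρ⁻¹ * ρ', ⟨ρ, hρ, ρ', hρ', rfl⟩, p⁻¹, D.inv_mem hp, p', hp', ?_⟩
    have h1 : a = p⁻¹ * ρ⁻¹ := by
      rw [← inv_inv a, hap]; group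
    rw [h1, hbp]; group
  obtain ⟨s, hs⟩ := hfd.finiteIndex
  -- all pairs generate a subgroup of finite index
  have hall : ∀ g : G, (D ⊔ conjS g E).FiniteIndex := by
    have h0 : ∀ a b : G, a ∈ A → b ∈ B → D ⊔ conjS (a * b) E = conjS a (D ⊔ E) := by
      intro a b ha hb
      rw [conjS_sup, hnD a ha, conjS_mul, hnE b hb]
    obtain ⟨a0, ha0, b0, hb0, hs0⟩ := hAB s
    rw [hs0, h0 a0 b0 ha0 hb0] at hs
    have h1 : (D ⊔ E).FiniteIndex := by
      have h2 := conjS_finiteIndex a0⁻¹ _ hs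
      rwa [← conjS_mul, inv_mul_cancel, conjS_one] at h2
    intro g
    obtain ⟨a, ha, b, hb, rfl⟩ := hAB g
    rw [h0 a b ha hb]
    exact conjS_finiteIndex _ _ h1
  obtain ⟨N, hN⟩ : ∃ N : Subgroup G, N = D ⊔ E := ⟨_, rfl⟩
  have hNf : N.FiniteIndex := by
    have := hall 1
    rwa [conjS_one, ← hN] at this
  have hNn : N.Normal := by
    constructor
    intro n hn g
    have h1 : (conjS g⁻¹ N).FiniteIndex := conjS_finiteIndex _ _ hNf
    have h2 : N ≤ conjS g⁻¹ N := by
      nth_rewrite 1 [hN]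
      exact sup_le (hD.le_of_finiteIndex h1) (hE.le_of_finiteIndex h1)
    have h3 := h2 hn
    rw [mem_conjS, inv_inv] at h3
    exact h3
  have hNle : ∀ g, N ≤ D ⊔ conjS g E := by
    intro g
    rw [hN]
    exact sup_le (hD.le_of_finiteIndex (hall g)) (hE.le_of_finiteIndex (hall g))
  obtain ⟨K, hKc⟩ : ∃ K : Subgroup G, K = centralizer (N : Set G) := ⟨_, rfl⟩
  have hKN : ∀ k ∈ K, ∀ u ∈ N, u * k = k * u := by
    intro k hk u hu
    rw [hKc] at hk
    exact (Subgroup.mem_centralizer_iff.1 hk) u hu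
  have hDN : D ≤ N := hD.le_of_finiteIndex hNf
  have hEN : ∀ g, conjS g E ≤ N := fun g => (hE.conj g).le_of_finiteIndex hNf
  have hEN1 : E ≤ N := hE.le_of_finiteIndex hNf
  have hsepK : ∀ x ∈ D, ∀ y ∈ E, ∀ g : G, x⁻¹ * (g⁻¹ * y * g) ∈ K → x ∈ K := by
    intro t ht t' ht' g h1
    obtain ⟨e, he⟩ : ∃ e : G, e = g⁻¹ * t' * g := ⟨_, rfl⟩
    rw [← he] at h1
    have heE : e ∈ conjS g⁻¹ E := by
      rw [he]
      have := conj_mem_conjS (g := g⁻¹) ht'
      rwa [inv_inv] at this
    have h2 : N ≤ centralizer {t} := by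
      refine (hNle g⁻¹).trans (sup_le ?_ ?_)
      · exact le_centralizer_singleton (fun d hd => hD.comm d hd t ht)
      · refine le_centralizer_singleton (fun p hp => ?_)
        have h3 := (hE.conj g⁻¹).comm p hp e heE
        have h4 := hKN _ h1 p (hEN _ hp)
        -- `e = t k`
        have h5 : t = e * (t⁻¹ * e)⁻¹ := by group
        have h6 : p * (t⁻¹ * e)⁻¹ = (t⁻¹ * e)⁻¹ * p :=
          ((show Commute p (t⁻¹ * e) from h4).inv_right)
        calc p * t = p * (e * (t⁻¹ * e)⁻¹) := by rw [← h5]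
          _ = (p * e) * (t⁻¹ * e)⁻¹ := by rw [mul_assoc]
          _ = e * (p * (t⁻¹ * e)⁻¹) := by rw [h3, mul_assoc]
          _ = e * (t⁻¹ * e)⁻¹ * p := by rw [h6, mul_assoc]
          _ = t * p := by rw [← h5]
    rw [hKc, Subgroup.mem_centralizer_iff]
    intro h hh
    exact mem_centralizer_singleton.1 (h2 hh)
  by_cases hDE : ∀ d ∈ D, ∀ e ∈ E, d * e = e * d
  · have hTor : IsTor (D ⊔ E) := hD.sup hE hDE
    rw [hN] at hNn hNf
    exact ⟨D ⊔ E, hTor, hNn, hNf⟩
  exfalso
  apply hDE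
  have hKn : K.Normal := by rw [hKc]; infer_instance
  have hKmem : ∀ x : G, (∀ d ∈ D, x * d = d * x) → (∀ e ∈ E, x * e = e * x) → x ∈ K := by
    intro x h1 h2
    have h3 : N ≤ centralizer {x} := by
      rw [hN]
      exact sup_le (le_centralizer_singleton (fun d hd => (h1 d hd).symm))
        (le_centralizer_singleton (fun e he => (h2 e he).symm))
    rw [hKc, Subgroup.mem_centralizer_iff]
    intro u hu
    exact mem_centralizer_singleton.1 (h3 hu)
  -- the quotient
  obtain ⟨π, hπ⟩ : ∃ π : G →* G ⧸ K, π = QuotientGroup.mk' K := ⟨_, rfl⟩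
  have hsurj : Function.Surjective π := by rw [hπ]; exact QuotientGroup.mk'_surjective K
  have hone : ∀ x, π x = 1 ↔ x ∈ K := by
    intro x; rw [hπ]; exact QuotientGroup.eq_one_iff x
  have hmod : ∀ z f : G, π z * π f = π f * π z → z * f * z⁻¹ * f⁻¹ ∈ K := by
    intro z f h1
    rw [← hone]
    simp only [map_mul, map_inv]
    rw [h1]; group
  have hNmf : (N.map π).FiniteIndex := by
    constructor
    intro h0
    have h1 := Subgroup.index_map_dvd N hsurj
    rw [h0, Nat.zero_dvd] at h1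
    exact hNf.index_ne_zero h1
  have hfdQ : FD (D.map π) (E.map π) := by
    obtain ⟨S, hS, hcov⟩ := hfd
    refine ⟨π '' S, hS.image _, ?_⟩
    intro q
    obtain ⟨g, rfl⟩ := hsurj q
    obtain ⟨s, hs, d, hd, e, he, rfl⟩ := hcov g
    exact ⟨π s, ⟨s, hs, rfl⟩, π d, ⟨d, hd, rfl⟩, π e, ⟨e, he, rfl⟩, by rw [map_mul, map_mul]⟩
  have hsepQ : Cdeb98.Sep (D.map π) (E.map π) := by
    rintro _ ⟨x, hx, rfl⟩ _ ⟨y, hy, rfl⟩ hc
    rw [isConj_iff] at hc
    obtain ⟨q, hc⟩ := hc
    obtain ⟨g, rfl⟩ := hsurj q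
    rw [hone]
    refine hsepK x hx y hy g ?_
    rw [← hone]
    simp only [map_mul, map_inv]
    rw [← hc]; group
  have hABQ : ∀ g : G ⧸ K, ∃ a ∈ A.map π, ∃ b ∈ B.map π, g = a * b := by
    intro q
    obtain ⟨g, rfl⟩ := hsurj q
    obtain ⟨a, ha, b, hb, rfl⟩ := hAB g
    exact ⟨π a, ⟨a, ha, rfl⟩, π b, ⟨b, hb, rfl⟩, map_mul π a b⟩
  have hDK : ∃ d ∈ D, d ∉ K := by
    by_contra hcon
    push Not at hcon
    exact hDE (fun d hd e he => (hKN d (hcon d hd) e (hEN1 he)).symm)
  have hDneQ : ∃ d ∈ D.map π, d ≠ 1 := by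
    obtain ⟨d, hd, hdK⟩ := hDK
    exact ⟨π d, ⟨d, hd, rfl⟩, fun h1 => hdK ((hone d).1 h1)⟩
  -- an involution of the image of `E`
  obtain ⟨j, hj, hj1, hjj⟩ : ∃ j ∈ E.map π, j ≠ 1 ∧ j * j = 1 := by
    have hy1 : π y0 ≠ 1 := by
      intro h1
      obtain ⟨d, hd, hne⟩ := hy0D
      exact hne (hKN y0 ((hone y0).1 h1) d (hDN hd))
    obtain ⟨k0, hk0⟩ := hy02
    have hex : ∃ k : ℕ, (π y0) ^ (2 ^ k) = 1 := ⟨k0, by rw [← map_pow, hk0, map_one]⟩
    classical
    have hpos : Nat.find hex ≠ 0 := by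
      intro h0
      have h1 := Nat.find_spec hex
      rw [h0] at h1
      exact hy1 (by simpa using h1)
    obtain ⟨m, hm⟩ := Nat.exists_eq_succ_of_ne_zero hpos
    refine ⟨(π y0) ^ (2 ^ m), (E.map π).pow_mem ⟨y0, hy0, rfl⟩ _,
      Nat.find_min hex (by omega), ?_⟩
    have h1 := Nat.find_spec hex
    rw [hm, Nat.succ_eq_add_one, pow_succ, pow_mul, pow_two] at h1
    exact h1
  -- images of quasicyclic groups
  have himg : ∀ X : Subgroup G, (∀ P : Subgroup G, P ≤ X → P = X ∨ (P : Set G).Finite) →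
      ∀ P : Subgroup (G ⧸ K), P ≤ X.map π → P = X.map π ∨ (P : Set (G ⧸ K)).Finite := by
    intro X hX P hP
    have h1 : (X ⊓ P.comap π).map π = P := by
      apply le_antisymm
      · rintro _ ⟨x, hx, rfl⟩
        exact hx.2
      · intro p hp
        obtain ⟨x, hx, rfl⟩ := hP hp
        exact ⟨x, ⟨hx, hp⟩, rfl⟩
    rcases hX (X ⊓ P.comap π) inf_le_left with h2 | h2
    · left
      rw [← h1, h2]
    · right
      rw [← h1, Subgroup.coe_map]
      exact h2.image _
  have hFQ : ∀ z ∈ E.map π, (∀ d ∈ D.map π, z * d = d * z) → z = 1 := by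
    rintro _ ⟨y, hy, rfl⟩ hcomm
    rw [hone]
    refine hKmem y ?_ (fun e he => hE.comm y hy e he)
    obtain ⟨m, hm, hm1⟩ := hE.tors y hy
    exact comm_of_mod hD hDN hKN (hEN1 hy) hm (fun f _ => by rw [hm1, one_mul, mul_one])
      (fun f hf => hmod y f (hcomm _ ⟨f, hf, rfl⟩))
  have hcl : ClT (E.map π) := by
    rcases hcase with hD1 | hE1 | ⟨hx1, hβ, hE2⟩
    · refine clT_map hE hEN1 hKN π hone hNmf ?_
      intro y hy hyK
      have hEX : E ≤ centralizer {y} :=
        le_centralizer_singleton (fun e he => hE.comm e he y hy)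
      refine relIndex_of_trivial_mod hD hfd.symm hEX π ?_
      intro P hP hPle p hp
      rcases hD1 P (hPle.trans inf_le_right) with h1 | h1
      · exfalso
        apply hyK
        refine hKmem y ?_ (fun e he => hE.comm y hy e he)
        intro d hd
        rw [← h1] at hd
        exact (mem_centralizer_singleton.1 (hPle hd).1).symm
      · have : Finite P := h1
        rw [hP.eq_one_of_finite this p hp, map_one]
    · have hclD : ClT (D.map π) := by
        refine clT_map hD hDN hKN π hone hNmf ?_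
        intro x hx hxK
        have hDX : D ≤ centralizer {x} :=
          le_centralizer_singleton (fun d hd => hD.comm d hd x hx)
        refine relIndex_of_trivial_mod hE hfd hDX π ?_
        intro P hP hPle p hp
        rcases hE1 P (hPle.trans inf_le_right) with h1 | h1
        · exfalso
          apply hxK
          refine hKmem x (fun d hd => hD.comm x hx d hd) ?_
          intro e he
          rw [← h1] at he
          exact (mem_centralizer_singleton.1 (hPle he).1).symm
        · have : Finite P := h1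
          rw [hP.eq_one_of_finite this p hp, map_one]
      have hju := quasi_involution (hE.map π) (himg E hE1) hj hj1 hjj
      have huniq : ∀ j' ∈ E.map π, j' * j' = 1 → j' ≠ 1 → j' = j := by
        intro j' hj' hjj' hj1'
        obtain ⟨k, hk⟩ := hju j' hj' hj1'
        have hk' : j' ^ k = j := hk
        have h2 : j' ^ (2 : ℤ) = 1 := by rw [zpow_two, hjj']
        rcases Int.even_or_odd k with ⟨l, hl⟩ | ⟨l, hl⟩
        · exfalso
          apply hj1
          rw [← hk', hl, ← two_mul, zpow_mul, h2, one_zpow]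
        · rw [hl, zpow_add, zpow_mul, h2, one_zpow, one_mul, zpow_one] at hk'
          exact hk'
      refine clT_of_quasi hABQ (hD.map π) (hE.map π) (Subgroup.map_mono hDA)
        (Subgroup.map_mono hEB) (relIndex_map_ne_zero π hDi) (relIndex_map_ne_zero π hEi)
        hfdQ hsepQ hclD hDneQ ?_ (fun e he he1 => ⟨j, hju e he he1, hj1, hjj⟩) hFQ
      intro β hβ j' hj' hjj'
      by_cases hj1' : j' = 1
      · rw [hj1']; group
      · have h1 : β * j' * β⁻¹ ∈ E.map π := by
          have h2 := conj_mem_conjS (g := β) hj'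
          rwa [(hE.map π).conjS_eq (Subgroup.map_mono hEB) (relIndex_map_ne_zero π hEi) β hβ] at h2
        rw [huniq _ h1 (by
          calc β * j' * β⁻¹ * (β * j' * β⁻¹) = β * (j' * j') * β⁻¹ := by group
            _ = 1 := by rw [hjj']; group) (conj_ne_one hj1'), huniq j' hj' hjj' hj1']
    · have hclD : ClT (D.map π) := by
        refine clT_map hD hDN hKN π hone hNmf ?_
        intro x hx hxK
        have hDX : D ≤ centralizer {x} :=
          le_centralizer_singleton (fun d hd => hD.comm d hd x hx)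
        refine relIndex_of_trivial_mod hE hfd hDX π ?_
        intro P hP hPle p hp
        rw [hone]
        have hex : ∃ e ∈ E, e * x ≠ x * e := by
          by_contra hcon
          push Not at hcon
          exact hxK (hKmem x (fun d hd => hD.comm x hx d hd) (fun e he => (hcon e he).symm))
        exact hKmem p (hx1 x hx hex P hP hPle p hp)
          (fun e he => hE.comm p (hPle hp).2 e he)
      refine clT_of_quasi hABQ (hD.map π) (hE.map π) (Subgroup.map_mono hDA)
        (Subgroup.map_mono hEB) (relIndex_map_ne_zero π hDi) (relIndex_map_ne_zero π hEi)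
        hfdQ hsepQ hclD hDneQ ?_ ?_ hFQ
      · rintro _ ⟨β, hβB, rfl⟩ _ ⟨y, hy, rfl⟩ hjj'
        obtain ⟨k, hk⟩ := map_mem_zpowers π (hβ β hβB y hy)
        have hk' : (π y) ^ k = π (β * y * β⁻¹) := hk
        rw [map_mul, map_mul, map_inv] at hk'
        have h2 : (π y) ^ (2 : ℤ) = 1 := by rw [zpow_two, hjj']
        rcases Int.even_or_odd k with ⟨l, hl⟩ | ⟨l, hl⟩
        · rw [hl, ← two_mul, zpow_mul, h2, one_zpow] at hk'
          have h3 : π y = 1 := by
            calc π y = (π β)⁻¹ * (π β * π y * (π β)⁻¹) * π β := by group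
              _ = 1 := by rw [← hk']; group
          rw [h3]; group
        · rw [hl, zpow_add, zpow_mul, h2, one_zpow, one_mul, zpow_one] at hk'
          exact hk'.symm
      · rintro _ ⟨y, hy, rfl⟩ hy1
        obtain ⟨k0, hk0⟩ := hE2 y hy
        have hex : ∃ k : ℕ, (π y) ^ (2 ^ k) = 1 := ⟨k0, by rw [← map_pow, hk0, map_one]⟩
        classical
        have hpos : Nat.find hex ≠ 0 := by
          intro h0
          have h1 := Nat.find_spec hex
          rw [h0] at h1
          exact hy1 (by simpa using h1)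
        obtain ⟨m, hm⟩ := Nat.exists_eq_succ_of_ne_zero hpos
        refine ⟨(π y) ^ (2 ^ m), (zpowers (π y)).pow_mem (mem_zpowers _) _,
          Nat.find_min hex (by omega), ?_⟩
        have h1 := Nat.find_spec hex
        rw [hm, Nat.succ_eq_add_one, pow_succ, pow_mul, pow_two] at h1
        exact h1
  have hsetup : Setup (D.map π) (E.map π) :=
    { hD := hD.map π
      hE := hE.map π
      fd := hfdQ
      sep := hsepQ
      cl := hcl }
  obtain ⟨T, hT, _, hTf⟩ := dihedral_core hABQ hsetup (Subgroup.map_mono hDA)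
    (Subgroup.map_mono hEB) (relIndex_map_ne_zero π hDi) (relIndex_map_ne_zero π hEi)
    (a := π a) (j := j) (by rw [← map_mul, haa, map_one])
    (by
      rintro _ ⟨d, hd, rfl⟩
      rw [← map_mul, ← map_mul, haD d hd, map_inv]) hj hj1 hjj hDneQ
  have hDT := (hD.map π).le_of_finiteIndex hTf
  have hET := (hE.map π).le_of_finiteIndex hTf
  intro d hd
  obtain ⟨m, hm, hm1⟩ := hD.tors d hd
  refine comm_of_mod hE hEN1 hKN (hDN hd) hm (fun f _ => by rw [hm1, one_mul, mul_one]) ?_
  intro f hf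
  exact hmod d f (hT.comm _ (hDT ⟨d, hd, rfl⟩) _ (hET ⟨f, hf, rfl⟩))

end Pool.Agent.CdebT
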