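import Pool.Agent.CdebT.DihedralD

set_option autoImplicit false

/-!
The case of power automorphisms, and the passage from abelian subgroups of finite index with the
minimal condition to tori.
-/

namespace Pool.Agent.CdebT

open Subgroup

open Pool.Agent.Cdeb98 (dcc_of_le conjS mem_conjS le_centralizer_singleton
  mem_centralizer_singleton)

universe u v

variable {G : Type u} [Group G]

/-- commuting tori -/
theorem comm_product {A B D E : Subgroup G} (hAB : ∀ g : G, ∃ a ∈ A, ∃ b ∈ B, g = a * b)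
    (hD : IsTor D) (hE : IsTor E) (hDA : D ≤ A) (hEB : E ≤ B)
    (hDi : D.relIndex A ≠ 0) (hEi : E.relIndex B ≠ 0)
    (hcomm : ∀ d ∈ D, ∀ e ∈ E, d * e = e * d) :
    ∃ T : Subgroup G, IsTor T ∧ T.Normal ∧ T.FiniteIndex := by
  have hfd : Cdeb98.FD D E := by
    obtain ⟨R, hR, hRc⟩ := Cdeb98.exists_left_transversal hDi
    obtain ⟨R', hR', hRc'⟩ := Cdeb98.exists_left_transversal hEi
    refine ⟨Set.image2 (fun a b => a⁻¹ * b) R R', hR.image2 _ hR', fun g => ?_⟩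
    obtain ⟨a, ha, b, hb, rfl⟩ := hAB g
    obtain ⟨ρ, hρ, _, p, hp, hap⟩ := hRc a⁻¹ (A.inv_mem ha)
    obtain ⟨ρ', hρ', _, p', hp', hbp⟩ := hRc' b hb
    refine ⟨ρ⁻¹ * ρ', ⟨ρ, hρ, ρ', hρ', rfl⟩, p⁻¹, D.inv_mem hp, p', hp', ?_⟩
    have h1 : a = p⁻¹ * ρ⁻¹ := by
      rw [← inv_inv a, hap]; group
    rw [h1, hbp]; group
  obtain ⟨s, hs⟩ := hfd.finiteIndex
  obtain ⟨α, hα, β, hβ, rfl⟩ := hAB s
  have h1 : D ⊔ Cdeb98.conjS (α * β) E = Cdeb98.conjS α (D ⊔ E) := by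
    rw [Cdeb98.conjS_sup, hD.conjS_eq hDA hDi α hα, Cdeb98.conjS_mul,
      hE.conjS_eq hEB hEi β hβ]
  rw [h1] at hs
  have h2 : (D ⊔ E).FiniteIndex := by
    have h3 := Cdeb98.conjS_finiteIndex α⁻¹ _ hs
    rwa [← Cdeb98.conjS_mul, inv_mul_cancel, Cdeb98.conjS_one] at h3
  have hT := hD.sup hE hcomm
  refine ⟨D ⊔ E, hT, ?_, h2⟩
  constructor
  intro n hn g
  have h4 : (Cdeb98.conjS g⁻¹ (D ⊔ E)).FiniteIndex := Cdeb98.conjS_finiteIndex _ _ h2
  have h5 := hT.le_of_finiteIndex h4 hn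
  rw [Cdeb98.mem_conjS, inv_inv] at h5
  exact h5

theorem power_case_aux {E0 : Type u} [Group E0] (hwf : WellFoundedLT (Subgroup E0))
    (V : Subgroup E0) :
    ∀ (G : Type u) [Group G] (A B D E : Subgroup G), (∀ g : G, ∃ a ∈ A, ∃ b ∈ B, g = a * b) →
      IsTor D → IsTor E → D ≤ A → E ≤ B → D.relIndex A ≠ 0 → E.relIndex B ≠ 0 →
      (∃ φ : E →* E0, Function.Injective φ ∧ φ.range = V) →
      (∀ α ∈ A, ∀ x ∈ D, α * x * α⁻¹ ∈ zpowers x) →
      (∀ β ∈ B, ∀ y ∈ E, β * y * β⁻¹ ∈ zpowers y) →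
      (∀ y ∈ E, ∃ k : ℕ, y ^ (2 ^ k) = 1) →
      (∃ i : G, i * i = 1 ∧ ∀ d ∈ D, i * d * i = d⁻¹) →
      ∃ T : Subgroup G, IsTor T ∧ T.Normal ∧ T.FiniteIndex := by
  induction V using hwf.wf.induction with
  | _ V ih =>
    intro G _ A B D E hAB hD hE hDA hEB hDi hEi ⟨φ, hφ, hφV⟩ hα hβ hE2 ⟨i, hii, hiD⟩
    by_cases hcomm : ∀ d ∈ D, ∀ e ∈ E, d * e = e * d
    · exact comm_product hAB hD hE hDA hEB hDi hEi hcomm
    push Not at hcomm
    obtain ⟨d0, hd0, y0, hy0, hdy⟩ := hcomm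
    refine dihedral_reduce hAB hD hE hDA hEB hDi hEi hii hiD hy0 (hE2 y0 hy0) ⟨d0, hd0, hdy⟩
      (Or.inr (Or.inr ⟨?_, hβ, hE2⟩))
    intro x hx ⟨e1, he1, hne1⟩ P hP hPle p hp d hd
    have hxo : IsOfFinOrder x := by
      obtain ⟨k, hk, hk1⟩ := hD.tors x hx
      exact isOfFinOrder_iff_pow_eq_one.2 ⟨k, hk, hk1⟩
    obtain ⟨H, hH⟩ : ∃ H : Subgroup G, H = pmz x := ⟨_, rfl⟩
    have hAH : A ≤ H := by
      intro α hα'
      rw [hH]
      refine ⟨hα α hα' x hx, ?_⟩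
      have := hα α⁻¹ (A.inv_mem hα') x hx
      rwa [inv_inv] at this
    have hDH : D ≤ H := hDA.trans hAH
    have hiH : i ∈ H := by
      have hi' : i⁻¹ = i := inv_eq_of_mul_eq_one_left hii
      rw [hH]
      constructor
      · rw [hi', hiD x hx]; exact (zpowers x).inv_mem (mem_zpowers x)
      · rw [hi', hiD x hx]; exact (zpowers x).inv_mem (mem_zpowers x)
    obtain ⟨F, hFQ, hF, hFi⟩ := exists_tor (Q := H ⊓ E)
      (fun a ha b hb => hE.comm a ha.2 b hb.2)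
      (dcc_of_le (inf_le_right : H ⊓ E ≤ E) hE.min)
    have hFH : F ≤ H := hFQ.trans inf_le_left
    have hFE : F ≤ E := hFQ.trans inf_le_right
    have hFx := hF.comm_of_le_pmz hxo (by rw [← hH]; exact hFH)
    have he1F : e1 ∉ F := fun h => hne1 (hFx e1 h)
    have hPF : P ≤ F := by
      refine hP.le_of_relIndex ?_ hFi
      intro q hq
      refine ⟨?_, (hPle hq).2⟩
      rw [hH]
      exact centralizer_le_pmz x (hPle hq).1
    -- the smaller product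
    let ψ : (F.subgroupOf H) →* E :=
      { toFun := fun p => ⟨((p : H) : G), hFE p.2⟩
        map_one' := rfl
        map_mul' := fun p q => rfl }
    have hψ : Function.Injective ψ := by
      intro p q hpq
      have h1 : ((p : H) : G) = ((q : H) : G) := congrArg (fun z : E => (z : G)) hpq
      exact Subtype.ext (Subtype.ext h1)
    have hVlt : (φ.comp ψ).range < V := by
      refine lt_of_le_of_ne ?_ ?_
      · rintro _ ⟨p, rfl⟩
        rw [← hφV]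
        exact ⟨ψ p, rfl⟩
      · intro h
        have h1 : φ ⟨e1, he1⟩ ∈ (φ.comp ψ).range := by
          rw [h, ← hφV]
          exact ⟨_, rfl⟩
        obtain ⟨p, hp⟩ := h1
        have h2 := hφ hp
        have h3 : ((p : H) : G) = e1 := congrArg (fun z : E => (z : G)) h2
        apply he1F
        rw [← h3]
        exact p.2
    have hFB : F ≤ B ⊓ H := le_inf (hFE.trans hEB) hFH
    have hFBi : F.relIndex (B ⊓ H) ≠ 0 := by
      have h1 : (H ⊓ E).relIndex (B ⊓ H) ≠ 0 := by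
        have h2 : (E ⊓ H).relIndex (B ⊓ H) ≠ 0 := Subgroup.relIndex_inf_ne_zero
          (mt (Subgroup.relIndex_eq_zero_of_le_right inf_le_left) hEi)
          (by
            have h3 : H.relIndex (B ⊓ H) = 1 := Subgroup.relIndex_eq_one.2 inf_le_right
            rw [h3]; exact one_ne_zero)
        rwa [inf_comm] at h2
      exact Subgroup.relIndex_ne_zero_trans hFi h1
    obtain ⟨T', hT', _, hT'f⟩ := ih _ hVlt H (A.subgroupOf H) ((B ⊓ H).subgroupOf H)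
      (D.subgroupOf H) (F.subgroupOf H) (by
        rintro ⟨h, hh⟩
        obtain ⟨α, hα', β, hβ', hab⟩ := hAB h
        have hβH : β ∈ H := by
          have h1 : β = α⁻¹ * h := by rw [hab]; group
          rw [h1]
          exact H.mul_mem (H.inv_mem (hAH hα')) hh
        exact ⟨⟨α, hAH hα'⟩, hα', ⟨β, hβH⟩, ⟨hβ', hβH⟩, Subtype.ext hab⟩)
      (hD.subgroupOf hDH) (hF.subgroupOf hFH)
      (fun x hx => hDA hx) (fun x hx => hFB hx)
      (by rw [Subgroup.relIndex_subgroupOf hAH]; exact hDi)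
      (by rw [Subgroup.relIndex_subgroupOf inf_le_right]; exact hFBi)
      ⟨φ.comp ψ, hφ.comp hψ, rfl⟩
      (fun α hα' x hx => mem_zpowers_subtype (hα (α : G) hα' (x : G) hx))
      (fun β hβ' y hy => mem_zpowers_subtype (hβ (β : G) hβ'.1 (y : G) (hFE hy)))
      (fun y hy => by
        obtain ⟨k, hk⟩ := hE2 (y : G) (hFE hy)
        exact ⟨k, Subtype.ext (by simpa using hk)⟩)
      ⟨⟨i, hiH⟩, Subtype.ext hii, fun d hd => Subtype.ext (hiD (d : G) hd)⟩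
    have hDT := (hD.subgroupOf hDH).le_of_finiteIndex hT'f
    have hFT := (hF.subgroupOf hFH).le_of_finiteIndex hT'f
    have h1 := hT'.comm ⟨p, hFH (hPF hp)⟩ (hFT (hPF hp)) ⟨d, hDH hd⟩ (hDT hd)
    exact congrArg Subtype.val h1

theorem inverted_product {A B D E : Subgroup G} (hAB : ∀ g : G, ∃ a ∈ A, ∃ b ∈ B, g = a * b)
    (hDA : D ≤ A) (hEB : E ≤ B) (hDi : D.relIndex A ≠ 0) (hEi : E.relIndex B ≠ 0)
    (hDc : ∀ x ∈ D, ∀ y ∈ D, x * y = y * x) (hEc : ∀ x ∈ E, ∀ y ∈ E, x * y = y * x)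
    (hDm : WellFoundedLT (Subgroup D)) (hEm : WellFoundedLT (Subgroup E))
    (hE2 : ∀ y ∈ E, ∃ k : ℕ, y ^ (2 ^ k) = 1) {i : G} (hii : i * i = 1)
    (hiD : ∀ d ∈ D, i * d * i = d⁻¹)
    (hcase : (∀ P : Subgroup G, P < D → Finite P) ∨ (∀ P : Subgroup G, P < E → Finite P) ∨
      ((∀ a ∈ A, ∀ x ∈ D, a * x * a⁻¹ ∈ zpowers x) ∧
        ∀ b ∈ B, ∀ y ∈ E, b * y * b⁻¹ ∈ zpowers y)) :
    ∃ T : Subgroup G, IsTor T ∧ T.Normal ∧ T.FiniteIndex := by
  obtain ⟨D0, hD0D, hD0, hD0i⟩ := exists_tor hDc hDm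
  obtain ⟨E0, hE0E, hE0, hE0i⟩ := exists_tor hEc hEm
  have hD0A : D0.relIndex A ≠ 0 := Subgroup.relIndex_ne_zero_trans hD0i hDi
  have hE0B : E0.relIndex B ≠ 0 := Subgroup.relIndex_ne_zero_trans hE0i hEi
  have hquasi : ∀ X X0 : Subgroup G, X0 ≤ X → (∀ P : Subgroup G, P < X → Finite P) →
      ∀ P : Subgroup G, P ≤ X0 → P = X0 ∨ (P : Set G).Finite := by
    intro X X0 hX0 hX P hP
    rcases lt_or_eq_of_le hP with h1 | h1
    · right
      exact hX P (lt_of_lt_of_le h1 hX0)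
    · exact Or.inl h1
  by_cases hcomm : ∀ d ∈ D0, ∀ e ∈ E0, d * e = e * d
  · exact comm_product hAB hD0 hE0 (hD0D.trans hDA) (hE0E.trans hEB) hD0A hE0B hcomm
  · push Not at hcomm
    obtain ⟨d, hd, y, hy, hdy⟩ := hcomm
    rcases hcase with h1 | h1 | ⟨h1, h2⟩
    · exact dihedral_reduce hAB hD0 hE0 (hD0D.trans hDA) (hE0E.trans hEB) hD0A hE0B hii
        (fun d hd => hiD d (hD0D hd)) hy (hE2 y (hE0E hy)) ⟨d, hd, hdy⟩
        (Or.inl (hquasi D D0 hD0D h1))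
    · exact dihedral_reduce hAB hD0 hE0 (hD0D.trans hDA) (hE0E.trans hEB) hD0A hE0B hii
        (fun d hd => hiD d (hD0D hd)) hy (hE2 y (hE0E hy)) ⟨d, hd, hdy⟩
        (Or.inr (Or.inl (hquasi E E0 hE0E h1)))
    · exact power_case_aux hE0.min ⊤ G A B D0 E0 hAB hD0 hE0 (hD0D.trans hDA) (hE0E.trans hEB)
        hD0A hE0B ⟨MonoidHom.id E0, Function.injective_id, by
          rw [MonoidHom.range_eq_top]; exact Function.surjective_id⟩
        (fun a ha x hx => h1 a ha x (hD0D hx)) (fun b hb y hy => h2 b hb y (hE0E hy))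
        (fun y hy => hE2 y (hE0E hy)) ⟨i, hii, fun d hd => hiD d (hD0D hd)⟩

end Pool.Agent.CdebT
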