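import Pool.Agent.CdebT.ProductP

set_option autoImplicit false

/-!
Products of two Chernikov groups with an automorphism acting as a power automorphism of different
(or equal and even) orders on the two divisible parts.
-/

namespace Pool.Agent.CdebT

open Subgroup

open Pool.Agent.Cdeb98 (conjS mem_conjS conj_mem_conjS conjS_mul conjS_one conjS_mono conjS_sup
  conjS_finiteIndex dcc_of_le dcc_of_surjective dcc_prod exists_pow_mem_of_relIndex
  exists_pow_mem_of_finiteIndex mem_sup_of_comm FD relIndex_ne_zero_of_map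
  le_centralizer_singleton mem_centralizer_singleton exists_left_transversal)

universe u v

variable {G : Type u} [Group G]

theorem exists_tor_of_chernikov {A : Subgroup G}
    (hA : ∃ N : Subgroup ↥A, N.Normal ∧ N.FiniteIndex ∧ (∀ x y : ↥N, x * y = y * x) ∧
      WellFoundedLT (Subgroup ↥N)) :
    ∃ D : Subgroup G, IsTor D ∧ D ≤ A ∧ D.relIndex A ≠ 0 := by
  obtain ⟨N, _, hNf, hNc, hNmin⟩ := hA
  obtain ⟨P, hPN, hP, hPi⟩ := exists_tor (Q := N)
    (fun x hx y hy => by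
      have := hNc ⟨x, hx⟩ ⟨y, hy⟩
      exact congrArg Subtype.val this) hNmin
  have hPf : P.FiniteIndex := by
    constructor
    have h1 : N.relIndex ⊤ ≠ 0 := by
      rw [Subgroup.relIndex_top_right]; exact hNf.index_ne_zero
    have h2 := Subgroup.relIndex_ne_zero_trans hPi h1
    rwa [Subgroup.relIndex_top_right] at h2
  obtain ⟨T, hT, hTA, hTi⟩ := tor_of_subtype hP hPf
  exact ⟨T, hT, hTA, hTi⟩

/-- the subgroup of fixed points in `D` -/
def fixS (D : Subgroup G) (τ : MulAut G) : Subgroup G where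
  carrier := {d | d ∈ D ∧ τ d = d}
  one_mem' := ⟨D.one_mem, map_one τ⟩
  mul_mem' := by
    rintro x y ⟨hx, hx'⟩ ⟨hy, hy'⟩
    exact ⟨D.mul_mem hx hy, by rw [map_mul, hx', hy']⟩
  inv_mem' := by
    rintro x ⟨hx, hx'⟩
    exact ⟨D.inv_mem hx, by rw [map_inv, hx']⟩

/-- a power automorphism with finitely many fixed points has no large fixed subgroups -/
theorem exists_pow_mem_zpowers {D : Subgroup G} (hD : IsTor D) (τ : MulAut G)
    (hτ : ∀ d ∈ D, τ d ∈ zpowers d) (hfin : {d | d ∈ D ∧ τ d = d}.Finite) :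
    ∃ c : ℕ, 0 < c ∧ ∀ d ∈ D, d ^ c ∈ zpowers (τ d * d⁻¹) := by
  have hF : Finite (fixS D τ) := hfin
  refine ⟨Nat.card (fixS D τ), Nat.card_pos, ?_⟩
  intro d hd
  obtain ⟨k, hk⟩ := hτ d hd
  have hk' : τ d = d ^ k := hk.symm
  obtain ⟨q, hq0, hq⟩ := hD.tors d hd
  have hn0 : 0 < orderOf d := orderOf_pos_iff.2 (isOfFinOrder_iff_pow_eq_one.2 ⟨q, hq0, hq⟩)
  obtain ⟨n, hn⟩ : ∃ n, n = orderOf d := ⟨_, rfl⟩
  rw [← hn] at hn0
  obtain ⟨g, hg⟩ : ∃ g, g = Int.gcd (k - 1) n := ⟨_, rfl⟩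
  have hgn : g ∣ n := by
    rw [hg]
    exact Int.natCast_dvd_natCast.1 (Int.gcd_dvd_right (k - 1) n)
  have hg0 : 0 < g := Nat.pos_of_dvd_of_pos hgn hn0
  obtain ⟨r, hr⟩ := hgn
  have hr0 : 0 < r := by
    rcases Nat.eq_zero_or_pos r with h | h
    · rw [h, mul_zero] at hr; omega
    · exact h
  have hgk : (g : ℤ) ∣ k - 1 := by
    rw [hg]; exact Int.gcd_dvd_left (k - 1) n
  have hdn : d ^ (n : ℤ) = 1 := by
    rw [zpow_natCast, hn]; exact pow_orderOf_eq_one d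
  -- the fixed point of order `g`
  have hfix : d ^ r ∈ fixS D τ := by
    refine ⟨D.pow_mem hd r, ?_⟩
    rw [map_pow, hk']
    obtain ⟨t, ht⟩ := hgk
    have h1 : (d ^ k) ^ r = d ^ r * (d ^ (n : ℤ)) ^ t := by
      rw [← zpow_natCast, ← zpow_mul, ← zpow_natCast, ← zpow_mul, ← zpow_add]
      congr 1
      have h2 : k = 1 + g * t := by omega
      rw [h2, hr]; push_cast; ring
    rw [h1, hdn, one_zpow, mul_one]
  have hord : orderOf (d ^ r) = g := by
    rw [orderOf_pow_of_dvd hr0.ne' (by rw [← hn]; exact ⟨g, by rw [hr, mul_comm]⟩), ← hn, hr]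
    exact Nat.mul_div_cancel _ hr0
  have hgc : g ∣ Nat.card (fixS D τ) := by
    have h1 : orderOf (⟨d ^ r, hfix⟩ : fixS D τ) ∣ Nat.card (fixS D τ) := orderOf_dvd_natCard _
    rwa [← Subgroup.orderOf_coe, hord] at h1
  obtain ⟨w, hw⟩ := hgc
  rw [hw]
  have h1 : τ d * d⁻¹ = d ^ (k - 1) := by
    rw [hk', zpow_sub, zpow_one]
  rw [h1]
  refine ⟨(k - 1).gcdA n * w, ?_⟩
  change (d ^ (k - 1)) ^ ((k - 1).gcdA n * w) = d ^ (g * w)
  have h2 := Int.gcd_eq_gcd_ab (k - 1) n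
  rw [← hg] at h2
  have h3 : d ^ (g * w) = d ^ ((k - 1) * ((k - 1).gcdA n * w)) *
      (d ^ (n : ℤ)) ^ ((k - 1).gcdB n * w) := by
    rw [← zpow_mul, ← zpow_add, ← zpow_natCast]
    congr 1
    push_cast
    rw [h2]; ring
  rw [h3, hdn, one_zpow, mul_one, ← zpow_mul]

/-- an automorphism of order two of a torus with finitely many fixed points is inversion -/
theorem eq_inv_of_sq {D : Subgroup G} (hD : IsTor D) (φ : MulAut G) (hφD : ∀ d ∈ D, φ d ∈ D)
    (hφφ : ∀ d ∈ D, φ (φ d) = d) (hfin : {d | d ∈ D ∧ φ d = d}.Finite) :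
    ∀ d ∈ D, φ d = d⁻¹ := by
  let f : D →* G :=
    { toFun := fun d => (d : G) * φ d
      map_one' := by simp
      map_mul' := by
        rintro ⟨x, hx⟩ ⟨y, hy⟩
        change x * y * φ (x * y) = x * φ x * (y * φ y)
        rw [map_mul]
        have h1 := hD.comm y hy (φ x) (hφD x hx)
        calc x * y * (φ x * φ y) = x * (y * φ x) * φ y := by group
          _ = x * (φ x * y) * φ y := by rw [h1]
          _ = x * φ x * (y * φ y) := by group }
  have hT := hD.range f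
  have hle : f.range ≤ fixS D φ := by
    rintro _ ⟨⟨d, hd⟩, rfl⟩
    refine ⟨D.mul_mem hd (hφD d hd), ?_⟩
    change φ (d * φ d) = d * φ d
    rw [map_mul, hφφ d hd]
    exact (hD.comm d hd _ (hφD d hd)).symm
  have hf : Finite f.range := (hfin.subset hle : Set.Finite (f.range : Set G))
  intro d hd
  have h1 : f ⟨d, hd⟩ = 1 := hT.eq_one_of_finite hf _ ⟨_, rfl⟩
  have h2 : d * φ d = 1 := h1
  exact eq_inv_of_mul_eq_one_right h2

theorem pow_mem_zpowers {D : Subgroup G} (τ : MulAut G) (hτ : ∀ d ∈ D, τ d ∈ zpowers d) (k : ℕ) :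
    ∀ d ∈ D, (τ ^ k) d ∈ zpowers d := by
  induction k with
  | zero => intro d _; exact mem_zpowers d
  | succ k ih =>
    intro d hd
    rw [pow_succ']
    change τ ((τ ^ k) d) ∈ zpowers d
    have h1 := ih d hd
    have h2 : (τ ^ k) d ∈ D := (zpowers_le.2 hd) h1
    exact (zpowers_le.2 h1) (hτ _ h2)

theorem pow_mul_fix {D : Subgroup G} (τ : MulAut G) {m : ℕ} (h : ∀ d ∈ D, (τ ^ m) d = d) (k : ℕ) :
    ∀ d ∈ D, ((τ ^ m) ^ k) d = d := by
  induction k with
  | zero => intro d _; rfl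
  | succ k ih =>
    intro d hd
    rw [pow_succ]
    change ((τ ^ m) ^ k) ((τ ^ m) d) = d
    rw [h d hd, ih d hd]

theorem core {A B D E : Subgroup G} (hAB : ∀ g : G, ∃ a ∈ A, ∃ b ∈ B, g = a * b)
    (hD : IsTor D) (hE : IsTor E) (hDA : D ≤ A) (hEB : E ≤ B)
    (hDi : D.relIndex A ≠ 0) (hEi : E.relIndex B ≠ 0) (τ : MulAut G) {m l : ℕ}
    (hm : 0 < m) (hl : 0 < l) (hml : m ≠ l ∨ Even m)
    (hτD : ∀ d ∈ D, τ d ∈ zpowers d) (hτE : ∀ e ∈ E, τ e ∈ zpowers e)
    (hmD : ∀ d ∈ D, (τ ^ m) d = d) (hlE : ∀ e ∈ E, (τ ^ l) e = e)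
    (hfD : ∀ k : ℕ, 0 < k → k < m → {d | d ∈ D ∧ (τ ^ k) d = d}.Finite)
    (hfE : ∀ k : ℕ, 0 < k → k < l → {e | e ∈ E ∧ (τ ^ k) e = e}.Finite) :
    ∃ T : Subgroup G, IsTor T ∧ T.Normal ∧ T.FiniteIndex := by
  have hmem : ∀ X : Subgroup G, (∀ x ∈ X, τ x ∈ zpowers x) → ∀ k : ℕ, ∀ x ∈ X,
      (τ ^ k) x ∈ X := fun X hX k x hx => (zpowers_le.2 hx) (pow_mem_zpowers τ hX k x hx)
  by_cases hne : m = l
  · -- the involution
    subst hne
    obtain ⟨r, hr⟩ : Even m := by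
      rcases hml with h | h
      · exact absurd rfl h
      · exact h
    have hr0 : 0 < r := by omega
    have hrm : r < m := by omega
    have hsq : ∀ X : Subgroup G, (∀ x ∈ X, (τ ^ m) x = x) → ∀ x ∈ X, (τ ^ r) ((τ ^ r) x) = x := by
      intro X hX x hx
      have h1 := hX x hx
      rw [hr, pow_add] at h1
      exact h1
    have hφD := eq_inv_of_sq hD (τ ^ r) (hmem D hτD r) (hsq D hmD) (hfD r hr0 hrm)
    have hφE := eq_inv_of_sq hE (τ ^ r) (hmem E hτE r) (hsq E hlE) (hfE r hr0 hrm)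
    refine product hAB hD hE hDA hEB hDi hEi (Or.inr rfl : (-1 : ℤ) = 1 ∨ (-1 : ℤ) = -1)
      (τ ^ r) hφD (fun e he => by rw [hφE e he, zpow_neg_one]) ?_
    intro Γ _ D' E' hD' hE' hfd hsep hinv
    refine main hD' hE' hfd hsep ?_
    intro g
    obtain ⟨i, hi, hiD, hiE⟩ := hinv g
    exact ⟨i, hi, hiD, fun e he => by rw [hiE e he, zpow_neg_one]⟩
  · by_cases hdvd : m ∣ l
    · -- swap the factors
      have hlt : m < l := lt_of_le_of_ne (Nat.le_of_dvd hl hdvd) hne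
      have hBA : ∀ g : G, ∃ b ∈ B, ∃ a ∈ A, g = b * a := by
        intro g
        obtain ⟨a, ha, b, hb, hg⟩ := hAB g⁻¹
        refine ⟨b⁻¹, B.inv_mem hb, a⁻¹, A.inv_mem ha, ?_⟩
        rw [← inv_inv g, hg]; group
      obtain ⟨c, hc0, hc⟩ := exists_pow_mem_zpowers hE (τ ^ m) (pow_mem_zpowers τ hτE m)
        (hfE m hm hlt)
      refine product_p hBA hE hD hEB hDA hEi hDi hl hc0 (τ ^ m)
        (fun e he => ⟨pow_mem_zpowers τ hτE m e he, hc e he⟩) ?_ hmD
      intro e he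
      have h1 : (τ ^ m) ^ l = (τ ^ l) ^ m := by rw [← pow_mul, ← pow_mul, mul_comm]
      rw [h1]
      exact pow_mul_fix τ hlE m e he
    · have hlm0 : 0 < l % m := Nat.pos_of_ne_zero (fun h => hdvd (Nat.dvd_of_mod_eq_zero h))
      have hlm : l % m < m := Nat.mod_lt _ hm
      have hred : ∀ d ∈ D, (τ ^ l) d = (τ ^ (l % m)) d := by
        intro d hd
        have h1 : τ ^ l = τ ^ (l % m) * (τ ^ m) ^ (l / m) := by
          rw [← pow_mul, ← pow_add, Nat.mod_add_div]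
        rw [h1]
        change (τ ^ (l % m)) (((τ ^ m) ^ (l / m)) d) = _
        rw [pow_mul_fix τ hmD (l / m) d hd]
      have hfin : {d | d ∈ D ∧ (τ ^ l) d = d}.Finite := by
        refine (hfD (l % m) hlm0 hlm).subset ?_
        rintro d ⟨hd, h⟩
        exact ⟨hd, by rw [← hred d hd]; exact h⟩
      obtain ⟨c, hc0, hc⟩ := exists_pow_mem_zpowers hD (τ ^ l) (pow_mem_zpowers τ hτD l) hfin
      refine product_p hAB hD hE hDA hEB hDi hEi hm hc0 (τ ^ l)
        (fun d hd => ⟨pow_mem_zpowers τ hτD l d hd, hc d hd⟩) ?_ hlE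
      intro d hd
      have h1 : (τ ^ l) ^ m = (τ ^ m) ^ l := by rw [← pow_mul, ← pow_mul, mul_comm]
      rw [h1]
      exact pow_mul_fix τ hmD l d hd

end Pool.Agent.CdebT
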