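import Pool.Agent.CdebT.StepB

set_option autoImplicit false

/-!
The induction: a group with two tori `D`, `E`, finitely many double cosets `D s E`, no nontrivial
element of `D` conjugate into `E`, and such that for every `g` some involution inverts `D` and
`g E g⁻¹`, has a torus of finite index.
-/

namespace Pool.Agent.CdebT

open Subgroup

open Pool.Agent.Cdeb98 (conjS mem_conjS conj_mem_conjS conjS_mul conjS_one conjS_mono conjS_sup
  conjS_finiteIndex dcc_of_le dcc_of_surjective dcc_prod exists_pow_mem_of_relIndex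
  exists_pow_mem_of_finiteIndex mem_sup_of_comm FD relIndex_ne_zero_of_map
  le_centralizer_singleton mem_centralizer_singleton)

universe u v

variable {G : Type u} [Group G]

/-- for every conjugate of `E` some element of order at most two inverts `D` and it -/
def Inv (D E : Subgroup G) : Prop :=
  ∀ g : G, ∃ i : G, i * i = 1 ∧ (∀ d ∈ D, i * d * i = d⁻¹) ∧
    ∀ e ∈ conjS g E, i * e * i = e⁻¹

/-- the elements conjugating `x` to `x` or `x⁻¹` -/
def pm (x : G) : Subgroup G where
  carrier := {g | g * x * g⁻¹ = x ∨ g * x * g⁻¹ = x⁻¹}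
  one_mem' := Or.inl (by simp)
  mul_mem' := by
    rintro a b ha hb
    have h1 : a * b * x * (a * b)⁻¹ = a * (b * x * b⁻¹) * a⁻¹ := by group
    have h2 : a * x⁻¹ * a⁻¹ = (a * x * a⁻¹)⁻¹ := by group
    change a * b * x * (a * b)⁻¹ = x ∨ a * b * x * (a * b)⁻¹ = x⁻¹
    rw [h1]
    rcases hb with hb | hb
    · rw [hb]; exact ha
    · rw [hb, h2]
      rcases ha with ha | ha
      · right; rw [ha]
      · left; rw [ha, inv_inv]
  inv_mem' := by
    rintro a ha
    change a⁻¹ * x * a⁻¹⁻¹ = x ∨ a⁻¹ * x * a⁻¹⁻¹ = x⁻¹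
    rcases ha with ha | ha
    · left
      calc a⁻¹ * x * a⁻¹⁻¹ = a⁻¹ * (a * x * a⁻¹) * a⁻¹⁻¹ := by rw [ha]
        _ = x := by group
    · right
      have h1 : (a * x * a⁻¹)⁻¹ = x := by rw [ha, inv_inv]
      calc a⁻¹ * x * a⁻¹⁻¹ = a⁻¹ * (a * x * a⁻¹)⁻¹ * a⁻¹⁻¹ := by rw [h1]
        _ = x⁻¹ := by group

theorem mem_pm {x g : G} : g ∈ pm x ↔ g * x * g⁻¹ = x ∨ g * x * g⁻¹ = x⁻¹ := Iff.rfl

theorem centralizer_le_pm (x : G) : centralizer {x} ≤ pm x := by
  intro g hg
  left
  have h1 := mem_centralizer_singleton.1 hg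
  rw [h1]; group

theorem sq_comm_of_mem_pm {x q : G} (hq : q ∈ pm x) : q ^ 2 * x = x * q ^ 2 := by
  have h1 : q * (q * x * q⁻¹) * q⁻¹ = x := by
    rcases hq with h | h
    · rw [h, h]
    · rw [h]
      have h2 : q * x⁻¹ * q⁻¹ = (q * x * q⁻¹)⁻¹ := by group
      rw [h2, h, inv_inv]
  calc q ^ 2 * x = (q * (q * x * q⁻¹) * q⁻¹) * q ^ 2 := by rw [pow_two]; group
    _ = x * q ^ 2 := by rw [h1]

theorem IsTor.comm_of_le_pm {P : Subgroup G} (hP : IsTor P) {x : G} (h : P ≤ pm x) :
    ∀ p ∈ P, p * x = x * p := by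
  intro p hp
  obtain ⟨q, hq, rfl⟩ := hP.div 2 (by norm_num) p hp
  exact sq_comm_of_mem_pm (h hq)

theorem tor_of_subtype {C : Subgroup G} {T : Subgroup C} (hT : IsTor T)
    (hf : T.FiniteIndex) : ∃ T' : Subgroup G, IsTor T' ∧ T' ≤ C ∧ T'.relIndex C ≠ 0 := by
  refine ⟨T.map C.subtype, hT.map _, ?_, ?_⟩
  · rintro _ ⟨x, _, rfl⟩
    exact x.2
  · have h1 : (T.map C.subtype).subgroupOf C = T := by
      rw [Subgroup.subgroupOf, Subgroup.comap_map_eq_self_of_injective
        (Subgroup.subtype_injective C)]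
    rw [Subgroup.relIndex, h1]
    exact hf.index_ne_zero

theorem main_aux {E0 : Type u} [Group E0] (hwf : WellFoundedLT (Subgroup E0)) (V : Subgroup E0) :
    ∀ (G : Type u) [Group G] (D E : Subgroup G), IsTor D → IsTor E →
      (∃ φ : E →* E0, Function.Injective φ ∧ φ.range = V) → FD D E → Cdeb98.Sep D E → Inv D E →
      ∃ T : Subgroup G, IsTor T ∧ T.FiniteIndex := by
  induction V using hwf.wf.induction with
  | _ V ih =>
    intro G _ D E hD hE ⟨φ, hφ, hφV⟩ hfd hsep hinv
    obtain ⟨s, hs⟩ := hfd.finiteIndex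
    obtain ⟨i, hi, hiD, hiE⟩ := hinv s
    have hE1 : IsTor (conjS s E) := hE.conj s
    refine step hD hE1 (hfd.conj_right s) (hsep.conj_right s) hi hiD hiE hs ?_
    intro x hx hxK
    have hDX : D ≤ pm x := (le_centralizer_singleton (fun d hd => hD.comm d hd x hx)).trans
      (centralizer_le_pm x)
    obtain ⟨P, hPQ, hP, hPi⟩ := exists_tor (Q := pm x ⊓ conjS s E)
      (fun a ha b hb => hE1.comm a ha.2 b hb.2)
      (dcc_of_le (inf_le_right : pm x ⊓ conjS s E ≤ conjS s E) hE1.min)
    have hPX : P ≤ pm x := hPQ.trans inf_le_left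
    have hPE : P ≤ conjS s E := hPQ.trans inf_le_right
    have hPx := hP.comm_of_le_pm hPX
    -- `P` is proper
    obtain ⟨e1, he1, he1P⟩ : ∃ e ∈ conjS s E, e ∉ P := by
      by_contra hcon
      push Not at hcon
      apply hxK
      have h1 : D ⊔ conjS s E ≤ centralizer {x} :=
        sup_le (le_centralizer_singleton (fun d hd => hD.comm d hd x hx))
          (le_centralizer_singleton (fun e he => hPx e (hcon e he)))
      rw [Subgroup.mem_centralizer_iff]
      intro u hu
      exact mem_centralizer_singleton.1 (h1 hu)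
    -- the embedding
    let ψ : (P.subgroupOf (pm x)) →* E :=
      { toFun := fun p => ⟨s⁻¹ * ((p : pm x) : G) * s, mem_conjS.1 (hPE p.2)⟩
        map_one' := by
          apply Subtype.ext
          simp
        map_mul' := fun p q => by
          apply Subtype.ext
          simp only [Subgroup.coe_mul]
          group }
    have hψ : Function.Injective ψ := by
      intro p q hpq
      have h1 : s⁻¹ * ((p : pm x) : G) * s = s⁻¹ * ((q : pm x) : G) * s := congrArg Subtype.val hpq
      have h2 : ((p : pm x) : G) = ((q : pm x) : G) := mul_left_cancel (mul_right_cancel h1)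
      exact Subtype.ext (Subtype.ext h2)
    have hVlt : (φ.comp ψ).range < V := by
      refine lt_of_le_of_ne ?_ ?_
      · rintro _ ⟨p, rfl⟩
        rw [← hφV]
        exact ⟨ψ p, rfl⟩
      · intro h
        have h1 : φ ⟨s⁻¹ * e1 * s, mem_conjS.1 he1⟩ ∈ (φ.comp ψ).range := by
          rw [h, ← hφV]
          exact ⟨_, rfl⟩
        obtain ⟨p, hp⟩ := h1
        have h2 := hφ hp
        have h3 : s⁻¹ * ((p : pm x) : G) * s = s⁻¹ * e1 * s := congrArg Subtype.val h2
        have h4 : ((p : pm x) : G) = e1 := mul_left_cancel (mul_right_cancel h3)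
        apply he1P
        rw [← h4]
        exact p.2
    have hfdX : FD (D.subgroupOf (pm x)) (P.subgroupOf (pm x)) :=
      Cdeb98.FD_subgroup (hfd.conj_right s) hDX hPQ hPi
    have hsepX : Cdeb98.Sep (D.subgroupOf (pm x)) (P.subgroupOf (pm x)) := by
      intro t ht t' ht' hc
      have h1 : IsConj (t : G) (t' : G) := (pm x).subtype.map_isConj hc
      have h2 := (hsep.conj_right s) (t : G) ht (t' : G) (hPE ht') h1
      exact Subtype.ext h2
    have hinvX : Inv (D.subgroupOf (pm x)) (P.subgroupOf (pm x)) := by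
      intro c
      obtain ⟨i', hi', hi'D, hi'E⟩ := hinv ((c : G) * s)
      have hi'inv : i'⁻¹ = i' := inv_eq_of_mul_eq_one_left hi'
      have hmem : i' ∈ pm x := by
        right
        rw [hi'inv]
        exact hi'D x hx
      refine ⟨⟨i', hmem⟩, Subtype.ext hi', ?_, ?_⟩
      · intro d hd
        exact Subtype.ext (hi'D (d : G) hd)
      · intro e he
        apply Subtype.ext
        refine hi'E (e : G) ?_
        rw [mem_conjS] at he
        have h1 : ((c⁻¹ * e * c : pm x) : G) ∈ P := he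
        rw [conjS_mul, mem_conjS]
        exact hPE h1
    obtain ⟨T', hT', hT'f⟩ := ih _ hVlt (pm x) (D.subgroupOf (pm x)) (P.subgroupOf (pm x))
      (hD.subgroupOf hDX) (hP.subgroupOf hPX) ⟨φ.comp ψ, hφ.comp hψ, rfl⟩ hfdX hsepX hinvX
    obtain ⟨T, hT, hTX, hTi⟩ := tor_of_subtype hT' hT'f
    exact ⟨T, hT, le_centralizer_singleton (hT.comm_of_le_pm hTX),
      mt (Subgroup.relIndex_eq_zero_of_le_right (centralizer_le_pm x)) hTi⟩

theorem main {D E : Subgroup G} (hD : IsTor D) (hE : IsTor E) (hfd : FD D E)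
    (hsep : Cdeb98.Sep D E) (hinv : Inv D E) : ∃ T : Subgroup G, IsTor T ∧ T.FiniteIndex :=
  main_aux hE.min ⊤ G D E hD hE
    ⟨MonoidHom.id E, Function.injective_id, by
      rw [MonoidHom.range_eq_top]; exact Function.surjective_id⟩ hfd hsep hinv

end Pool.Agent.CdebT
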