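import Pool.Agent.CdebT.StepPB

set_option autoImplicit false

/-!
The induction in the case where elements of finite order act on `D` by nontrivial power
automorphisms and centralize the conjugates of `E`.
-/

namespace Pool.Agent.CdebT

open Subgroup

open Pool.Agent.Cdeb98 (conjS mem_conjS conj_mem_conjS conjS_mul conjS_one conjS_mono conjS_sup
  conjS_finiteIndex dcc_of_le dcc_of_surjective dcc_prod exists_pow_mem_of_relIndex
  exists_pow_mem_of_finiteIndex mem_sup_of_comm FD relIndex_ne_zero_of_map
  le_centralizer_singleton mem_centralizer_singleton)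

universe u v

variable {G : Type u} [Group G]

theorem mem_zpowers_subtype {X : Subgroup G} {a b : X} (h : (a : G) ∈ zpowers (b : G)) :
    a ∈ zpowers b := by
  obtain ⟨k, hk⟩ := h
  exact ⟨k, Subtype.ext (by simpa using hk)⟩

theorem main_p_aux {D0 E0 : Type u} [Group D0] [Group E0] (hwfD : WellFoundedLT (Subgroup D0))
    (hwfE : WellFoundedLT (Subgroup E0)) {m c : ℕ} (hm : 0 < m) (hc0 : 0 < c)
    (VW : Subgroup D0 × Subgroup E0) :
    ∀ (G : Type u) [Group G] (D E : Subgroup G), IsTor D → IsTor E →
      (∃ φ : D →* D0, Function.Injective φ ∧ φ.range = VW.1) →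
      (∃ φ : E →* E0, Function.Injective φ ∧ φ.range = VW.2) →
      FD D E → Cdeb98.Sep D E → InvP m c D E →
      ∃ T : Subgroup G, IsTor T ∧ T.FiniteIndex := by
  have hwf : WellFoundedLT (Subgroup D0 × Subgroup E0) := inferInstance
  induction VW using hwf.wf.induction with
  | _ VW ih =>
    intro G _ D E hD hE ⟨φ, hφ, hφV⟩ ⟨χ, hχ, hχV⟩ hfd hsep hinv
    obtain ⟨s, hs⟩ := hfd.finiteIndex
    have hE1 : IsTor (conjS s E) := hE.conj s
    have hinv1 : InvP m c D (conjS s E) := by
      intro g
      obtain ⟨i, hi, hiD, hiE⟩ := hinv (g * s)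
      rw [conjS_mul] at hiE
      exact ⟨i, hi, hiD, hiE⟩
    refine step_p hm hc0 hD hE1 (hfd.conj_right s) (hsep.conj_right s) hinv1 hs ?_ ?_
    · intro x hx hxK
      have hxo : IsOfFinOrder x := by
        obtain ⟨k, hk, hk1⟩ := hD.tors x hx
        exact isOfFinOrder_iff_pow_eq_one.2 ⟨k, hk, hk1⟩
      have hDX : D ≤ pmz x := (le_centralizer_singleton (fun d hd => hD.comm d hd x hx)).trans
        (centralizer_le_pmz x)
      obtain ⟨P, hPQ, hP, hPi⟩ := exists_tor (Q := pmz x ⊓ conjS s E)
        (fun a ha b hb => hE1.comm a ha.2 b hb.2)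
        (dcc_of_le (inf_le_right : pmz x ⊓ conjS s E ≤ conjS s E) hE1.min)
      have hPX : P ≤ pmz x := hPQ.trans inf_le_left
      have hPE : P ≤ conjS s E := hPQ.trans inf_le_right
      have hPx := hP.comm_of_le_pmz hxo hPX
      -- `P` is proper
      obtain ⟨e1, he1, he1P⟩ : ∃ e ∈ conjS s E, e ∉ P := by
        by_contra hcon
        push Not at hcon
        apply hxK
        have h1 : D ⊔ conjS s E ≤ centralizer {x} :=
          sup_le (le_centralizer_singleton (fun d hd => hD.comm d hd x hx))
            (le_centralizer_singleton (fun e he => hPx e (hcon e he)))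
        rw [Subgroup.mem_centralizer_iff]
        intro u hu
        exact mem_centralizer_singleton.1 (h1 hu)
      -- the embeddings
      let ψ : (P.subgroupOf (pmz x)) →* E :=
        { toFun := fun p => ⟨s⁻¹ * ((p : pmz x) : G) * s, mem_conjS.1 (hPE p.2)⟩
          map_one' := by
            apply Subtype.ext
            simp
          map_mul' := fun p q => by
            apply Subtype.ext
            simp only [Subgroup.coe_mul]
            group }
      have hψ : Function.Injective ψ := by
        intro p q hpq
        have h1 : s⁻¹ * ((p : pmz x) : G) * s = s⁻¹ * ((q : pmz x) : G) * s :=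
          congrArg Subtype.val hpq
        have h2 : ((p : pmz x) : G) = ((q : pmz x) : G) :=
          mul_left_cancel (mul_right_cancel h1)
        exact Subtype.ext (Subtype.ext h2)
      let ψ' : (D.subgroupOf (pmz x)) →* D :=
        { toFun := fun p => ⟨((p : pmz x) : G), p.2⟩
          map_one' := rfl
          map_mul' := fun p q => rfl }
      have hψ' : Function.Injective ψ' := by
        intro p q hpq
        have h1 : ((p : pmz x) : G) = ((q : pmz x) : G) := congrArg (fun z : D => (z : G)) hpq
        exact Subtype.ext (Subtype.ext h1)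
      have hVle : (φ.comp ψ').range ≤ VW.1 := by
        rintro _ ⟨p, rfl⟩
        rw [← hφV]
        exact ⟨ψ' p, rfl⟩
      have hWlt : (χ.comp ψ).range < VW.2 := by
        refine lt_of_le_of_ne ?_ ?_
        · rintro _ ⟨p, rfl⟩
          rw [← hχV]
          exact ⟨ψ p, rfl⟩
        · intro h
          have h1 : χ ⟨s⁻¹ * e1 * s, mem_conjS.1 he1⟩ ∈ (χ.comp ψ).range := by
            rw [h, ← hχV]
            exact ⟨_, rfl⟩
          obtain ⟨p, hp⟩ := h1
          have h2 := hχ hp
          have h3 : s⁻¹ * ((p : pmz x) : G) * s = s⁻¹ * e1 * s := congrArg Subtype.val h2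
          have h4 : ((p : pmz x) : G) = e1 := mul_left_cancel (mul_right_cancel h3)
          apply he1P
          rw [← h4]
          exact p.2
      have hlt : ((φ.comp ψ').range, (χ.comp ψ).range) < VW :=
        Prod.lt_iff.2 (Or.inr ⟨hVle, hWlt⟩)
      have hfdX : FD (D.subgroupOf (pmz x)) (P.subgroupOf (pmz x)) :=
        Cdeb98.FD_subgroup (hfd.conj_right s) hDX hPQ hPi
      have hsepX : Cdeb98.Sep (D.subgroupOf (pmz x)) (P.subgroupOf (pmz x)) := by
        intro t ht t' ht' hc
        have h1 : IsConj (t : G) (t' : G) := (pmz x).subtype.map_isConj hc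
        have h2 := (hsep.conj_right s) (t : G) ht (t' : G) (hPE ht') h1
        exact Subtype.ext h2
      have hinvX : InvP m c (D.subgroupOf (pmz x)) (P.subgroupOf (pmz x)) := by
        intro c'
        obtain ⟨i', hi', hi'D, hi'E⟩ := hinv ((c' : G) * s)
        have hmem : i' ∈ pmz x := mem_pmz_of_pow hm hi' (hi'D x hx).1
        refine ⟨⟨i', hmem⟩, Subtype.ext (by simpa using hi'), ?_, ?_⟩
        · intro d hd
          exact ⟨mem_zpowers_subtype (hi'D (d : G) hd).1,
            mem_zpowers_subtype (hi'D (d : G) hd).2⟩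
        · intro e he
          apply Subtype.ext
          refine hi'E (e : G) ?_
          rw [mem_conjS] at he
          have h1 : ((c'⁻¹ * e * c' : pmz x) : G) ∈ P := he
          rw [conjS_mul, mem_conjS]
          exact hPE h1
      obtain ⟨T', hT', hT'f⟩ := ih _ hlt (pmz x) (D.subgroupOf (pmz x)) (P.subgroupOf (pmz x))
        (hD.subgroupOf hDX) (hP.subgroupOf hPX) ⟨φ.comp ψ', hφ.comp hψ', rfl⟩
        ⟨χ.comp ψ, hχ.comp hψ, rfl⟩ hfdX hsepX hinvX
      obtain ⟨T, hT, hTX, hTi⟩ := tor_of_subtype hT' hT'f
      exact ⟨T, hT, hTi⟩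
    · intro y hy hyK
      obtain ⟨X, hX⟩ : ∃ X : Subgroup G, X = centralizer {y} := ⟨_, rfl⟩
      rw [← hX]
      have hEX : conjS s E ≤ X := by
        rw [hX]
        exact le_centralizer_singleton (fun e he => hE1.comm e he y hy)
      obtain ⟨P, hPQ, hP, hPi⟩ := exists_tor (Q := X ⊓ D)
        (fun a ha b hb => hD.comm a ha.2 b hb.2)
        (dcc_of_le (inf_le_right : X ⊓ D ≤ D) hD.min)
      have hPX : P ≤ X := hPQ.trans inf_le_left
      have hPD : P ≤ D := hPQ.trans inf_le_right
      -- `P` is proper
      obtain ⟨d1, hd1, hd1P⟩ : ∃ d ∈ D, d ∉ P := by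
        by_contra hcon
        push Not at hcon
        apply hyK
        have h1 : D ⊔ conjS s E ≤ centralizer {y} := by
          rw [← hX]
          exact sup_le (fun d hd => hPX (hcon d hd)) hEX
        rw [Subgroup.mem_centralizer_iff]
        intro u hu
        exact mem_centralizer_singleton.1 (h1 hu)
      let ψ : ((conjS s E).subgroupOf X) →* E :=
        { toFun := fun p => ⟨s⁻¹ * ((p : X) : G) * s, mem_conjS.1 p.2⟩
          map_one' := by
            apply Subtype.ext
            simp
          map_mul' := fun p q => by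
            apply Subtype.ext
            simp only [Subgroup.coe_mul]
            group }
      have hψ : Function.Injective ψ := by
        intro p q hpq
        have h1 : s⁻¹ * ((p : X) : G) * s = s⁻¹ * ((q : X) : G) * s :=
          congrArg Subtype.val hpq
        have h2 : ((p : X) : G) = ((q : X) : G) :=
          mul_left_cancel (mul_right_cancel h1)
        exact Subtype.ext (Subtype.ext h2)
      let ψ' : (P.subgroupOf X) →* D :=
        { toFun := fun p => ⟨((p : X) : G), hPD p.2⟩
          map_one' := rfl
          map_mul' := fun p q => rfl }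
      have hψ' : Function.Injective ψ' := by
        intro p q hpq
        have h1 : ((p : X) : G) = ((q : X) : G) := congrArg (fun z : D => (z : G)) hpq
        exact Subtype.ext (Subtype.ext h1)
      have hVlt : (φ.comp ψ').range < VW.1 := by
        refine lt_of_le_of_ne ?_ ?_
        · rintro _ ⟨p, rfl⟩
          rw [← hφV]
          exact ⟨ψ' p, rfl⟩
        · intro h
          have h1 : φ ⟨d1, hd1⟩ ∈ (φ.comp ψ').range := by
            rw [h, ← hφV]
            exact ⟨_, rfl⟩
          obtain ⟨p, hp⟩ := h1
          have h2 := hφ hp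
          have h3 : ((p : X) : G) = d1 := congrArg Subtype.val h2
          apply hd1P
          rw [← h3]
          exact p.2
      have hWle : (χ.comp ψ).range ≤ VW.2 := by
        rintro _ ⟨p, rfl⟩
        rw [← hχV]
        exact ⟨ψ p, rfl⟩
      have hlt : ((φ.comp ψ').range, (χ.comp ψ).range) < VW :=
        Prod.lt_iff.2 (Or.inl ⟨hVlt, hWle⟩)
      have hfdX : FD (P.subgroupOf X) ((conjS s E).subgroupOf X) :=
        (Cdeb98.FD_subgroup (hfd.conj_right s).symm hEX hPQ hPi).symm
      have hsepX : Cdeb98.Sep (P.subgroupOf X) ((conjS s E).subgroupOf X) := by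
        intro t ht t' ht' hc
        have h1 : IsConj (t : G) (t' : G) := X.subtype.map_isConj hc
        have h2 := (hsep.conj_right s) (t : G) (hPD ht) (t' : G) ht' h1
        exact Subtype.ext h2
      have hinvX : InvP m c (P.subgroupOf X) ((conjS s E).subgroupOf X) := by
        intro c'
        obtain ⟨i', hi', hi'D, hi'E⟩ := hinv ((c' : G) * s)
        have hc'y : (c' : G) * y = y * (c' : G) := by
          have h1 : (c' : G) ∈ centralizer {y} := by rw [← hX]; exact c'.2
          exact mem_centralizer_singleton.1 h1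
        have hyc : y ∈ conjS ((c' : G) * s) E := by
          rw [conjS_mul, mem_conjS]
          have h1 : (c' : G)⁻¹ * y * (c' : G) = y := by
            rw [mul_assoc, ← hc'y]; group
          rw [h1]; exact hy
        have hmem : i' ∈ X := by
          rw [hX]
          exact mem_centralizer_singleton.2 (hi'E y hyc)
        refine ⟨⟨i', hmem⟩, Subtype.ext (by simpa using hi'), ?_, ?_⟩
        · intro d hd
          exact ⟨mem_zpowers_subtype (hi'D (d : G) (hPD hd)).1,
            mem_zpowers_subtype (hi'D (d : G) (hPD hd)).2⟩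
        · intro e he
          apply Subtype.ext
          refine hi'E (e : G) ?_
          rw [mem_conjS] at he
          have h1 : ((c'⁻¹ * e * c' : X) : G) ∈ conjS s E := he
          rw [conjS_mul, mem_conjS]
          exact h1
      obtain ⟨T', hT', hT'f⟩ := ih _ hlt X (P.subgroupOf X) ((conjS s E).subgroupOf X)
        (hP.subgroupOf hPX) (hE1.subgroupOf hEX) ⟨φ.comp ψ', hφ.comp hψ', rfl⟩
        ⟨χ.comp ψ, hχ.comp hψ, rfl⟩ hfdX hsepX hinvX
      obtain ⟨T, hT, hTX, hTi⟩ := tor_of_subtype hT' hT'f
      exact ⟨T, hT, hTX, hTi⟩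

theorem main_p {D E : Subgroup G} {m c : ℕ} (hm : 0 < m) (hc0 : 0 < c) (hD : IsTor D)
    (hE : IsTor E) (hfd : FD D E) (hsep : Cdeb98.Sep D E) (hinv : InvP m c D E) :
    ∃ T : Subgroup G, IsTor T ∧ T.FiniteIndex :=
  main_p_aux hD.min hE.min hm hc0 (⊤, ⊤) G D E hD hE
    ⟨MonoidHom.id D, Function.injective_id, by
      rw [MonoidHom.range_eq_top]; exact Function.surjective_id⟩
    ⟨MonoidHom.id E, Function.injective_id, by
      rw [MonoidHom.range_eq_top]; exact Function.surjective_id⟩ hfd hsep hinv

end Pool.Agent.CdebT
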