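import Pool.Agent.CdebT.Induct

set_option autoImplicit false

/-!
Products `G = A B` of two subgroups with tori `D ≤ A`, `E ≤ B` of finite index, and an automorphism
of `G` inverting `D` and inverting (`σ = -1`) or fixing (`σ = 1`) every element of `E`:
reduction to a statement on double cosets.
-/

namespace Pool.Agent.CdebT

open Subgroup

open Pool.Agent.Cdeb98 (conjS mem_conjS conj_mem_conjS conjS_mul conjS_one conjS_mono conjS_sup
  conjS_finiteIndex dcc_of_le dcc_of_surjective dcc_prod exists_pow_mem_of_relIndex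
  exists_pow_mem_of_finiteIndex mem_sup_of_comm FD relIndex_ne_zero_of_map
  le_centralizer_singleton mem_centralizer_singleton exists_left_transversal)

universe u v

variable {G : Type u} [Group G]

/-- for every conjugate of `E` some element of order at most two inverts `D` and acts on the
conjugate as `e ↦ e ^ σ` -/
def InvZ (σ : ℤ) (D E : Subgroup G) : Prop :=
  ∀ g : G, ∃ i : G, i * i = 1 ∧ (∀ d ∈ D, i * d * i = d⁻¹) ∧
    ∀ e ∈ conjS g E, i * e * i = e ^ σ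

theorem product {A B D E : Subgroup G} (hAB : ∀ g : G, ∃ a ∈ A, ∃ b ∈ B, g = a * b)
    (hD : IsTor D) (hE : IsTor E) (hDA : D ≤ A) (hEB : E ≤ B)
    (hDi : D.relIndex A ≠ 0) (hEi : E.relIndex B ≠ 0) {σ : ℤ} (hσ : σ = 1 ∨ σ = -1)
    (τ : MulAut G) (hτD : ∀ d ∈ D, τ d = d⁻¹) (hτE : ∀ e ∈ E, τ e = e ^ σ)
    (hmain : ∀ (Γ : Type u) [Group Γ] (D' E' : Subgroup Γ), IsTor D' → IsTor E' → FD D' E' →
      Cdeb98.Sep D' E' → InvZ σ D' E' → ∃ T : Subgroup Γ, IsTor T ∧ T.FiniteIndex) :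
    ∃ T : Subgroup G, IsTor T ∧ T.Normal ∧ T.FiniteIndex := by
  have hσσ : σ * σ = 1 := by rcases hσ with h | h <;> rw [h] <;> norm_num
  -- `A` normalizes `D`, `B` normalizes `E`
  have hnorm : ∀ X Y : Subgroup G, IsTor X → X ≤ Y → X.relIndex Y ≠ 0 →
      ∀ y ∈ Y, conjS y X = X := by
    intro X Y hX hXY hi
    have h1 : ∀ y ∈ Y, conjS y X ≤ X := by
      intro y hy
      refine (hX.conj y).le_of_relIndex ?_ hi
      intro x hx
      rw [mem_conjS] at hx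
      have h2 := Y.mul_mem (Y.mul_mem hy (hXY hx)) (Y.inv_mem hy)
      have h3 : y * (y⁻¹ * x * y) * y⁻¹ = x := by group
      rwa [h3] at h2
    intro y hy
    apply le_antisymm (h1 y hy)
    have h2 := conjS_mono (g := y) (h1 y⁻¹ (Y.inv_mem hy))
    rwa [← conjS_mul, mul_inv_cancel, conjS_one] at h2
  have hnD := hnorm D A hD hDA hDi
  have hnE := hnorm E B hE hEB hEi
  -- finite union of double cosets
  have hfd : FD D E := by
    obtain ⟨R, hR, hRc⟩ := exists_left_transversal hDi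
    obtain ⟨R', hR', hRc'⟩ := exists_left_transversal hEi
    refine ⟨Set.image2 (fun a b => a⁻¹ * b) R R', hR.image2 _ hR', fun g => ?_⟩
    obtain ⟨a, ha, b, hb, rfl⟩ := hAB g
    obtain ⟨ρ, hρ, _, p, hp, hap⟩ := hRc a⁻¹ (A.inv_mem ha)
    obtain ⟨ρ', hρ', _, p', hp', hbp⟩ := hRc' b hb
    refine ⟨ρ⁻¹ * ρ', ⟨ρ, hρ, ρ', hρ', rfl⟩, p⁻¹, D.inv_mem hp, p', hp', ?_⟩
    have h1 : a = p⁻¹ * ρ⁻¹ := by
      rw [← inv_inv a, hap]; group
    rw [h1, hbp]; group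
  obtain ⟨s, hs⟩ := hfd.finiteIndex
  -- all pairs generate a subgroup of finite index
  have hall : ∀ g : G, (D ⊔ conjS g E).FiniteIndex := by
    have h0 : ∀ a b : G, a ∈ A → b ∈ B → D ⊔ conjS (a * b) E = conjS a (D ⊔ E) := by
      intro a b ha hb
      rw [conjS_sup, hnD a ha, conjS_mul, hnE b hb]
    obtain ⟨a0, ha0, b0, hb0, hs0⟩ := hAB s
    rw [hs0, h0 a0 b0 ha0 hb0] at hs
    have h1 : (D ⊔ E).FiniteIndex := by
      have h2 := conjS_finiteIndex a0⁻¹ _ hs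
      rwa [← conjS_mul, inv_mul_cancel, conjS_one] at h2
    intro g
    obtain ⟨a, ha, b, hb, rfl⟩ := hAB g
    rw [h0 a b ha hb]
    exact conjS_finiteIndex _ _ h1
  obtain ⟨N, hN⟩ : ∃ N : Subgroup G, N = D ⊔ E := ⟨_, rfl⟩
  have hNf : N.FiniteIndex := by
    have := hall 1
    rwa [conjS_one, ← hN] at this
  have hNn : N.Normal := by
    constructor
    intro n hn g
    have h1 : (conjS g⁻¹ N).FiniteIndex := conjS_finiteIndex _ _ hNf
    have h2 : N ≤ conjS g⁻¹ N := by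
      nth_rewrite 1 [hN]
      exact sup_le (hD.le_of_finiteIndex h1) (hE.le_of_finiteIndex h1)
    have h3 := h2 hn
    rw [mem_conjS, inv_inv] at h3
    exact h3
  have hNle : ∀ g, N ≤ D ⊔ conjS g E := by
    intro g
    rw [hN]
    exact sup_le (hD.le_of_finiteIndex (hall g)) (hE.le_of_finiteIndex (hall g))
  obtain ⟨K, hKc⟩ : ∃ K : Subgroup G, K = centralizer (N : Set G) := ⟨_, rfl⟩
  have hKN : ∀ k ∈ K, ∀ u ∈ N, u * k = k * u := by
    intro k hk u hu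
    rw [hKc] at hk
    exact (Subgroup.mem_centralizer_iff.1 hk) u hu
  have hDN : D ≤ N := hD.le_of_finiteIndex hNf
  have hEN : ∀ g, conjS g E ≤ N := fun g => (hE.conj g).le_of_finiteIndex hNf
  have hEN1 : E ≤ N := hE.le_of_finiteIndex hNf
  have hsepK : ∀ x ∈ D, ∀ y ∈ E, ∀ g : G, x⁻¹ * (g⁻¹ * y * g) ∈ K → x ∈ K := by
    intro t ht t' ht' g h1
    obtain ⟨e, he⟩ : ∃ e : G, e = g⁻¹ * t' * g := ⟨_, rfl⟩
    rw [← he] at h1
    have heE : e ∈ conjS g⁻¹ E := by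
      rw [he]
      have := conj_mem_conjS (g := g⁻¹) ht'
      rwa [inv_inv] at this
    have h2 : N ≤ centralizer {t} := by
      refine (hNle g⁻¹).trans (sup_le ?_ ?_)
      · exact le_centralizer_singleton (fun d hd => hD.comm d hd t ht)
      · refine le_centralizer_singleton (fun p hp => ?_)
        have h3 := (hE.conj g⁻¹).comm p hp e heE
        have h4 := hKN _ h1 p (hEN _ hp)
        -- `e = t k`
        have h5 : t = e * (t⁻¹ * e)⁻¹ := by group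
        have h6 : p * (t⁻¹ * e)⁻¹ = (t⁻¹ * e)⁻¹ * p :=
          ((show Commute p (t⁻¹ * e) from h4).inv_right)
        calc p * t = p * (e * (t⁻¹ * e)⁻¹) := by rw [← h5]
          _ = (p * e) * (t⁻¹ * e)⁻¹ := by rw [mul_assoc]
          _ = e * (p * (t⁻¹ * e)⁻¹) := by rw [h3, mul_assoc]
          _ = e * (t⁻¹ * e)⁻¹ * p := by rw [h6, mul_assoc]
          _ = t * p := by rw [← h5]
    rw [hKc, Subgroup.mem_centralizer_iff]
    intro h hh
    exact mem_centralizer_singleton.1 (h2 hh)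
  -- the automorphism restricted to `N`
  have hτN : ∀ x ∈ N, τ x ∈ N := by
    have h1 : N ≤ N.comap τ.toMonoidHom := by
      nth_rewrite 1 [hN]
      refine sup_le ?_ ?_
      · intro d hd
        change τ d ∈ N
        rw [hτD d hd]; exact N.inv_mem (hDN hd)
      · intro e he
        change τ e ∈ N
        rw [hτE e he]; exact N.zpow_mem (hEN1 he) σ
    exact fun x hx => h1 hx
  have hττ : ∀ x ∈ N, τ (τ x) = x := by
    have h1 : N ≤ MonoidHom.eqLocus (τ.toMonoidHom.comp τ.toMonoidHom) (MonoidHom.id G) := by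
      rw [hN]
      refine sup_le ?_ ?_
      · intro d hd
        change τ (τ d) = d
        rw [hτD d hd, map_inv, hτD d hd, inv_inv]
      · intro e he
        change τ (τ e) = e
        rw [hτE e he, map_zpow, hτE e he, ← zpow_mul, hσσ, zpow_one]
    exact fun x hx => h1 hx
  let τN : MulAut N :=
    { toFun := fun x => ⟨τ x, hτN x x.2⟩
      invFun := fun x => ⟨τ x, hτN x x.2⟩
      left_inv := fun x => Subtype.ext (hττ x x.2)
      right_inv := fun x => Subtype.ext (hττ x x.2)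
      map_mul' := fun x y => Subtype.ext (map_mul τ (x : G) (y : G)) }
  have hτN2 : τN * τN = 1 := by
    ext x
    exact hττ x x.2
  let ρ : G →* MulAut N := MulAut.conjNormal
  have hρ : ∀ g : G, ∀ x : N, ((ρ g x : N) : G) = g * x * g⁻¹ := fun g x =>
    MulAut.conjNormal_apply g x
  have hone : ∀ x, ρ x = 1 ↔ x ∈ K := by
    intro x
    rw [hKc, Subgroup.mem_centralizer_iff]
    constructor
    · intro h u hu
      have h1 := hρ x ⟨u, hu⟩
      rw [h] at h1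
      have h2 : u = x * u * x⁻¹ := h1
      calc u * x = (x * u * x⁻¹) * x := by rw [← h2]
        _ = x * u := by group
    · intro h
      ext u
      rw [hρ]
      have h1 := h u u.2
      change x * (u : G) * x⁻¹ = u
      rw [← h1]; group
  have hτρ : ∀ g : G, τN * ρ g * τN = ρ (τ g) := by
    intro g
    ext x
    have h1 : (((τN * ρ g * τN) x : N) : G) = τ (((ρ g (τN x)) : N) : G) := rfl
    rw [h1, hρ, hρ]
    have h2 : ((τN x : N) : G) = τ x := rfl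
    rw [h2, map_mul, map_mul, map_inv, hττ x x.2]
  -- the group
  let Γ : Subgroup (MulAut N) :=
    { carrier := {γ | (∃ g, γ = ρ g) ∨ ∃ g, γ = ρ g * τN}
      one_mem' := Or.inl ⟨1, (map_one ρ).symm⟩
      mul_mem' := by
        rintro _ _ (⟨g, rfl⟩ | ⟨g, rfl⟩) (⟨h, rfl⟩ | ⟨h, rfl⟩)
        · exact Or.inl ⟨g * h, (map_mul ρ g h).symm⟩
        · exact Or.inr ⟨g * h, by rw [map_mul, mul_assoc]⟩
        · refine Or.inr ⟨g * τ h, ?_⟩
          rw [map_mul, ← hτρ h]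
          calc ρ g * τN * ρ h = ρ g * τN * ρ h * (τN * τN) := by rw [hτN2, mul_one]
            _ = ρ g * (τN * ρ h * τN) * τN := by group
        · refine Or.inl ⟨g * τ h, ?_⟩
          rw [map_mul, ← hτρ h]
          group
      inv_mem' := by
        rintro _ (⟨g, rfl⟩ | ⟨g, rfl⟩)
        · exact Or.inl ⟨g⁻¹, (map_inv ρ g).symm⟩
        · refine Or.inr ⟨τ g⁻¹, ?_⟩
          have h1 : τN⁻¹ = τN := inv_eq_of_mul_eq_one_left hτN2
          rw [mul_inv_rev, h1, ← map_inv, ← hτρ]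
          calc τN * ρ g⁻¹ = τN * ρ g⁻¹ * (τN * τN) := by rw [hτN2, mul_one]
            _ = τN * ρ g⁻¹ * τN * τN := by group }
  have hρΓ : ∀ g, ρ g ∈ Γ := fun g => Or.inl ⟨g, rfl⟩
  have hτΓ : τN ∈ Γ := Or.inr ⟨1, by rw [map_one, one_mul]⟩
  have hDΓ : D.map ρ ≤ Γ := by
    rintro _ ⟨d, _, rfl⟩
    exact hρΓ d
  have hEΓ : E.map ρ ≤ Γ := by
    rintro _ ⟨e, _, rfl⟩
    exact hρΓ e
  have hτΓE : ∀ e ∈ E, τ e ∈ E := fun e he => by rw [hτE e he]; exact E.zpow_mem he σ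
  have hfdΓ : FD ((D.map ρ).subgroupOf Γ) ((E.map ρ).subgroupOf Γ) := by
    obtain ⟨S, hS, hcov⟩ := hfd
    refine ⟨(fun s => (⟨ρ s, hρΓ s⟩ : Γ)) '' S ∪
      (fun s => (⟨ρ s * τN, Γ.mul_mem (hρΓ s) hτΓ⟩ : Γ)) '' S,
      (hS.image _).union (hS.image _), ?_⟩
    rintro ⟨γ, hγ⟩
    rcases hγ with ⟨g, rfl⟩ | ⟨g, rfl⟩
    · obtain ⟨s, hs, d, hd, e, he, rfl⟩ := hcov g
      refine ⟨_, Or.inl ⟨s, hs, rfl⟩, ⟨ρ d, hρΓ d⟩, ⟨d, hd, rfl⟩, ⟨ρ e, hρΓ e⟩, ⟨e, he, rfl⟩, ?_⟩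
      apply Subtype.ext
      change ρ (d * s * e) = ρ d * ρ s * ρ e
      rw [map_mul, map_mul]
    · obtain ⟨s, hs, d, hd, e, he, rfl⟩ := hcov g
      refine ⟨_, Or.inr ⟨s, hs, rfl⟩, ⟨ρ d, hρΓ d⟩, ⟨d, hd, rfl⟩, ⟨ρ (τ e), hρΓ _⟩,
        ⟨τ e, hτΓE e he, rfl⟩, ?_⟩
      apply Subtype.ext
      change ρ (d * s * e) * τN = ρ d * (ρ s * τN) * ρ (τ e)
      rw [← hτρ, map_mul, map_mul]
      calc ρ d * ρ s * ρ e * τN = ρ d * ρ s * 1 * ρ e * τN := by group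
        _ = ρ d * ρ s * (τN * τN) * ρ e * τN := by rw [hτN2]
        _ = ρ d * (ρ s * τN) * (τN * ρ e * τN) := by group
  have hsepΓ : Cdeb98.Sep ((D.map ρ).subgroupOf Γ) ((E.map ρ).subgroupOf Γ) := by
    rintro ⟨_, hxΓ⟩ ⟨x, hx, rfl⟩ ⟨_, hyΓ⟩ ⟨y, hy, rfl⟩ hc
    have hc' := Γ.subtype.map_isConj hc
    rw [isConj_iff] at hc
    obtain ⟨⟨γ, hγ⟩, hc⟩ := hc
    have hc1 : γ * ρ x * γ⁻¹ = ρ y := congrArg Subtype.val hc
    apply Subtype.ext
    change ρ x = 1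
    rw [hone]
    rcases hγ with ⟨g, rfl⟩ | ⟨g, rfl⟩
    · refine hsepK x hx y hy g ?_
      rw [← hone]
      simp only [map_mul, map_inv]
      rw [← hc1]; group
    · have h1 : x⁻¹ ∈ K := by
        refine hsepK x⁻¹ (D.inv_mem hx) y hy g ?_
        rw [← hone]
        simp only [map_mul, map_inv, inv_inv]
        have h2 : τN⁻¹ = τN := inv_eq_of_mul_eq_one_left hτN2
        have h3 : τN * ρ x * τN = (ρ x)⁻¹ := by rw [hτρ, hτD x hx, map_inv]
        rw [← hc1, mul_inv_rev, h2]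
        calc ρ x * ((ρ g)⁻¹ * (ρ g * τN * ρ x * (τN * (ρ g)⁻¹)) * ρ g)
            = ρ x * (τN * ρ x * τN) := by group
          _ = 1 := by rw [h3, mul_inv_cancel]
      have := K.inv_mem h1
      rwa [inv_inv] at this
  have hinvΓ : InvZ σ ((D.map ρ).subgroupOf Γ) ((E.map ρ).subgroupOf Γ) := by
    rintro ⟨γ, hγ⟩
    obtain ⟨g, hg⟩ : ∃ g : G, ∀ e ∈ E, ∃ e1 ∈ E, γ * ρ e * γ⁻¹ = ρ (g * e1 * g⁻¹) := by
      rcases hγ with ⟨g, rfl⟩ | ⟨g, rfl⟩
      · exact ⟨g, fun e he => ⟨e, he, by rw [map_mul, map_mul, map_inv]⟩⟩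
      · refine ⟨g, fun e he => ⟨τ e, hτΓE e he, ?_⟩⟩
        have h2 : τN⁻¹ = τN := inv_eq_of_mul_eq_one_left hτN2
        rw [map_mul, map_mul, map_inv, ← hτρ, mul_inv_rev, h2]
        group
    obtain ⟨α, hα, β, hβ, rfl⟩ := hAB g
    have hτi : τN⁻¹ = τN := inv_eq_of_mul_eq_one_left hτN2
    have hii : (ρ α * τN * ρ α⁻¹) * (ρ α * τN * ρ α⁻¹) = 1 := by
      rw [map_inv]
      calc ρ α * τN * (ρ α)⁻¹ * (ρ α * τN * (ρ α)⁻¹) = ρ α * (τN * τN) * (ρ α)⁻¹ := by group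
        _ = 1 := by rw [hτN2]; group
    have hact : ∀ x : G, (ρ α * τN * ρ α⁻¹) * ρ (α * x * α⁻¹) * (ρ α * τN * ρ α⁻¹) =
        ρ (α * τ x * α⁻¹) := by
      intro x
      simp only [map_mul, map_inv]
      rw [← hτρ x]
      group
    refine ⟨⟨ρ α * τN * ρ α⁻¹, Γ.mul_mem (Γ.mul_mem (hρΓ _) hτΓ) (hρΓ _)⟩, Subtype.ext hii,
      ?_, ?_⟩
    · rintro ⟨_, hdΓ⟩ ⟨d, hd, rfl⟩
      apply Subtype.ext
      change (ρ α * τN * ρ α⁻¹) * ρ d * (ρ α * τN * ρ α⁻¹) = (ρ d)⁻¹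
      have h1 : α⁻¹ * d * α ∈ D := by
        have h2 : d ∈ conjS α D := by rw [hnD α hα]; exact hd
        exact mem_conjS.1 h2
      have h2 : d = α * (α⁻¹ * d * α) * α⁻¹ := by group
      have h3 := hact (α⁻¹ * d * α)
      rw [← h2] at h3
      rw [h3, hτD _ h1, ← map_inv]
      congr 1
      group
    · rintro ⟨e', heΓ⟩ he
      rw [mem_conjS] at he
      obtain ⟨e, heE, hee⟩ := he
      have hee' : ρ e = γ⁻¹ * e' * γ := hee
      obtain ⟨e1, he1, heq⟩ := hg e heE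
      have h1 : e' = ρ (α * β * e1 * (α * β)⁻¹) := by
        rw [← heq, hee']; group
      obtain ⟨e2, he2⟩ : ∃ e2 : G, e2 = β * e1 * β⁻¹ := ⟨_, rfl⟩
      have he2E : e2 ∈ E := by
        have h2 : e2 ∈ conjS β E := by rw [he2]; exact conj_mem_conjS he1
        rwa [hnE β hβ] at h2
      have h2 : α * β * e1 * (α * β)⁻¹ = α * e2 * α⁻¹ := by rw [he2]; group
      rw [h2] at h1
      apply Subtype.ext
      change (ρ α * τN * ρ α⁻¹) * e' * (ρ α * τN * ρ α⁻¹) = e' ^ σ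
      rw [h1, hact, hτE e2 he2E, ← map_zpow, conj_zpow]
  obtain ⟨T, hT, hTf⟩ := hmain Γ _ _ ((hD.map ρ).subgroupOf hDΓ) ((hE.map ρ).subgroupOf hEΓ)
    hfdΓ hsepΓ hinvΓ
  -- `D` and `E` commute
  have hDE : ∀ d ∈ D, ∀ e ∈ E, d * e = e * d := by
    have hDT := ((hD.map ρ).subgroupOf hDΓ).le_of_finiteIndex hTf
    have hET := ((hE.map ρ).subgroupOf hEΓ).le_of_finiteIndex hTf
    intro d hd
    obtain ⟨m, hm, hm1⟩ := hD.tors d hd
    refine comm_of_mod hE hEN1 hKN (hDN hd) hm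
      (fun f _ => by rw [hm1, one_mul, mul_one]) ?_
    intro f hf
    have h1 := hT.comm ⟨ρ d, hρΓ d⟩ (hDT ⟨d, hd, rfl⟩) ⟨ρ f, hρΓ f⟩ (hET ⟨f, hf, rfl⟩)
    have h2 : ρ d * ρ f = ρ f * ρ d := congrArg Subtype.val h1
    rw [← hone, map_mul, map_mul, map_mul, map_inv, map_inv, h2]; group
  have hTor : IsTor (D ⊔ E) := hD.sup hE hDE
  rw [hN] at hNn hNf
  exact ⟨D ⊔ E, hTor, hNn, hNf⟩

end Pool.Agent.CdebT
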