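import Pool.Agent.CdebT.Product
import Pool.Agent.CdebT.InductP

set_option autoImplicit false

/-!
Products `G = A B` of two subgroups with tori `D ≤ A`, `E ≤ B` of finite index, and an automorphism
of `G` centralizing `E` and acting on `D` as a power automorphism of finite order without large
fixed subgroups.
-/

namespace Pool.Agent.CdebT

open Subgroup

open Pool.Agent.Cdeb98 (conjS mem_conjS conj_mem_conjS conjS_mul conjS_one conjS_mono conjS_sup
  conjS_finiteIndex dcc_of_le dcc_of_surjective dcc_prod exists_pow_mem_of_relIndex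
  exists_pow_mem_of_finiteIndex mem_sup_of_comm FD relIndex_ne_zero_of_map
  le_centralizer_singleton mem_centralizer_singleton exists_left_transversal)

universe u v

variable {G : Type u} [Group G]

theorem conj_mem_zpowers {a x y : G} (h : x ∈ zpowers y) :
    a * x * a⁻¹ ∈ zpowers (a * y * a⁻¹) := by
  obtain ⟨k, hk⟩ := h
  have hk' : y ^ k = x := hk
  refine ⟨k, ?_⟩
  change (a * y * a⁻¹) ^ k = a * x * a⁻¹
  rw [conj_zpow, hk']

theorem map_mem_zpowers {H : Type v} [Group H] (f : G →* H) {x y : G} (h : x ∈ zpowers y) :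
    f x ∈ zpowers (f y) := by
  obtain ⟨k, hk⟩ := h
  have hk' : y ^ k = x := hk
  refine ⟨k, ?_⟩
  change (f y) ^ k = f x
  rw [← map_zpow, hk']

theorem product_p {A B D E : Subgroup G} (hAB : ∀ g : G, ∃ a ∈ A, ∃ b ∈ B, g = a * b)
    (hD : IsTor D) (hE : IsTor E) (hDA : D ≤ A) (hEB : E ≤ B)
    (hDi : D.relIndex A ≠ 0) (hEi : E.relIndex B ≠ 0) {m c : ℕ} (hm0 : 0 < m) (hc0 : 0 < c)
    (τ : MulAut G) (hτD : ∀ d ∈ D, τ d ∈ zpowers d ∧ d ^ c ∈ zpowers (τ d * d⁻¹))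
    (hτm : ∀ d ∈ D, (τ ^ m) d = d) (hτE : ∀ e ∈ E, τ e = e) :
    ∃ T : Subgroup G, IsTor T ∧ T.Normal ∧ T.FiniteIndex := by
  -- `A` normalizes `D`, `B` normalizes `E`
  have hnorm : ∀ X Y : Subgroup G, IsTor X → X ≤ Y → X.relIndex Y ≠ 0 →
      ∀ y ∈ Y, conjS y X = X := by
    intro X Y hX hXY hi
    have h1 : ∀ y ∈ Y, conjS y X ≤ X := by
      intro y hy
      refine (hX.conj y).le_of_relIndex ?_ hi
      intro x hx
      rw [mem_conjS] at hx
      have h2 := Y.mul_mem (Y.mul_mem hy (hXY hx)) (Y.inv_mem hy)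
      have h3 : y * (y⁻¹ * x * y) * y⁻¹ = x := by group
      rwa [h3] at h2
    intro y hy
    apply le_antisymm (h1 y hy)
    have h2 := conjS_mono (g := y) (h1 y⁻¹ (Y.inv_mem hy))
    rwa [← conjS_mul, mul_inv_cancel, conjS_one] at h2
  have hnD := hnorm D A hD hDA hDi
  have hnE := hnorm E B hE hEB hEi
  -- finite union of double cosets
  have hfd : FD D E := by
    obtain ⟨R, hR, hRc⟩ := exists_left_transversal hDi
    obtain ⟨R', hR', hRc'⟩ := exists_left_transversal hEi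
    refine ⟨Set.image2 (fun a b => a⁻¹ * b) R R', hR.image2 _ hR', fun g => ?_⟩
    obtain ⟨a, ha, b, hb, rfl⟩ := hAB g
    obtain ⟨ρ, hρ, _, p, hp, hap⟩ := hRc a⁻¹ (A.inv_mem ha)
    obtain ⟨ρ', hρ', _, p', hp', hbp⟩ := hRc' b hb
    refine ⟨ρ⁻¹ * ρ', ⟨ρ, hρ, ρ', hρ', rfl⟩, p⁻¹, D.inv_mem hp, p', hp', ?_⟩
    have h1 : a = p⁻¹ * ρ⁻¹ := by
      rw [← inv_inv a, hap]; group
    rw [h1, hbp]; group
  obtain ⟨s, hs⟩ := hfd.finiteIndex
  -- all pairs generate a subgroup of finite index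
  have hall : ∀ g : G, (D ⊔ conjS g E).FiniteIndex := by
    have h0 : ∀ a b : G, a ∈ A → b ∈ B → D ⊔ conjS (a * b) E = conjS a (D ⊔ E) := by
      intro a b ha hb
      rw [conjS_sup, hnD a ha, conjS_mul, hnE b hb]
    obtain ⟨a0, ha0, b0, hb0, hs0⟩ := hAB s
    rw [hs0, h0 a0 b0 ha0 hb0] at hs
    have h1 : (D ⊔ E).FiniteIndex := by
      have h2 := conjS_finiteIndex a0⁻¹ _ hs
      rwa [← conjS_mul, inv_mul_cancel, conjS_one] at h2
    intro g
    obtain ⟨a, ha, b, hb, rfl⟩ := hAB g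
    rw [h0 a b ha hb]
    exact conjS_finiteIndex _ _ h1
  obtain ⟨N, hN⟩ : ∃ N : Subgroup G, N = D ⊔ E := ⟨_, rfl⟩
  have hNf : N.FiniteIndex := by
    have := hall 1
    rwa [conjS_one, ← hN] at this
  have hNn : N.Normal := by
    constructor
    intro n hn g
    have h1 : (conjS g⁻¹ N).FiniteIndex := conjS_finiteIndex _ _ hNf
    have h2 : N ≤ conjS g⁻¹ N := by
      nth_rewrite 1 [hN]
      exact sup_le (hD.le_of_finiteIndex h1) (hE.le_of_finiteIndex h1)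
    have h3 := h2 hn
    rw [mem_conjS, inv_inv] at h3
    exact h3
  have hNle : ∀ g, N ≤ D ⊔ conjS g E := by
    intro g
    rw [hN]
    exact sup_le (hD.le_of_finiteIndex (hall g)) (hE.le_of_finiteIndex (hall g))
  obtain ⟨K, hKc⟩ : ∃ K : Subgroup G, K = centralizer (N : Set G) := ⟨_, rfl⟩
  have hKN : ∀ k ∈ K, ∀ u ∈ N, u * k = k * u := by
    intro k hk u hu
    rw [hKc] at hk
    exact (Subgroup.mem_centralizer_iff.1 hk) u hu
  have hDN : D ≤ N := hD.le_of_finiteIndex hNf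
  have hEN : ∀ g, conjS g E ≤ N := fun g => (hE.conj g).le_of_finiteIndex hNf
  have hEN1 : E ≤ N := hE.le_of_finiteIndex hNf
  have hsepK : ∀ x ∈ D, ∀ y ∈ E, ∀ g : G, x⁻¹ * (g⁻¹ * y * g) ∈ K → x ∈ K := by
    intro t ht t' ht' g h1
    obtain ⟨e, he⟩ : ∃ e : G, e = g⁻¹ * t' * g := ⟨_, rfl⟩
    rw [← he] at h1
    have heE : e ∈ conjS g⁻¹ E := by
      rw [he]
      have := conj_mem_conjS (g := g⁻¹) ht'
      rwa [inv_inv] at this
    have h2 : N ≤ centralizer {t} := by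
      refine (hNle g⁻¹).trans (sup_le ?_ ?_)
      · exact le_centralizer_singleton (fun d hd => hD.comm d hd t ht)
      · refine le_centralizer_singleton (fun p hp => ?_)
        have h3 := (hE.conj g⁻¹).comm p hp e heE
        have h4 := hKN _ h1 p (hEN _ hp)
        -- `e = t k`
        have h5 : t = e * (t⁻¹ * e)⁻¹ := by group
        have h6 : p * (t⁻¹ * e)⁻¹ = (t⁻¹ * e)⁻¹ * p :=
          ((show Commute p (t⁻¹ * e) from h4).inv_right)
        calc p * t = p * (e * (t⁻¹ * e)⁻¹) := by rw [← h5]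
          _ = (p * e) * (t⁻¹ * e)⁻¹ := by rw [mul_assoc]
          _ = e * (p * (t⁻¹ * e)⁻¹) := by rw [h3, mul_assoc]
          _ = e * (t⁻¹ * e)⁻¹ * p := by rw [h6, mul_assoc]
          _ = t * p := by rw [← h5]
    rw [hKc, Subgroup.mem_centralizer_iff]
    intro h hh
    exact mem_centralizer_singleton.1 (h2 hh)
  -- powers of the automorphism
  have hτ1D : ∀ d ∈ D, τ d ∈ D := fun d hd => (zpowers_le.2 hd) (hτD d hd).1
  have hmD : ∀ k : ℕ, ∀ d ∈ D, (τ ^ k) d ∈ D := by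
    intro k
    induction k with
    | zero => intro d hd; exact hd
    | succ k ih =>
      intro d hd
      rw [pow_succ']
      exact hτ1D _ (ih d hd)
  have hmE : ∀ k : ℕ, ∀ e ∈ E, (τ ^ k) e = e := by
    intro k
    induction k with
    | zero => intro e _; rfl
    | succ k ih =>
      intro e he
      rw [pow_succ']
      change τ ((τ ^ k) e) = e
      rw [ih e he, hτE e he]
  -- the automorphism restricted to `N`
  have hτkN : ∀ k : ℕ, ∀ x ∈ N, (τ ^ k) x ∈ N := by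
    intro k
    have h1 : N ≤ N.comap (τ ^ k).toMonoidHom := by
      nth_rewrite 1 [hN]
      refine sup_le ?_ ?_
      · intro d hd
        exact hDN (hmD k d hd)
      · intro e he
        change (τ ^ k) e ∈ N
        rw [hmE k e he]; exact hEN1 he
    exact fun x hx => h1 hx
  have hτmN : ∀ x ∈ N, (τ ^ m) x = x := by
    have h1 : N ≤ MonoidHom.eqLocus (τ ^ m).toMonoidHom (MonoidHom.id G) := by
      rw [hN]
      exact sup_le (fun d hd => hτm d hd) (fun e he => hmE m e he)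
    exact fun x hx => h1 hx
  have hτ1N : ∀ x ∈ N, τ x ∈ N := fun x hx => by
    have := hτkN 1 x hx
    rwa [pow_one] at this
  have hm1 : m - 1 + 1 = m := by omega
  let τN : MulAut N :=
    { toFun := fun x => ⟨τ x, hτ1N x x.2⟩
      invFun := fun x => ⟨(τ ^ (m - 1)) x, hτkN _ x x.2⟩
      left_inv := fun x => Subtype.ext (by
        change (τ ^ (m - 1)) (τ (x : G)) = x
        have h1 := hτmN x x.2
        nth_rewrite 1 [← hm1] at h1
        rw [pow_succ] at h1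
        exact h1)
      right_inv := fun x => Subtype.ext (by
        change τ ((τ ^ (m - 1)) (x : G)) = x
        have h1 := hτmN x x.2
        nth_rewrite 1 [← hm1] at h1
        rw [pow_succ'] at h1
        exact h1)
      map_mul' := fun x y => Subtype.ext (map_mul τ (x : G) (y : G)) }
  have hτNk : ∀ k : ℕ, ∀ x : N, (((τN ^ k) x : N) : G) = (τ ^ k) (x : G) := by
    intro k
    induction k with
    | zero => intro x; rfl
    | succ k ih =>
      intro x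
      rw [pow_succ', pow_succ']
      change τ (((τN ^ k) x : N) : G) = τ ((τ ^ k) (x : G))
      rw [ih]
  have hτNm : τN ^ m = 1 := by
    ext x
    rw [hτNk]
    exact hτmN x x.2
  let ρ : G →* MulAut N := MulAut.conjNormal
  have hρ : ∀ g : G, ∀ x : N, ((ρ g x : N) : G) = g * x * g⁻¹ := fun g x =>
    MulAut.conjNormal_apply g x
  have hone : ∀ x, ρ x = 1 ↔ x ∈ K := by
    intro x
    rw [hKc, Subgroup.mem_centralizer_iff]
    constructor
    · intro h u hu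
      have h1 := hρ x ⟨u, hu⟩
      rw [h] at h1
      have h2 : u = x * u * x⁻¹ := h1
      calc u * x = (x * u * x⁻¹) * x := by rw [← h2]
        _ = x * u := by group
    · intro h
      ext u
      rw [hρ]
      have h1 := h u u.2
      change x * (u : G) * x⁻¹ = u
      rw [← h1]; group
  have hτρ0 : ∀ g : G, τN * ρ g = ρ (τ g) * τN := by
    intro g
    ext x
    have h1 : (((τN * ρ g) x : N) : G) = τ (((ρ g x) : N) : G) := rfl
    have h2 : (((ρ (τ g) * τN) x : N) : G) = ((ρ (τ g) (τN x) : N) : G) := rfl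
    rw [h1, h2, hρ, hρ]
    have h3 : ((τN x : N) : G) = τ x := rfl
    rw [h3, map_mul, map_mul, map_inv]
  have hτρk : ∀ k : ℕ, ∀ g : G, τN ^ k * ρ g = ρ ((τ ^ k) g) * τN ^ k := by
    intro k
    induction k with
    | zero => intro g; simp
    | succ k ih =>
      intro g
      rw [pow_succ', pow_succ', mul_assoc, ih, ← mul_assoc, hτρ0, mul_assoc]
      rfl
  -- the group
  let Γ : Subgroup (MulAut N) :=
    { carrier := {γ | ∃ g : G, ∃ k : ℕ, γ = ρ g * τN ^ k}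
      one_mem' := ⟨1, 0, by simp⟩
      mul_mem' := by
        rintro _ _ ⟨g, k, rfl⟩ ⟨h, l, rfl⟩
        refine ⟨g * (τ ^ k) h, k + l, ?_⟩
        rw [map_mul, pow_add]
        calc ρ g * τN ^ k * (ρ h * τN ^ l) = ρ g * (τN ^ k * ρ h) * τN ^ l := by group
          _ = ρ g * (ρ ((τ ^ k) h) * τN ^ k) * τN ^ l := by rw [hτρk]
          _ = ρ g * ρ ((τ ^ k) h) * (τN ^ k * τN ^ l) := by group
      inv_mem' := by
        rintro _ ⟨g, k, rfl⟩
        refine ⟨(τ ^ (k * (m - 1))) g⁻¹, k * (m - 1), ?_⟩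
        have h1 : τN ^ (k * (m - 1)) * τN ^ k = 1 := by
          rw [← pow_add]
          have h2 : k * (m - 1) + k = m * k := by
            calc k * (m - 1) + k = k * (m - 1 + 1) := by ring
              _ = m * k := by rw [hm1, mul_comm]
          rw [h2, pow_mul, hτNm, one_pow]
        rw [← hτρk]
        apply inv_eq_of_mul_eq_one_left
        calc τN ^ (k * (m - 1)) * ρ g⁻¹ * (ρ g * τN ^ k)
            = τN ^ (k * (m - 1)) * (ρ g⁻¹ * ρ g) * τN ^ k := by group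
          _ = 1 := by rw [← map_mul, inv_mul_cancel, map_one, mul_one, h1] }
  have hρΓ : ∀ g, ρ g ∈ Γ := fun g => ⟨g, 0, by simp⟩
  have hτΓ : τN ∈ Γ := ⟨1, 1, by simp⟩
  have hDΓ : D.map ρ ≤ Γ := by
    rintro _ ⟨d, _, rfl⟩
    exact hρΓ d
  have hEΓ : E.map ρ ≤ Γ := by
    rintro _ ⟨e, _, rfl⟩
    exact hρΓ e
  have hEτ : ∀ k : ℕ, ∀ e ∈ E, τN ^ k * ρ e = ρ e * τN ^ k := by
    intro k e he
    rw [hτρk, hmE k e he]
  have hfdΓ : FD ((D.map ρ).subgroupOf Γ) ((E.map ρ).subgroupOf Γ) := by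
    obtain ⟨S, hS, hcov⟩ := hfd
    refine ⟨Set.image2 (fun s (k : ℕ) => (⟨ρ s * τN ^ k, Γ.mul_mem (hρΓ s) (Γ.pow_mem hτΓ k)⟩ : Γ))
      S (Set.Iio m), hS.image2 _ (Set.finite_Iio m), ?_⟩
    rintro ⟨γ, hγ⟩
    obtain ⟨g, k, rfl⟩ := hγ
    obtain ⟨s, hs, d, hd, e, he, rfl⟩ := hcov g
    refine ⟨_, ⟨s, hs, k % m, Nat.mod_lt _ hm0, rfl⟩, ⟨ρ d, hρΓ d⟩, ⟨d, hd, rfl⟩,
      ⟨ρ e, hρΓ e⟩, ⟨e, he, rfl⟩, ?_⟩
    apply Subtype.ext
    change ρ (d * s * e) * τN ^ k = ρ d * (ρ s * τN ^ (k % m)) * ρ e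
    have h1 : τN ^ k = τN ^ (k % m) := by
      conv_lhs => rw [← Nat.div_add_mod k m, pow_add, pow_mul, hτNm, one_pow, one_mul]
    rw [h1, map_mul, map_mul]
    calc ρ d * ρ s * ρ e * τN ^ (k % m) = ρ d * ρ s * (ρ e * τN ^ (k % m)) := by group
      _ = ρ d * ρ s * (τN ^ (k % m) * ρ e) := by rw [hEτ _ e he]
      _ = ρ d * (ρ s * τN ^ (k % m)) * ρ e := by group
  have hsepΓ : Cdeb98.Sep ((D.map ρ).subgroupOf Γ) ((E.map ρ).subgroupOf Γ) := by
    rintro ⟨_, hxΓ⟩ ⟨x, hx, rfl⟩ ⟨_, hyΓ⟩ ⟨y, hy, rfl⟩ hc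
    rw [isConj_iff] at hc
    obtain ⟨⟨γ, hγ⟩, hc⟩ := hc
    have hc1 : γ * ρ x * γ⁻¹ = ρ y := congrArg Subtype.val hc
    apply Subtype.ext
    change ρ x = 1
    obtain ⟨g, k, rfl⟩ := hγ
    have h0 : ρ g * τN ^ k * ρ x * (ρ g * τN ^ k)⁻¹ = ρ (g * (τ ^ k) x * g⁻¹) := by
      calc ρ g * τN ^ k * ρ x * (ρ g * τN ^ k)⁻¹
          = ρ g * (τN ^ k * ρ x) * (τN ^ k)⁻¹ * (ρ g)⁻¹ := by group
        _ = ρ g * (ρ ((τ ^ k) x) * τN ^ k) * (τN ^ k)⁻¹ * (ρ g)⁻¹ := by rw [hτρk]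
        _ = ρ g * ρ ((τ ^ k) x) * (ρ g)⁻¹ := by group
        _ = ρ (g * (τ ^ k) x * g⁻¹) := by rw [map_mul, map_mul, map_inv]
    have h1 : (τ ^ k) x ∈ K := by
      refine hsepK _ (hmD k x hx) y hy g ?_
      rw [← hone, map_mul, map_mul, map_mul, ← hc1, h0]
      simp only [map_mul, map_inv]
      group
    have h2 := hτρk k x
    rw [(hone _).2 h1, one_mul] at h2
    calc ρ x = (τN ^ k)⁻¹ * (τN ^ k * ρ x) := by group
      _ = 1 := by rw [h2]; group
  have hact : ∀ α x : G, (ρ α * τN * ρ α⁻¹) * ρ (α * x * α⁻¹) * (ρ α * τN * ρ α⁻¹)⁻¹ =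
      ρ (α * τ x * α⁻¹) := by
    intro α x
    have h1 := hτρ0 x
    calc (ρ α * τN * ρ α⁻¹) * ρ (α * x * α⁻¹) * (ρ α * τN * ρ α⁻¹)⁻¹
        = ρ α * (τN * ρ x) * τN⁻¹ * (ρ α)⁻¹ := by
          simp only [map_mul, map_inv]; group
      _ = ρ α * (ρ (τ x) * τN) * τN⁻¹ * (ρ α)⁻¹ := by rw [h1]
      _ = ρ (α * τ x * α⁻¹) := by simp only [map_mul, map_inv]; group
  have hinvΓ : InvP m c ((D.map ρ).subgroupOf Γ) ((E.map ρ).subgroupOf Γ) := by
    rintro ⟨γ, hγ⟩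
    obtain ⟨g, k, rfl⟩ := hγ
    obtain ⟨α, hα, β, hβ, rfl⟩ := hAB g
    have him : (ρ α * τN * ρ α⁻¹) ^ m = 1 := by
      rw [map_inv, conj_pow, hτNm]; group
    refine ⟨⟨ρ α * τN * ρ α⁻¹, Γ.mul_mem (Γ.mul_mem (hρΓ _) hτΓ) (hρΓ _)⟩, Subtype.ext him,
      ?_, ?_⟩
    · rintro ⟨_, hdΓ⟩ ⟨d, hd, rfl⟩
      have h1 : α⁻¹ * d * α ∈ D := by
        have h2 : d ∈ conjS α D := by rw [hnD α hα]; exact hd
        exact mem_conjS.1 h2
      have h2 : d = α * (α⁻¹ * d * α) * α⁻¹ := by group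
      have h3 := hact α (α⁻¹ * d * α)
      rw [← h2] at h3
      obtain ⟨h4, h5⟩ := hτD _ h1
      constructor
      · apply mem_zpowers_subtype
        change (ρ α * τN * ρ α⁻¹) * ρ d * (ρ α * τN * ρ α⁻¹)⁻¹ ∈ zpowers (ρ d)
        rw [h3]
        apply map_mem_zpowers
        have h6 := conj_mem_zpowers (a := α) h4
        rwa [← h2] at h6
      · apply mem_zpowers_subtype
        change (ρ d) ^ c ∈ zpowers ((ρ α * τN * ρ α⁻¹) * ρ d * (ρ α * τN * ρ α⁻¹)⁻¹ * (ρ d)⁻¹)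
        rw [h3, ← map_pow, ← map_inv, ← map_mul]
        apply map_mem_zpowers
        have h6 := conj_mem_zpowers (a := α) h5
        rw [← conj_pow, ← h2] at h6
        have h7 : α * (τ (α⁻¹ * d * α) * (α⁻¹ * d * α)⁻¹) * α⁻¹ =
            α * τ (α⁻¹ * d * α) * α⁻¹ * d⁻¹ := by group
        rwa [h7] at h6
    · rintro ⟨e', heΓ⟩ he
      rw [mem_conjS] at he
      obtain ⟨e, heE, hee⟩ := he
      have hee' : ρ e = (ρ (α * β) * τN ^ k)⁻¹ * e' * (ρ (α * β) * τN ^ k) := hee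
      obtain ⟨e2, he2⟩ : ∃ e2 : G, e2 = β * e * β⁻¹ := ⟨_, rfl⟩
      have he2E : e2 ∈ E := by
        have h2 : e2 ∈ conjS β E := by rw [he2]; exact conj_mem_conjS heE
        rwa [hnE β hβ] at h2
      have h1 : e' = ρ (α * e2 * α⁻¹) := by
        calc e' = (ρ (α * β) * τN ^ k) * ((ρ (α * β) * τN ^ k)⁻¹ * e' * (ρ (α * β) * τN ^ k)) *
              (ρ (α * β) * τN ^ k)⁻¹ := by group
          _ = (ρ (α * β) * τN ^ k) * ρ e * (ρ (α * β) * τN ^ k)⁻¹ := by rw [← hee']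
          _ = ρ (α * β) * (τN ^ k * ρ e) * (τN ^ k)⁻¹ * (ρ (α * β))⁻¹ := by group
          _ = ρ (α * β) * (ρ e * τN ^ k) * (τN ^ k)⁻¹ * (ρ (α * β))⁻¹ := by rw [hEτ k e heE]
          _ = ρ (α * e2 * α⁻¹) := by
            rw [he2]; simp only [map_mul, map_inv]; group
      have h3 := hact α e2
      rw [hτE e2 he2E, ← h1] at h3
      apply Subtype.ext
      change (ρ α * τN * ρ α⁻¹) * e' = e' * (ρ α * τN * ρ α⁻¹)
      calc (ρ α * τN * ρ α⁻¹) * e' = (ρ α * τN * ρ α⁻¹) * e' * (ρ α * τN * ρ α⁻¹)⁻¹ *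
            (ρ α * τN * ρ α⁻¹) := by group
        _ = e' * (ρ α * τN * ρ α⁻¹) := by rw [h3]
  obtain ⟨T, hT, hTf⟩ := main_p hm0 hc0 ((hD.map ρ).subgroupOf hDΓ)
    ((hE.map ρ).subgroupOf hEΓ) hfdΓ hsepΓ hinvΓ
  -- `D` and `E` commute
  have hDE : ∀ d ∈ D, ∀ e ∈ E, d * e = e * d := by
    have hDT := ((hD.map ρ).subgroupOf hDΓ).le_of_finiteIndex hTf
    have hET := ((hE.map ρ).subgroupOf hEΓ).le_of_finiteIndex hTf
    intro d hd
    obtain ⟨m, hm, hm1⟩ := hD.tors d hd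
    refine comm_of_mod hE hEN1 hKN (hDN hd) hm
      (fun f _ => by rw [hm1, one_mul, mul_one]) ?_
    intro f hf
    have h1 := hT.comm ⟨ρ d, hρΓ d⟩ (hDT ⟨d, hd, rfl⟩) ⟨ρ f, hρΓ f⟩ (hET ⟨f, hf, rfl⟩)
    have h2 : ρ d * ρ f = ρ f * ρ d := congrArg Subtype.val h1
    rw [← hone, map_mul, map_mul, map_mul, map_inv, map_inv, h2]; group
  have hTor : IsTor (D ⊔ E) := hD.sup hE hDE
  rw [hN] at hNn hNf
  exact ⟨D ⊔ E, hTor, hNn, hNf⟩

end Pool.Agent.CdebT
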