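import Pool.Agent.CdebT.Cover

set_option autoImplicit false

/-!
The inductive step: two tori `D`, `E`, finitely many double cosets `D s E`, no nontrivial element
of `D` conjugate into `E`, `D ⊔ E` of finite index, an involution inverting `D` and `E`, and
centralizers of the elements of `D` outside `C(D ⊔ E)` have a torus of finite index.
Then the group has a torus of finite index.
-/

namespace Pool.Agent.CdebT

open Subgroup

open Pool.Agent.Cdeb98 (conjS mem_conjS conj_mem_conjS conjS_mul conjS_one conjS_mono conjS_sup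
  conjS_finiteIndex dcc_of_le dcc_of_surjective dcc_prod exists_pow_mem_of_relIndex
  exists_pow_mem_of_finiteIndex mem_sup_of_comm FD relIndex_ne_zero_of_map
  le_centralizer_singleton mem_centralizer_singleton)

universe u v

variable {G : Type u} [Group G]

/-- the descending chain argument -/
theorem chain_lemma {D E T : Subgroup G} (hT : IsTor T) (hE : IsTor E) (hDT : D ≤ T)
    (hET : E ≤ T) (hdisj : ∀ x ∈ D, x ∈ E → x = 1) (s : G)
    (hcov : ∀ e ∈ E, ∃ d ∈ D, ∃ v ∈ E, e = d * (s * v * s⁻¹)) :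
    ∀ v ∈ E, s * v * s⁻¹ ∈ T := by
  obtain ⟨V, hV0, hVs⟩ : ∃ V : ℕ → Subgroup G, V 0 = E ∧
      ∀ n, V (n + 1) = E ⊓ (D ⊔ V n).comap (MulAut.conj s).toMonoidHom :=
    ⟨fun n => Nat.rec E (fun _ U => E ⊓ (D ⊔ U).comap (MulAut.conj s).toMonoidHom) n,
      rfl, fun n => rfl⟩
  have hVE : ∀ n, V n ≤ E := by
    intro n
    cases n with
    | zero => rw [hV0]
    | succ n => rw [hVs]; exact inf_le_left
  have hanti : ∀ n, V (n + 1) ≤ V n := by
    intro n
    induction n with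
    | zero => rw [hV0]; exact hVE 1
    | succ n ih =>
      have h1 : D ⊔ V (n + 1) ≤ D ⊔ V n := sup_le_sup le_rfl ih
      exact (hVs (n + 1)).le.trans
        ((inf_le_inf le_rfl (Subgroup.comap_mono h1)).trans (hVs n).ge)
  have hmem : ∀ n x, x ∈ V (n + 1) ↔ x ∈ E ∧ s * x * s⁻¹ ∈ D ⊔ V n := by
    intro n x
    rw [hVs, Subgroup.mem_inf, Subgroup.mem_comap]
    simp only [MulEquiv.toMonoidHom_eq_coe, MonoidHom.coe_coe, MulAut.conj_apply]
  have hcomm : ∀ n, ∀ x ∈ D, ∀ y ∈ V n, x * y = y * x := fun n x hx y hy =>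
    hT.comm x (hDT hx) y (hET (hVE n hy))
  obtain ⟨n, hn⟩ := hE.chain V hVE hanti
  have hdown : ∀ n, V (n + 1) = V n → V 1 = V 0 := by
    intro n
    induction n with
    | zero => exact fun h => h
    | succ n ih =>
      intro h
      apply ih
      apply le_antisymm (hanti n)
      intro e he
      obtain ⟨d, hd, v, hv, hev⟩ := hcov e (hVE n he)
      have h1 : s * v * s⁻¹ = d⁻¹ * e := by rw [hev]; group
      have h2 : v ∈ V (n + 1) := by
        rw [hmem]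
        refine ⟨hv, ?_⟩
        rw [h1]
        exact (D ⊔ V n).mul_mem ((le_sup_left : D ≤ D ⊔ V n) (D.inv_mem hd))
          ((le_sup_right : V n ≤ D ⊔ V n) he)
      rw [← h, hmem] at h2
      obtain ⟨d', hd', e', he', hde⟩ := mem_sup_of_comm (hcomm (n + 1)) h2.2
      have h3 : e * e'⁻¹ = d * d' := by
        have h4 : e = d * d' * e' := by
          rw [mul_assoc, ← hde, h1]; group
        rw [h4]; group
      have h5 : e * e'⁻¹ = 1 := by
        apply hdisj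
        · rw [h3]; exact D.mul_mem hd hd'
        · exact E.mul_mem (hVE n he) (E.inv_mem (hVE (n + 1) he'))
      have h6 : e = e' := mul_inv_eq_one.1 h5
      rw [h6]; exact he'
  have h10 := hdown n hn
  intro v hv
  have h1 : v ∈ V 1 := by rw [h10, hV0]; exact hv
  have h2 := ((hmem 0 v).1 h1).2
  rw [hV0] at h2
  exact (sup_le hDT hET) h2

/-- if the two tori commute, the group has a torus of finite index -/
theorem comm_case {D E : Subgroup G} (hD : IsTor D) (hE : IsTor E) (hfd : FD D E)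
    (hsep : Cdeb98.Sep D E) (hc : ∀ d ∈ D, ∀ e ∈ E, d * e = e * d) :
    ∃ T : Subgroup G, IsTor T ∧ T.FiniteIndex := by
  obtain ⟨T, hTdef⟩ : ∃ T : Subgroup G, T = D ⊔ E := ⟨_, rfl⟩
  have hT : IsTor T := by rw [hTdef]; exact hD.sup hE hc
  have hDT : D ≤ T := by rw [hTdef]; exact le_sup_left
  have hET : E ≤ T := by rw [hTdef]; exact le_sup_right
  have hdisj : ∀ x ∈ D, x ∈ E → x = 1 := fun x hx hxE => hsep x hx x hxE (IsConj.refl x)
  have hall : ∀ s : G, ∀ v ∈ E, s * v * s⁻¹ ∈ T := by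
    intro s
    have hTW : T ≤ D ⊔ (T ⊓ conjS s E) := by
      refine hT.le_of_relIndex le_rfl ?_
      obtain ⟨S, hS, hcov⟩ := hfd
      choose σ hσ d hd e he heq using hcov
      refine relIndex_ne_zero_of_map hS (fun t => σ (t * s)) (fun t _ => hσ _) ?_
      intro a ha b hb hab
      have hab' : σ (a * s) = σ (b * s) := hab
      have h1 := heq (a * s)
      have h2 := heq (b * s)
      rw [← hab'] at h2
      set d1 := d (a * s)
      set d2 := d (b * s)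
      set e1 := e (a * s)
      set e2 := e (b * s)
      set τ := σ (a * s)
      have hd1 : d1 ∈ D := hd _
      have hd2 : d2 ∈ D := hd _
      have he1 : e1 ∈ E := he _
      have he2 : e2 ∈ E := he _
      have hw : s * (e1⁻¹ * e2) * s⁻¹ = a⁻¹ * (d2 * d1⁻¹)⁻¹ * b := by
        have h3 : s * e1⁻¹ = a⁻¹ * d1 * τ := by
          have : a * s * e1⁻¹ = d1 * τ := by rw [h1]; group
          calc s * e1⁻¹ = a⁻¹ * (a * s * e1⁻¹) := by group
            _ = a⁻¹ * d1 * τ := by rw [this]; group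
        have h4 : e2 * s⁻¹ = τ⁻¹ * d2⁻¹ * b := by
          have : b * s * s⁻¹ = d2 * τ * e2 * s⁻¹ := by rw [h2]
          have h5 : b = d2 * τ * (e2 * s⁻¹) := by
            calc b = b * s * s⁻¹ := by group
              _ = d2 * τ * (e2 * s⁻¹) := by rw [this]; group
          rw [h5]; group
        calc s * (e1⁻¹ * e2) * s⁻¹ = (s * e1⁻¹) * (e2 * s⁻¹) := by group
          _ = (a⁻¹ * d1 * τ) * (τ⁻¹ * d2⁻¹ * b) := by rw [h3, h4]
          _ = a⁻¹ * (d2 * d1⁻¹)⁻¹ * b := by group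
      have hdT : d2 * d1⁻¹ ∈ T := T.mul_mem (hDT hd2) (T.inv_mem (hDT hd1))
      have hwT : s * (e1⁻¹ * e2) * s⁻¹ ∈ T ⊓ conjS s E := by
        refine ⟨?_, conj_mem_conjS (E.mul_mem (E.inv_mem he1) he2)⟩
        rw [hw]
        exact T.mul_mem (T.mul_mem (T.inv_mem ha) (T.inv_mem hdT)) hb
      have hfin : a⁻¹ * b = (d2 * d1⁻¹) * (s * (e1⁻¹ * e2) * s⁻¹) := by
        have hc := hT.comm a⁻¹ (T.inv_mem ha) (d2 * d1⁻¹)⁻¹ (T.inv_mem hdT)
        rw [hw, hc]; group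
      rw [hfin]
      exact (D ⊔ (T ⊓ conjS s E)).mul_mem
        ((le_sup_left : D ≤ D ⊔ (T ⊓ conjS s E)) (D.mul_mem hd2 (D.inv_mem hd1)))
        ((le_sup_right : T ⊓ conjS s E ≤ D ⊔ (T ⊓ conjS s E)) hwT)
    have hcov1 : ∀ e ∈ E, ∃ d ∈ D, ∃ v ∈ E, e = d * (s * v * s⁻¹) := by
      intro e he
      obtain ⟨d, hd, w, hw, hdw⟩ := mem_sup_of_comm
        (fun x hx y hy => hT.comm x (hDT hx) y (inf_le_left (a := T) hy)) (hTW (hET he))
      refine ⟨d, hd, s⁻¹ * w * s, mem_conjS.1 hw.2, ?_⟩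
      rw [hdw]; group
    exact chain_lemma hT hE hDT hET hdisj s hcov1
  obtain ⟨s, hs⟩ := hfd.finiteIndex
  refine ⟨T, hT, ?_⟩
  refine Subgroup.finiteIndex_of_le (H := D ⊔ conjS s E) ?_
  refine sup_le hDT ?_
  intro x hx
  rw [mem_conjS] at hx
  have h1 := hall s _ hx
  have h2 : s * (s⁻¹ * x * s) * s⁻¹ = x := by group
  rwa [h2] at h1

/-- products of elements of `D` and `E` have finite order -/
theorem prod_torsion {D E K : Subgroup G} (hD : IsTor D) (hE : IsTor E) (hfd : FD D E)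
    {i : G} (hi : i * i = 1) (hiD : ∀ d ∈ D, i * d * i = d⁻¹)
    (hiE : ∀ e ∈ E, i * e * i = e⁻¹) (hKE : ∀ k ∈ K, ∀ e ∈ E, k * e = e * k)
    (hA : ∀ h x : G, x ∈ conjS h D → x ∉ K → ∃ T : Subgroup G, IsTor T ∧
      T ≤ centralizer {x} ∧ T.relIndex (centralizer {x}) ≠ 0) :
    ∀ d ∈ D, ∀ e ∈ E, ∃ n : ℕ, 0 < n ∧ (d * e) ^ n = 1 := by
  intro d hd e he
  obtain ⟨w, hw⟩ : ∃ w : G, w = d * e := ⟨_, rfl⟩
  obtain ⟨a, ha⟩ : ∃ a : G, a = d * i := ⟨_, rfl⟩
  obtain ⟨b, hb⟩ : ∃ b : G, b = i * e := ⟨_, rfl⟩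
  have haa : a * a = 1 := by
    calc a * a = d * (i * d * i) := by rw [ha]; group
      _ = 1 := by rw [hiD d hd, mul_inv_cancel]
  have hbb : b * b = 1 := by
    calc b * b = (i * e * i) * e := by rw [hb]; group
      _ = 1 := by rw [hiE e he, inv_mul_cancel]
  have hab : a * b = w := by
    calc a * b = d * (i * i) * e := by rw [ha, hb]; group
      _ = w := by rw [hi, hw, mul_one]
  have hai : a⁻¹ = a := inv_eq_of_mul_eq_one_left haa
  have hbi : b⁻¹ = b := inv_eq_of_mul_eq_one_left hbb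
  have haD : ∀ y ∈ D, a * y * a = y⁻¹ := by
    intro y hy
    calc a * y * a = d * (i * (y * d) * i) := by rw [ha]; group
      _ = d * (y * d)⁻¹ := by rw [hiD _ (D.mul_mem hy hd)]
      _ = y⁻¹ := by group
  have hbE : ∀ y ∈ E, b * y * b = y⁻¹ := by
    intro y hy
    calc b * y * b = (i * (e * y) * i) * e := by rw [hb]; group
      _ = (e * y)⁻¹ * e := by rw [hiE _ (E.mul_mem he hy)]
      _ = y⁻¹ := by group
  have hwa : ∀ m : ℕ, a * w ^ m * a = (w ^ m)⁻¹ := by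
    intro m
    have h1 : a * w * a = w⁻¹ := by
      calc a * w * a = (a * a) * b * a := by rw [← hab]; group
        _ = b * a := by rw [haa, one_mul]
        _ = (a * b)⁻¹ := by rw [mul_inv_rev, hai, hbi]
        _ = w⁻¹ := by rw [hab]
    have h2 : a * w ^ m * a = (a * w * a⁻¹) ^ m := by rw [conj_pow, hai]
    rw [h2, hai, h1, inv_pow]
  have hwb : ∀ m : ℕ, b * w ^ m * b = (w ^ m)⁻¹ := by
    intro m
    have h1 : b * w * b = w⁻¹ := by
      calc b * w * b = b * a * (b * b) := by rw [← hab]; group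
        _ = b * a := by rw [hbb, mul_one]
        _ = (a * b)⁻¹ := by rw [mul_inv_rev, hai, hbi]
        _ = w⁻¹ := by rw [hab]
    have h2 : b * w ^ m * b = (b * w * b⁻¹) ^ m := by rw [conj_pow, hbi]
    rw [h2, hbi, h1, inv_pow]
  -- pigeonhole
  obtain ⟨S, hS, hcov⟩ := hfd
  choose σ hσ δ hδ ε hε heq using hcov
  obtain ⟨l0, l, hl0, hll, hsame⟩ : ∃ l0 l : ℕ, 0 < l0 ∧ l0 < l ∧ σ (w ^ l0) = σ (w ^ l) := by
    have : Finite S := hS
    obtain ⟨m, n, hmn, hf⟩ := Finite.exists_ne_map_eq_of_infinite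
      (fun n : ℕ => (⟨σ (w ^ (n + 1)), hσ _⟩ : S))
    have hf' : σ (w ^ (m + 1)) = σ (w ^ (n + 1)) := congrArg Subtype.val hf
    rcases Nat.lt_or_gt_of_ne hmn with h | h
    · exact ⟨m + 1, n + 1, Nat.succ_pos _, by omega, hf'⟩
    · exact ⟨n + 1, m + 1, Nat.succ_pos _, by omega, hf'.symm⟩
  have h1 := heq (w ^ l0)
  have h2 := heq (w ^ l)
  rw [← hsame] at h2
  obtain ⟨δ', hδ'⟩ : ∃ y : G, y = δ (w ^ l) * (δ (w ^ l0))⁻¹ := ⟨_, rfl⟩
  obtain ⟨y, hy⟩ : ∃ y : G, y = (ε (w ^ l0))⁻¹ * ε (w ^ l) := ⟨_, rfl⟩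
  have hδD : δ' ∈ D := by rw [hδ']; exact D.mul_mem (hδ _) (D.inv_mem (hδ _))
  have hyE : y ∈ E := by rw [hy]; exact E.mul_mem (E.inv_mem (hε _)) (hε _)
  have hwl : w ^ l = δ' * w ^ l0 * y := by
    rw [hδ', hy]
    calc w ^ l = δ (w ^ l) * σ (w ^ l0) * ε (w ^ l) := h2
      _ = δ (w ^ l) * (δ (w ^ l0))⁻¹ * (δ (w ^ l0) * σ (w ^ l0) * ε (w ^ l0)) *
          ((ε (w ^ l0))⁻¹ * ε (w ^ l)) := by group
      _ = δ (w ^ l) * (δ (w ^ l0))⁻¹ * w ^ l0 * ((ε (w ^ l0))⁻¹ * ε (w ^ l)) := by rw [← h1]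
  obtain ⟨h, hh⟩ : ∃ h : G, h = w ^ l0 := ⟨_, rfl⟩
  obtain ⟨x, hx⟩ : ∃ x : G, x = h⁻¹ * δ' * h := ⟨_, rfl⟩
  have hxD : x ∈ conjS h⁻¹ D := by
    have := conj_mem_conjS (g := h⁻¹) hδD
    rwa [inv_inv, ← hx] at this
  obtain ⟨n, hn⟩ : ∃ n : ℕ, l = l0 + n := ⟨l - l0, by omega⟩
  have hn0 : 0 < n := by omega
  have hxy : w ^ n = x * y := by
    have h3 : w ^ l = h * w ^ n := by rw [hn, pow_add, hh]
    have h4 : w ^ n = h⁻¹ * (δ' * w ^ l0 * y) := by
      rw [← hwl, h3]; group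
    rw [h4, hx, hh]; group
  rw [← hw]
  by_cases hxK : x ∈ K
  · have hc : Commute x y := hKE x hxK y hyE
    obtain ⟨k1, hk1, hk1'⟩ := (hD.conj h⁻¹).tors x hxD
    obtain ⟨k2, hk2, hk2'⟩ := hE.tors y hyE
    refine ⟨n * (k1 * k2), Nat.mul_pos hn0 (Nat.mul_pos hk1 hk2), ?_⟩
    rw [pow_mul, hxy, hc.mul_pow, pow_mul, hk1', one_pow, one_mul, mul_comm, pow_mul, hk2',
      one_pow]
  · obtain ⟨T, hT, _, hTi⟩ := hA _ x hxD hxK
    obtain ⟨m, hm, hm'⟩ := exists_pow_mem_of_relIndex hTi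
    -- `w ^ (l0 + l - 1)` commutes with `x`
    obtain ⟨k, hk⟩ : ∃ k : ℕ, l0 + l = k + 1 := ⟨l0 + l - 1, by omega⟩
    have hk0 : 0 < k := by omega
    have hwk : w ^ k * x = x * w ^ k := by
      obtain ⟨p, hp⟩ : ∃ p : G, p = h⁻¹ * a * h := ⟨_, rfl⟩
      obtain ⟨q, hq⟩ : ∃ q : G, q = w ^ n * b := ⟨_, rfl⟩
      have hpx : p * x * p⁻¹ = x⁻¹ := by
        calc p * x * p⁻¹ = h⁻¹ * (a * δ' * a⁻¹) * h := by rw [hp, hx]; group
          _ = h⁻¹ * (a * δ' * a) * h := by rw [hai]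
          _ = x⁻¹ := by rw [haD _ hδD, hx]; group
      have hqx : q * x * q⁻¹ = x⁻¹ := by
        have h5 : w ^ n * b * w ^ n = b := by
          have h6 := hwb n
          calc w ^ n * b * w ^ n = w ^ n * (b * w ^ n * b) * b⁻¹ := by group
            _ = b := by rw [h6, hbi]; group
        have h7 : x = w ^ n * y⁻¹ := by rw [hxy]; group
        calc q * x * q⁻¹ = (w ^ n * b * w ^ n) * y⁻¹ * b⁻¹ * (w ^ n)⁻¹ := by
              rw [hq, h7]; group
          _ = (b * y⁻¹ * b) * (w ^ n)⁻¹ := by rw [h5, hbi]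
          _ = y * (w ^ n)⁻¹ := by rw [hbE _ (E.inv_mem hyE), inv_inv]
          _ = x⁻¹ := by rw [h7]; group
      have hpq : p * q = (w ^ k)⁻¹ := by
        have h8 : a * w ^ l * a = (w ^ l)⁻¹ := hwa l
        have h9 : a * w ^ l = (w ^ l)⁻¹ * a := by
          calc a * w ^ l = (a * w ^ l * a) * a⁻¹ := by group
            _ = (w ^ l)⁻¹ * a := by rw [h8, hai]
        calc p * q = (w ^ l0)⁻¹ * (a * w ^ l) * b := by
              rw [hp, hq, hh, hn, pow_add]; group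
          _ = (w ^ l0)⁻¹ * (w ^ l)⁻¹ * (a * b) := by rw [h9]; group
          _ = (w ^ (l0 + l))⁻¹ * w := by
              rw [hab, ← mul_inv_rev, ← pow_add, add_comm]
          _ = (w ^ k)⁻¹ := by rw [hk, pow_succ']; group
      have h10 : (p * q) * x * (p * q)⁻¹ = x := by
        calc (p * q) * x * (p * q)⁻¹ = p * (q * x * q⁻¹) * p⁻¹ := by group
          _ = (p * x * p⁻¹)⁻¹ := by rw [hqx]; group
          _ = x := by rw [hpx, inv_inv]
      rw [hpq, inv_inv] at h10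
      calc w ^ k * x = w ^ k * ((w ^ k)⁻¹ * x * w ^ k) := by rw [h10]
        _ = x * w ^ k := by group
    have h11 := hm' _ (mem_centralizer_singleton.2 hwk)
    obtain ⟨t, ht, ht'⟩ := hT.tors _ h11
    refine ⟨k * (m * t), Nat.mul_pos hk0 (Nat.mul_pos hm ht), ?_⟩
    rw [pow_mul, pow_mul, ht']

end Pool.Agent.CdebT
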