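import Pool.Agent.CdebT.Step

set_option autoImplicit false

/-!
The inductive step, second part: passing to the quotient by the centralizer of the finite
residual and the covering argument.
-/

namespace Pool.Agent.CdebT

open Subgroup

open Pool.Agent.Cdeb98 (conjS mem_conjS conj_mem_conjS conjS_mul conjS_one conjS_mono conjS_sup
  conjS_finiteIndex dcc_of_le dcc_of_surjective dcc_prod exists_pow_mem_of_relIndex
  exists_pow_mem_of_finiteIndex mem_sup_of_comm FD relIndex_ne_zero_of_map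
  le_centralizer_singleton mem_centralizer_singleton)

universe u v

variable {G : Type u} [Group G]

/-- an element of `N` of finite order modulo the centralizer of a torus `E ≤ N` which commutes
with `E` modulo `K = C(N)` commutes with `E` -/
theorem comm_of_mod {N K E : Subgroup G} (hE : IsTor E) (hEN : E ≤ N)
    (hKN : ∀ k ∈ K, ∀ u ∈ N, u * k = k * u) {z : G} (hz : z ∈ N) {m : ℕ} (hm : 0 < m)
    (hzm : ∀ f ∈ E, z ^ m * f = f * z ^ m) (hmod : ∀ f ∈ E, z * f * z⁻¹ * f⁻¹ ∈ K) :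
    ∀ e ∈ E, z * e = e * z := by
  intro e he
  obtain ⟨f, hf, hfe⟩ := hE.div m hm e he
  obtain ⟨c, hc⟩ : ∃ c : G, c = z * f * z⁻¹ * f⁻¹ := ⟨_, rfl⟩
  have hcK : c ∈ K := by rw [hc]; exact hmod f hf
  have hzc := hKN c hcK z hz
  have hfc := hKN c hcK f (hEN hf)
  have hzf : z * f * z⁻¹ = c * f := by rw [hc]; group
  have h1 : ∀ n : ℕ, z ^ n * f * (z ^ n)⁻¹ = c ^ n * f := by
    intro n
    induction n with
    | zero => simp
    | succ n ih =>
      have h2 : z * c ^ n = c ^ n * z := (show Commute z c from hzc).pow_right n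
      calc z ^ (n + 1) * f * (z ^ (n + 1))⁻¹ = z * (z ^ n * f * (z ^ n)⁻¹) * z⁻¹ := by
            rw [pow_succ']; group
        _ = (z * c ^ n) * f * z⁻¹ := by rw [ih]; group
        _ = c ^ n * (z * f * z⁻¹) := by rw [h2]; group
        _ = c ^ (n + 1) * f := by rw [hzf, pow_succ]; group
  have hc1 : c ^ m = 1 := by
    have h2 := h1 m
    have h3 : z ^ m * f * (z ^ m)⁻¹ = f := by rw [hzm f hf]; group
    rw [h3] at h2
    exact (mul_eq_right.1 h2.symm)
  have h4 : z * e * z⁻¹ = e := by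
    rw [← hfe]
    calc z * f ^ m * z⁻¹ = (z * f * z⁻¹) ^ m := by rw [conj_pow]
      _ = (c * f) ^ m := by rw [hzf]
      _ = c ^ m * f ^ m := (show Commute c f from hfc.symm).mul_pow _
      _ = f ^ m := by rw [hc1, one_mul]
  calc z * e = (z * e * z⁻¹) * z := by group
    _ = e * z := by rw [h4]

/-- the centralizer of the involution is finite modulo `K` -/
theorem centralizer_finite {D E K : Subgroup G} (hD : IsTor D) (hE : IsTor E) (hfd : FD D E)
    {i : G} (hi : i * i = 1) (hiD : ∀ d ∈ D, i * d * i = d⁻¹)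
    (hiE : ∀ e ∈ E, i * e * i = e⁻¹) (hKn : K.Normal) (hKE : ∀ k ∈ K, ∀ e ∈ E, k * e = e * k)
    (hF4 : ∀ h t : G, t ∈ conjS h D → (∀ e ∈ E, t * e = e * t) → t ∈ K)
    {Q : Type v} [Group Q] (π : G →* Q) (hsurj : Function.Surjective π)
    (hone : ∀ x, π x = 1 ↔ x ∈ K) : {c : Q | c * π i = π i * c}.Finite := by
  classical
  have hii : i⁻¹ = i := inv_eq_of_mul_eq_one_left hi
  obtain ⟨S, hS, hcov⟩ := hfd
  choose σ hσ δ hδ ε hε heq using hcov
  -- the key relation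
  have key : ∀ c : G, π c * π i = π i * π c → ∃ k ∈ K,
      (σ c)⁻¹ * (i * δ c * δ c) * σ c = ε c * ε c * i * k := by
    intro c hc
    obtain ⟨k, hk⟩ : ∃ k : G, k = i⁻¹ * c⁻¹ * i * c := ⟨_, rfl⟩
    have hkK : k ∈ K := by
      rw [← hone, hk]
      simp only [map_mul, map_inv]
      calc (π i)⁻¹ * (π c)⁻¹ * π i * π c = (π i)⁻¹ * (π c)⁻¹ * (π i * π c) := by group
        _ = (π i)⁻¹ * (π c)⁻¹ * (π c * π i) := by rw [hc]
        _ = 1 := by group
    refine ⟨k, hkK, ?_⟩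
    have h1 : c⁻¹ * i * c = i * k := by rw [hk]; group
    have h2 : (δ c)⁻¹ * i * δ c = i * δ c * δ c := by
      have h3 : (δ c)⁻¹ * i = i * δ c := by
        rw [← hiD _ (hδ c), mul_assoc, hi, mul_one]
      rw [h3]
    have h4 : i * (ε c)⁻¹ = ε c * i := by
      have h5 := hiE _ (E.inv_mem (hε c))
      rw [inv_inv] at h5
      nth_rewrite 2 [← h5]
      rw [mul_assoc, hi, mul_one]
    have h6 : k * (ε c)⁻¹ = (ε c)⁻¹ * k := hKE k hkK _ (E.inv_mem (hε c))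
    calc (σ c)⁻¹ * (i * δ c * δ c) * σ c = (σ c)⁻¹ * ((δ c)⁻¹ * i * δ c) * σ c := by rw [h2]
      _ = ε c * ((δ c * σ c * ε c)⁻¹ * i * (δ c * σ c * ε c)) * (ε c)⁻¹ := by group
      _ = ε c * (c⁻¹ * i * c) * (ε c)⁻¹ := by rw [← heq c]
      _ = ε c * i * (k * (ε c)⁻¹) := by rw [h1]; group
      _ = ε c * (i * (ε c)⁻¹) * k := by rw [h6]; group
      _ = ε c * ε c * i * k := by rw [h4]; group
  let rep : G → G := fun s => if h : ∃ c : G, (π c * π i = π i * π c) ∧ σ c = s then h.choose else 1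
  have hrep : ∀ c : G, π c * π i = π i * π c →
      (π (rep (σ c)) * π i = π i * π (rep (σ c))) ∧ σ (rep (σ c)) = σ c := by
    intro c hc
    have hex : ∃ c' : G, (π c' * π i = π i * π c') ∧ σ c' = σ c := ⟨c, hc, rfl⟩
    have h1 : rep (σ c) = hex.choose := dif_pos hex
    rw [h1]
    exact hex.choose_spec
  have hfin := (hS.prod ((hD.map π).two_finite.prod (hE.map π).two_finite)).image
    (fun q : G × Q × Q => π (δ (rep q.1)) * q.2.1 * π q.1 * q.2.2 * π (ε (rep q.1)))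
  refine hfin.subset ?_
  intro q hq
  obtain ⟨c, rfl⟩ := hsurj q
  have hc : π c * π i = π i * π c := hq
  obtain ⟨hc0, hs0⟩ := hrep c hc
  obtain ⟨c0, hc0def⟩ : ∃ c0 : G, c0 = rep (σ c) := ⟨_, rfl⟩
  rw [← hc0def] at hc0 hs0
  obtain ⟨k, hkK, hk⟩ := key c hc
  obtain ⟨k0, hk0K, hk0⟩ := key c0 hc0
  rw [hs0] at hk0
  obtain ⟨t, ht⟩ : ∃ t : G, t = (σ c)⁻¹ * ((δ c0)⁻¹ * (δ c0)⁻¹ * δ c * δ c) * σ c := ⟨_, rfl⟩
  obtain ⟨η0, hη0⟩ : ∃ η0 : G, η0 = ((ε c0)⁻¹ * (ε c0)⁻¹ * ε c * ε c)⁻¹ := ⟨_, rfl⟩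
  have hη0E : η0 ∈ E := by
    rw [hη0]
    exact E.inv_mem (E.mul_mem (E.mul_mem (E.mul_mem (E.inv_mem (hε _)) (E.inv_mem (hε _)))
      (hε _)) (hε _))
  have hδδ : (δ c0)⁻¹ * (δ c0)⁻¹ * δ c * δ c ∈ D :=
    D.mul_mem (D.mul_mem (D.mul_mem (D.inv_mem (hδ _)) (D.inv_mem (hδ _))) (hδ _)) (hδ _)
  have htD : t ∈ conjS (σ c)⁻¹ D := by
    have := conj_mem_conjS (g := (σ c)⁻¹) hδδ
    rwa [inv_inv, ← ht] at this
  have htk : t = k0⁻¹ * η0 * k := by
    have h1 : t = ((σ c)⁻¹ * (i * δ c0 * δ c0) * σ c)⁻¹ * ((σ c)⁻¹ * (i * δ c * δ c) * σ c) := by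
      rw [ht]; group
    rw [h1, hk0, hk]
    have h2 : i * ((ε c0)⁻¹ * (ε c0)⁻¹ * ε c * ε c) * i = η0 := by
      rw [hη0]
      exact hiE _ (E.mul_mem (E.mul_mem (E.mul_mem (E.inv_mem (hε _)) (E.inv_mem (hε _)))
        (hε _)) (hε _))
    calc (ε c0 * ε c0 * i * k0)⁻¹ * (ε c * ε c * i * k)
        = k0⁻¹ * (i⁻¹ * ((ε c0)⁻¹ * (ε c0)⁻¹ * ε c * ε c) * i) * k := by group
      _ = k0⁻¹ * η0 * k := by rw [hii, h2]
  have htK : t ∈ K := by
    refine hF4 _ t htD ?_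
    intro e he
    have h1 : Commute k0 e := hKE k0 hk0K e he
    have h2 : Commute k e := hKE k hkK e he
    have h3 : Commute η0 e := hE.comm _ hη0E e he
    rw [htk]
    exact (h1.inv_left.mul_left h3).mul_left h2
  have hδK : (δ c0)⁻¹ * (δ c0)⁻¹ * δ c * δ c ∈ K := by
    have h1 := hKn.conj_mem _ htK (σ c)
    have h2 : σ c * t * (σ c)⁻¹ = (δ c0)⁻¹ * (δ c0)⁻¹ * δ c * δ c := by rw [ht]; group
    rwa [h2] at h1
  have hηK : η0 ∈ K := by
    have h1 : η0 = k0 * t * k⁻¹ := by rw [htk]; group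
    rw [h1]
    exact K.mul_mem (K.mul_mem hk0K htK) (K.inv_mem hkK)
  refine ⟨(σ c, π ((δ c0)⁻¹ * δ c), π (ε c * (ε c0)⁻¹)), ⟨hσ c, ?_, ?_⟩, ?_⟩
  · refine ⟨⟨_, D.mul_mem (D.inv_mem (hδ _)) (hδ _), rfl⟩, ?_⟩
    change (π ((δ c0)⁻¹ * δ c)) ^ 2 = 1
    rw [← map_pow, hone]
    have h1 : ((δ c0)⁻¹ * δ c) ^ 2 = (δ c0)⁻¹ * (δ c0)⁻¹ * δ c * δ c := by
      have h2 := hD.comm (δ c) (hδ c) (δ c0)⁻¹ (D.inv_mem (hδ c0))
      calc ((δ c0)⁻¹ * δ c) ^ 2 = (δ c0)⁻¹ * (δ c * (δ c0)⁻¹) * δ c := by rw [pow_two]; group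
        _ = (δ c0)⁻¹ * (δ c0)⁻¹ * δ c * δ c := by rw [h2]; group
    rw [h1]; exact hδK
  · refine ⟨⟨_, E.mul_mem (hε _) (E.inv_mem (hε _)), rfl⟩, ?_⟩
    change (π (ε c * (ε c0)⁻¹)) ^ 2 = 1
    rw [← map_pow, hone]
    have h1 : (ε c * (ε c0)⁻¹) ^ 2 = η0⁻¹ := by
      have h2 := hE.comm (ε c) (hε c) (ε c0)⁻¹ (E.inv_mem (hε c0))
      calc (ε c * (ε c0)⁻¹) ^ 2 = (ε c * (ε c0)⁻¹) * (ε c * (ε c0)⁻¹) := by rw [pow_two]
        _ = ((ε c0)⁻¹ * ε c) * ((ε c0)⁻¹ * ε c) := by rw [h2]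
        _ = (ε c0)⁻¹ * (ε c * (ε c0)⁻¹) * ε c := by group
        _ = (ε c0)⁻¹ * ((ε c0)⁻¹ * ε c) * ε c := by rw [h2]
        _ = η0⁻¹ := by rw [hη0, inv_inv]; group
    rw [h1]; exact K.inv_mem hηK
  · change π (δ (rep (σ c))) * π ((δ c0)⁻¹ * δ c) * π (σ c) * π (ε c * (ε c0)⁻¹) *
      π (ε (rep (σ c))) = π c
    rw [← hc0def, ← map_mul, ← map_mul, ← map_mul, ← map_mul]
    congr 1
    calc δ c0 * ((δ c0)⁻¹ * δ c) * σ c * (ε c * (ε c0)⁻¹) * ε c0 = δ c * σ c * ε c := by group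
      _ = c := (heq c).symm

/-- the inductive step -/
theorem step {D E : Subgroup G} (hD : IsTor D) (hE : IsTor E) (hfd : FD D E)
    (hsep : Cdeb98.Sep D E) {i : G} (hi : i * i = 1) (hiD : ∀ d ∈ D, i * d * i = d⁻¹)
    (hiE : ∀ e ∈ E, i * e * i = e⁻¹) (hNf : (D ⊔ E).FiniteIndex)
    (hA : ∀ x ∈ D, x ∉ centralizer ((D ⊔ E : Subgroup G) : Set G) → ∃ T : Subgroup G, IsTor T ∧
      T ≤ centralizer {x} ∧ T.relIndex (centralizer {x}) ≠ 0) :
    ∃ T : Subgroup G, IsTor T ∧ T.FiniteIndex := by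
  by_contra hgoal
  obtain ⟨N, hN⟩ : ∃ N : Subgroup G, N = D ⊔ E := ⟨_, rfl⟩
  rw [← hN] at hNf hA
  obtain ⟨K, hKc⟩ : ∃ K : Subgroup G, K = centralizer (N : Set G) := ⟨_, rfl⟩
  rw [← hKc] at hA
  have hDN : D ≤ N := by rw [hN]; exact le_sup_left
  have hEN : E ≤ N := by rw [hN]; exact le_sup_right
  have hNn : N.Normal := by
    constructor
    intro n hn g
    have h1 : (conjS g⁻¹ N).FiniteIndex := conjS_finiteIndex _ _ hNf
    have h2 : N ≤ conjS g⁻¹ N := by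
      nth_rewrite 1 [hN]
      exact sup_le (hD.le_of_finiteIndex h1) (hE.le_of_finiteIndex h1)
    have h3 := h2 hn
    rw [mem_conjS, inv_inv] at h3
    exact h3
  have hKn : K.Normal := by rw [hKc]; infer_instance
  have hKN : ∀ k ∈ K, ∀ u ∈ N, u * k = k * u := by
    intro k hk u hu
    rw [hKc] at hk
    exact (Subgroup.mem_centralizer_iff.1 hk) u hu
  have hKE : ∀ k ∈ K, ∀ e ∈ E, k * e = e * k := fun k hk e he => (hKN k hk e (hEN he)).symm
  have hKmem : ∀ x : G, (∀ d ∈ D, x * d = d * x) → (∀ e ∈ E, x * e = e * x) → x ∈ K := by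
    intro x h1 h2
    have h3 : N ≤ centralizer {x} := by
      rw [hN]
      exact sup_le (le_centralizer_singleton (fun d hd => (h1 d hd).symm))
        (le_centralizer_singleton (fun e he => (h2 e he).symm))
    rw [hKc, Subgroup.mem_centralizer_iff]
    intro u hu
    exact mem_centralizer_singleton.1 (h3 hu)
  -- centralizers of elements of conjugates of `D`
  have hA' : ∀ h x : G, x ∈ conjS h D → x ∉ K → ∃ T : Subgroup G, IsTor T ∧
      T ≤ centralizer {x} ∧ T.relIndex (centralizer {x}) ≠ 0 := by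
    intro h x hx hxK
    rw [mem_conjS] at hx
    have hxK' : h⁻¹ * x * h ∉ K := by
      intro h1
      apply hxK
      have h2 := hKn.conj_mem _ h1 h
      have h3 : h * (h⁻¹ * x * h) * h⁻¹ = x := by group
      rwa [h3] at h2
    obtain ⟨T, hT, hT1, hT2⟩ := hA _ hx hxK'
    have hcc : conjS h (centralizer {h⁻¹ * x * h}) = centralizer {x} := by
      ext y
      rw [mem_conjS, mem_centralizer_singleton, mem_centralizer_singleton]
      constructor
      · intro h1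
        calc y * x = h * ((h⁻¹ * y * h) * (h⁻¹ * x * h)) * h⁻¹ := by group
          _ = h * ((h⁻¹ * x * h) * (h⁻¹ * y * h)) * h⁻¹ := by rw [h1]
          _ = x * y := by group
      · intro h1
        calc h⁻¹ * y * h * (h⁻¹ * x * h) = h⁻¹ * (y * x) * h := by group
          _ = h⁻¹ * (x * y) * h := by rw [h1]
          _ = h⁻¹ * x * h * (h⁻¹ * y * h) := by group
    refine ⟨conjS h T, hT.conj h, ?_, ?_⟩
    · rw [← hcc]; exact conjS_mono hT1
    · rw [← hcc]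
      have h4 : (conjS h T).relIndex (conjS h (centralizer {h⁻¹ * x * h})) =
          T.relIndex (centralizer {h⁻¹ * x * h}) := by
        unfold conjS
        exact Subgroup.relIndex_map_map_of_injective _ _ (MulEquiv.injective _)
      rw [h4]; exact hT2
  -- elements of conjugates of `D` commuting with `E`
  have hF4 : ∀ h t : G, t ∈ conjS h D → (∀ e ∈ E, t * e = e * t) → t ∈ K := by
    intro h t ht htE
    by_contra htK
    obtain ⟨T, hT, _, hTi⟩ := hA' h t ht htK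
    have h1 : conjS h D ≤ T := (hD.conj h).le_of_relIndex
      (le_centralizer_singleton (fun d hd => (hD.conj h).comm d hd t ht)) hTi
    have h2 : E ≤ T := hE.le_of_relIndex
      (le_centralizer_singleton (fun e he => (htE e he).symm)) hTi
    apply hgoal
    have hfd' : FD (conjS h D) E := (hfd.symm.conj_right h).symm
    exact comm_case (hD.conj h) hE hfd' (hsep.conj_left h)
      (fun d hd e he => hT.comm d (h1 hd) e (h2 he))
  -- `D` is not contained in `K`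
  have hDK : ∃ d ∈ D, d ∉ K := by
    by_contra hcon
    push Not at hcon
    apply hgoal
    refine ⟨N, ?_, hNf⟩
    rw [hN]
    exact hD.sup hE (fun d hd e he => hKE d (hcon d hd) e he)
  have htor := prod_torsion hD hE hfd hi hiD hiE hKE hA'
  -- the quotient
  obtain ⟨π, hπ⟩ : ∃ π : G →* G ⧸ K, π = QuotientGroup.mk' K := ⟨_, rfl⟩
  have hsurj : Function.Surjective π := by rw [hπ]; exact QuotientGroup.mk'_surjective K
  have hone : ∀ x, π x = 1 ↔ x ∈ K := by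
    intro x; rw [hπ]; exact QuotientGroup.eq_one_iff x
  have hfin := centralizer_finite hD hE hfd hi hiD hiE hKn hKE hF4 π hsurj hone
  -- commuting modulo `K`
  have hmod : ∀ z f : G, π z * π f = π f * π z → z * f * z⁻¹ * f⁻¹ ∈ K := by
    intro z f h1
    rw [← hone]
    simp only [map_mul, map_inv]
    rw [h1]; group
  refine cover_contradiction (hD.map π) (hE.map π) (i := π i) ?_ ?_ ?_ ?_ hfin ?_ ?_ ?_
  · obtain ⟨d, hd, hdK⟩ := hDK
    exact ⟨π d, ⟨d, hd, rfl⟩, fun h => hdK ((hone d).1 h)⟩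
  · rw [← map_mul, hi, map_one]
  · rintro _ ⟨d, hd, rfl⟩
    rw [← map_mul, ← map_mul, hiD d hd, map_inv]
  · rintro _ ⟨e, he, rfl⟩
    rw [← map_mul, ← map_mul, hiE e he, map_inv]
  · rintro _ ⟨d, hd, rfl⟩ _ ⟨e, he, rfl⟩
    obtain ⟨n, hn, hn1⟩ := htor d hd e he
    exact ⟨n, hn, by rw [← map_mul, ← map_pow, hn1, map_one]⟩
  · rintro _ ⟨d, hd, rfl⟩ hcomm
    rw [hone]
    obtain ⟨m, hm, hm1⟩ := hD.tors d hd
    have h1 : ∀ e ∈ E, d * e = e * d := comm_of_mod hE hEN hKN (hDN hd) hm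
      (fun f _ => by rw [hm1, one_mul, mul_one])
      (fun f hf => hmod d f (hcomm _ ⟨f, hf, rfl⟩))
    refine hF4 1 d ?_ h1
    rw [conjS_one]; exact hd
  · intro z hz hzz hzD hzE
    rw [← Subgroup.map_sup, ← hN] at hz
    obtain ⟨z, hzN, rfl⟩ := hz
    have hz2 : z ^ 2 ∈ K := by rw [← hone, map_pow, pow_two, hzz]
    rw [hone]
    refine hKmem z ?_ ?_
    · exact comm_of_mod hD hDN hKN hzN (m := 2) (by norm_num)
        (fun f hf => (hKN _ hz2 f (hDN hf)).symm)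
        (fun f hf => hmod z f (hzD _ ⟨f, hf, rfl⟩))
    · exact comm_of_mod hE hEN hKN hzN (m := 2) (by norm_num)
        (fun f hf => (hKN _ hz2 f (hEN hf)).symm)
        (fun f hf => hmod z f (hzE _ ⟨f, hf, rfl⟩))

end Pool.Agent.CdebT
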