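import Pool.Agent.CdebT.StepPlus

set_option autoImplicit false

/-!
The inductive step in the case where elements of finite order act on `D` by nontrivial power
automorphisms and centralize the conjugates of `E`: a counting argument.
-/

namespace Pool.Agent.CdebT

open Subgroup

open scoped Pointwise

open Pool.Agent.Cdeb98 (conjS mem_conjS conj_mem_conjS conjS_mul conjS_one conjS_mono conjS_sup
  conjS_finiteIndex dcc_of_le dcc_of_surjective dcc_prod exists_pow_mem_of_relIndex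
  exists_pow_mem_of_finiteIndex mem_sup_of_comm FD relIndex_ne_zero_of_map
  le_centralizer_singleton mem_centralizer_singleton exists_left_transversal)

universe u v

variable {G : Type u} [Group G]

/-- for every conjugate of `E` some element of exponent `m` centralizes it and acts on `D` by a
power automorphism without large fixed subgroups -/
def InvP (m c : ℕ) (D E : Subgroup G) : Prop :=
  ∀ g : G, ∃ i : G, i ^ m = 1 ∧
    (∀ d ∈ D, i * d * i⁻¹ ∈ zpowers d ∧ d ^ c ∈ zpowers (i * d * i⁻¹ * d⁻¹)) ∧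
    ∀ e ∈ conjS g E, i * e = e * i

theorem zpow_mem_of_conj {g x y : G} (h : g * x * g⁻¹ ∈ zpowers y) (k : ℤ) :
    g * x ^ k * g⁻¹ ∈ zpowers y := by
  rw [← conj_zpow]
  exact (zpowers y).zpow_mem h k

/-- the normalizer of the cyclic group generated by `x` -/
def pmz (x : G) : Subgroup G where
  carrier := {g | g * x * g⁻¹ ∈ zpowers x ∧ g⁻¹ * x * g ∈ zpowers x}
  one_mem' := by
    constructor <;> simp
  mul_mem' := by
    rintro a b ⟨ha1, ha2⟩ ⟨hb1, hb2⟩
    constructor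
    · obtain ⟨k, hk⟩ := hb1
      have hk' : x ^ k = b * x * b⁻¹ := hk
      have h1 : a * b * x * (a * b)⁻¹ = a * x ^ k * a⁻¹ := by rw [hk']; group
      rw [h1]
      exact zpow_mem_of_conj ha1 k
    · obtain ⟨k, hk⟩ := ha2
      have hk' : x ^ k = a⁻¹ * x * a := hk
      have h1 : (a * b)⁻¹ * x * (a * b) = b⁻¹ * x ^ k * b⁻¹⁻¹ := by rw [hk']; group
      rw [h1]
      refine zpow_mem_of_conj ?_ k
      rwa [inv_inv]
  inv_mem' := by
    rintro a ⟨ha1, ha2⟩
    exact ⟨by rwa [inv_inv], by rwa [inv_inv]⟩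

theorem mem_pmz {x g : G} :
    g ∈ pmz x ↔ g * x * g⁻¹ ∈ zpowers x ∧ g⁻¹ * x * g ∈ zpowers x := Iff.rfl

theorem centralizer_le_pmz (x : G) : centralizer {x} ≤ pmz x := by
  intro g hg
  have h1 := mem_centralizer_singleton.1 hg
  constructor
  · have h2 : g * x * g⁻¹ = x := by rw [h1]; group
    rw [h2]; exact mem_zpowers x
  · have h2 : g⁻¹ * x * g = x := by rw [mul_assoc, ← h1]; group
    rw [h2]; exact mem_zpowers x

theorem conjS_pmz (h x : G) : conjS h (pmz (h⁻¹ * x * h)) = pmz x := by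
  have key : ∀ g y : G, g * (h⁻¹ * x * h) * g⁻¹ ∈ zpowers (h⁻¹ * x * h) ↔
      (h * g * h⁻¹) * x * (h * g * h⁻¹)⁻¹ ∈ zpowers x := by
    intro g _
    rw [mem_zpowers_iff, mem_zpowers_iff]
    constructor
    · rintro ⟨k, hk⟩
      refine ⟨k, ?_⟩
      have h1 : (h⁻¹ * x * h) ^ k = h⁻¹ * x ^ k * h := by
        have := conj_zpow (i := k) (a := h⁻¹) (b := x)
        rwa [inv_inv] at this
      rw [h1] at hk
      calc x ^ k = h * (h⁻¹ * x ^ k * h) * h⁻¹ := by group
        _ = h * (g * (h⁻¹ * x * h) * g⁻¹) * h⁻¹ := by rw [hk]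
        _ = (h * g * h⁻¹) * x * (h * g * h⁻¹)⁻¹ := by group
    · rintro ⟨k, hk⟩
      refine ⟨k, ?_⟩
      have h1 : (h⁻¹ * x * h) ^ k = h⁻¹ * x ^ k * h := by
        have := conj_zpow (i := k) (a := h⁻¹) (b := x)
        rwa [inv_inv] at this
      rw [h1, hk]; group
  ext y
  rw [mem_conjS]
  have h2 : h * (h⁻¹ * y * h) * h⁻¹ = y := by group
  have h3 : h * (h⁻¹ * y * h)⁻¹ * h⁻¹ = y⁻¹ := by group
  have h4 := key (h⁻¹ * y * h) 1
  have h5 := key (h⁻¹ * y * h)⁻¹ 1
  rw [h2] at h4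
  rw [h3, inv_inv, inv_inv] at h5
  exact and_congr h4 h5

/-- a torus normalizing `⟨x⟩` centralizes `x` -/
theorem centralizer_relIndex_pmz {x : G} (hx : IsOfFinOrder x) :
    (centralizer {x}).relIndex (pmz x) ≠ 0 := by
  have hfin : (zpowers x : Set G).Finite := by
    have : Finite (zpowers x) := by
      rw [← Nat.card_pos_iff.trans (and_iff_right (⟨1⟩ : Nonempty (zpowers x))), Nat.card_zpowers]
      exact hx.orderOf_pos
    exact Set.toFinite _
  refine relIndex_ne_zero_of_map hfin (fun g => g * x * g⁻¹) (fun g hg => hg.1) ?_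
  intro a _ b _ hab
  have hab' : a * x * a⁻¹ = b * x * b⁻¹ := hab
  rw [mem_centralizer_singleton]
  calc a⁻¹ * b * x = a⁻¹ * (b * x * b⁻¹) * b := by group
    _ = a⁻¹ * (a * x * a⁻¹) * b := by rw [hab']
    _ = x * (a⁻¹ * b) := by group

theorem IsTor.comm_of_le_pmz {P : Subgroup G} (hP : IsTor P) {x : G} (hx : IsOfFinOrder x)
    (h : P ≤ pmz x) : ∀ p ∈ P, p * x = x * p := by
  have h1 : P ≤ centralizer {x} := hP.le_of_relIndex h (centralizer_relIndex_pmz hx)
  exact fun p hp => mem_centralizer_singleton.1 (h1 hp)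

/-- an element of exponent `m` conjugating `x` into `⟨x⟩` normalizes `⟨x⟩` -/
theorem mem_pmz_of_pow {x i : G} {m : ℕ} (hm : 0 < m) (hi : i ^ m = 1)
    (h : i * x * i⁻¹ ∈ zpowers x) : i ∈ pmz x := by
  refine ⟨h, ?_⟩
  have h1 : ∀ n : ℕ, i ^ n * x * (i ^ n)⁻¹ ∈ zpowers x := by
    intro n
    induction n with
    | zero => simp
    | succ n ih =>
      obtain ⟨k, hk⟩ := ih
      have hk' : x ^ k = i ^ n * x * (i ^ n)⁻¹ := hk
      have h2 : i ^ (n + 1) * x * (i ^ (n + 1))⁻¹ = i * x ^ k * i⁻¹ := by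
        rw [hk', pow_succ']; group
      rw [h2]
      exact zpow_mem_of_conj h k
  obtain ⟨n, rfl⟩ : ∃ n, m = n + 1 := ⟨m - 1, by omega⟩
  have h3 : i⁻¹ = i ^ n := by
    rw [pow_succ'] at hi
    exact inv_eq_of_mul_eq_one_right hi
  have h4 := h1 n
  rw [← h3, inv_inv] at h4
  exact h4

/-- finitely many classes of elements `j` of exponent `m` commuting with `E`, modulo `K` -/
theorem expo_finite {E T K : Subgroup G} {m : ℕ} (hm : 0 < m) (hE : IsTor E) (hKn : K.Normal)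
    {y : G} (hy : y ∈ E) (hTi : T.relIndex (centralizer {y}) ≠ 0) (hTle : T ≤ K ⊔ E)
    {Q : Type v} [Group Q] (π : G →* Q) (hone : ∀ x, π x = 1 ↔ x ∈ K) :
    (π '' {j | j ^ m = 1 ∧ ∀ e ∈ E, j * e = e * j}).Finite := by
  classical
  obtain ⟨R, hR, hRcov⟩ := exists_left_transversal hTi
  let J : Set G := {j | j ^ m = 1 ∧ ∀ e ∈ E, j * e = e * j}
  let rep : G → G := fun r => if h : ∃ j ∈ J, r⁻¹ * j ∈ T then h.choose else 1
  have hrep : ∀ r, (∃ j ∈ J, r⁻¹ * j ∈ T) → rep r ∈ J ∧ r⁻¹ * rep r ∈ T := by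
    intro r hr
    have h1 : rep r = hr.choose := dif_pos hr
    rw [h1]
    exact hr.choose_spec
  have hfin := (hR.prod ((hE.map π).pow_finite hm)).image (fun q : G × Q => π (rep q.1) * q.2)
  refine hfin.subset ?_
  rintro _ ⟨j, hj, rfl⟩
  have hjy : j ∈ centralizer {y} := mem_centralizer_singleton.2 (hj.2 y hy)
  obtain ⟨r, hr, _, t, ht, hjt⟩ := hRcov j hjy
  have hrt : r⁻¹ * j ∈ T := by rw [hjt]; simpa using ht
  obtain ⟨hj0, hj0T⟩ := hrep r ⟨j, hj, hrt⟩
  have ht0 : (rep r)⁻¹ * j ∈ T := by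
    have h1 : (rep r)⁻¹ * j = (r⁻¹ * rep r)⁻¹ * (r⁻¹ * j) := by group
    rw [h1]
    exact T.mul_mem (T.inv_mem hj0T) hrt
  have h2 := hTle ht0
  rw [← SetLike.mem_coe, Subgroup.normal_mul K E] at h2
  obtain ⟨k, hk, e, he, hke⟩ := h2
  have hπe : π ((rep r)⁻¹ * j) = π e := by
    have hke' : k * e = (rep r)⁻¹ * j := hke
    rw [← hke', map_mul, (hone k).2 hk, one_mul]
  refine ⟨(r, π e), ⟨hr, ⟨e, he, rfl⟩, ?_⟩, ?_⟩
  · change (π e) ^ m = 1
    have h3 : π j = π (rep r) * π e := by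
      rw [← hπe, ← map_mul]; congr 1; group
    have h4 : Commute (π (rep r)) (π e) := by
      change π (rep r) * π e = π e * π (rep r)
      rw [← map_mul, ← map_mul, hj0.2 e he]
    have h5 : (π j) ^ m = 1 := by rw [← map_pow, hj.1, map_one]
    have h6 : (π (rep r)) ^ m = 1 := by rw [← map_pow, hj0.1, map_one]
    rw [h3, h4.mul_pow, h6, one_mul] at h5
    exact h5
  · change π (rep r) * π e = π j
    rw [← hπe, ← map_mul]; congr 1; group

/-- tori of finite index in normalizers of cyclic subgroups, for conjugates -/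
theorem conj_tor_pmz {X K : Subgroup G} (hKn : K.Normal)
    (hA : ∀ x ∈ X, x ∉ K → ∃ T : Subgroup G, IsTor T ∧ T.relIndex (pmz x) ≠ 0) :
    ∀ h x : G, x ∈ conjS h X → x ∉ K → ∃ T : Subgroup G, IsTor T ∧ T.relIndex (pmz x) ≠ 0 := by
  intro h x hx hxK
  rw [mem_conjS] at hx
  have hxK' : h⁻¹ * x * h ∉ K := by
    intro h1
    apply hxK
    have h2 := hKn.conj_mem _ h1 h
    have h3 : h * (h⁻¹ * x * h) * h⁻¹ = x := by group
    rwa [h3] at h2
  obtain ⟨T, hT, hT2⟩ := hA _ hx hxK'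
  refine ⟨conjS h T, hT.conj h, ?_⟩
  rw [← conjS_pmz h x]
  have h4 : (conjS h T).relIndex (conjS h (pmz (h⁻¹ * x * h))) =
      T.relIndex (pmz (h⁻¹ * x * h)) := by
    unfold conjS
    exact Subgroup.relIndex_map_map_of_injective _ _ (MulEquiv.injective _)
  rw [h4]; exact hT2

end Pool.Agent.CdebT
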