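import Pool.Agent.CdebT.StepP

set_option autoImplicit false

/-!
The inductive step in the case where elements of finite order act on `D` by nontrivial power
automorphisms and centralize the conjugates of `E`: the counting argument.
-/

namespace Pool.Agent.CdebT

open Subgroup

open scoped Pointwise

open Pool.Agent.Cdeb98 (conjS mem_conjS conj_mem_conjS conjS_mul conjS_one conjS_mono conjS_sup
  conjS_finiteIndex dcc_of_le dcc_of_surjective dcc_prod exists_pow_mem_of_relIndex
  exists_pow_mem_of_finiteIndex mem_sup_of_comm FD relIndex_ne_zero_of_map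
  le_centralizer_singleton mem_centralizer_singleton exists_left_transversal)

universe u v

variable {G : Type u} [Group G]

/-- tori of finite index in centralizers, for conjugates -/
theorem conj_tor {X K : Subgroup G} (hKn : K.Normal)
    (hA : ∀ x ∈ X, x ∉ K → ∃ T : Subgroup G, IsTor T ∧
      T ≤ centralizer {x} ∧ T.relIndex (centralizer {x}) ≠ 0) :
    ∀ h x : G, x ∈ conjS h X → x ∉ K → ∃ T : Subgroup G, IsTor T ∧
      T ≤ centralizer {x} ∧ T.relIndex (centralizer {x}) ≠ 0 := by
  intro h x hx hxK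
  rw [mem_conjS] at hx
  have hxK' : h⁻¹ * x * h ∉ K := by
    intro h1
    apply hxK
    have h2 := hKn.conj_mem _ h1 h
    have h3 : h * (h⁻¹ * x * h) * h⁻¹ = x := by group
    rwa [h3] at h2
  obtain ⟨T, hT, hT1, hT2⟩ := hA _ hx hxK'
  have hcc : conjS h (centralizer {h⁻¹ * x * h}) = centralizer {x} := by
    ext y
    rw [mem_conjS, mem_centralizer_singleton, mem_centralizer_singleton]
    constructor
    · intro h1
      calc y * x = h * ((h⁻¹ * y * h) * (h⁻¹ * x * h)) * h⁻¹ := by group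
        _ = h * ((h⁻¹ * x * h) * (h⁻¹ * y * h)) * h⁻¹ := by rw [h1]
        _ = x * y := by group
    · intro h1
      calc h⁻¹ * y * h * (h⁻¹ * x * h) = h⁻¹ * (y * x) * h := by group
        _ = h⁻¹ * (x * y) * h := by rw [h1]
        _ = h⁻¹ * x * h * (h⁻¹ * y * h) := by group
  refine ⟨conjS h T, hT.conj h, ?_, ?_⟩
  · rw [← hcc]; exact conjS_mono hT1
  · rw [← hcc]
    have h4 : (conjS h T).relIndex (conjS h (centralizer {h⁻¹ * x * h})) =
        T.relIndex (centralizer {h⁻¹ * x * h}) := by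
      unfold conjS
      exact Subgroup.relIndex_map_map_of_injective _ _ (MulEquiv.injective _)
    rw [h4]; exact hT2

/-- the inductive step, elements of finite order acting on `D` by power automorphisms and
centralizing the conjugates of `E` -/
theorem step_p {D E : Subgroup G} {m c : ℕ} (hm : 0 < m) (hc0 : 0 < c) (hD : IsTor D)
    (hE : IsTor E) (hfd : FD D E)
    (hsep : Cdeb98.Sep D E) (hinv : InvP m c D E) (hNf : (D ⊔ E).FiniteIndex)
    (hA : ∀ x ∈ D, x ∉ centralizer ((D ⊔ E : Subgroup G) : Set G) → ∃ T : Subgroup G, IsTor T ∧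
      T.relIndex (pmz x) ≠ 0)
    (hB : ∀ x ∈ E, x ∉ centralizer ((D ⊔ E : Subgroup G) : Set G) → ∃ T : Subgroup G, IsTor T ∧
      T ≤ centralizer {x} ∧ T.relIndex (centralizer {x}) ≠ 0) :
    ∃ T : Subgroup G, IsTor T ∧ T.FiniteIndex := by
  classical
  by_contra hgoal
  obtain ⟨N, hN⟩ : ∃ N : Subgroup G, N = D ⊔ E := ⟨_, rfl⟩
  rw [← hN] at hNf hA hB
  obtain ⟨K, hKc⟩ : ∃ K : Subgroup G, K = centralizer (N : Set G) := ⟨_, rfl⟩
  rw [← hKc] at hA hB
  have hDN : D ≤ N := by rw [hN]; exact le_sup_left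
  have hEN : E ≤ N := by rw [hN]; exact le_sup_right
  have hNn : N.Normal := by
    constructor
    intro n hn g
    have h1 : (conjS g⁻¹ N).FiniteIndex := conjS_finiteIndex _ _ hNf
    have h2 : N ≤ conjS g⁻¹ N := by
      nth_rewrite 1 [hN]
      exact sup_le (hD.le_of_finiteIndex h1) (hE.le_of_finiteIndex h1)
    have h3 := h2 hn
    rw [mem_conjS, inv_inv] at h3
    exact h3
  have hKn : K.Normal := by rw [hKc]; infer_instance
  have hKN : ∀ k ∈ K, ∀ u ∈ N, u * k = k * u := by
    intro k hk u hu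
    rw [hKc] at hk
    exact (Subgroup.mem_centralizer_iff.1 hk) u hu
  have hDN' : ∀ h, conjS h D ≤ N := fun h => (hD.conj h).le_of_finiteIndex hNf
  have hA' := conj_tor_pmz hKn hA
  have hB' := conj_tor hKn hB
  -- no commuting pairs
  have hnocomm : ∀ h g : G, ¬ (∀ d ∈ conjS h D, ∀ e ∈ conjS g E, d * e = e * d) := by
    intro h g hc
    apply hgoal
    have hfd' : FD (conjS h D) (conjS g E) := (hfd.symm.conj_right h).symm.conj_right g
    exact comm_case (hD.conj h) (hE.conj g) hfd' ((hsep.conj_left h).conj_right g) hc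
  have hF : ∀ h g t : G, t ∈ conjS h D → (∀ e ∈ conjS g E, t * e = e * t) → t ∈ K := by
    intro h g t ht htE
    by_contra htK
    obtain ⟨T, hT, hTi⟩ := hA' h t ht htK
    have h1 : conjS h D ≤ T := (hD.conj h).le_of_relIndex
      ((le_centralizer_singleton (fun d hd => (hD.conj h).comm d hd t ht)).trans
        (centralizer_le_pmz t)) hTi
    have h2 : conjS g E ≤ T := (hE.conj g).le_of_relIndex
      ((le_centralizer_singleton (fun e he => (htE e he).symm)).trans
        (centralizer_le_pmz t)) hTi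
    exact hnocomm h g (fun d hd e he => hT.comm d (h1 hd) e (h2 he))
  have hF' : ∀ h g t : G, t ∈ conjS g E → (∀ d ∈ conjS h D, t * d = d * t) → t ∈ K := by
    intro h g t ht htD
    by_contra htK
    obtain ⟨T, hT, _, hTi⟩ := hB' g t ht htK
    have h1 : conjS g E ≤ T := (hE.conj g).le_of_relIndex
      (le_centralizer_singleton (fun d hd => (hE.conj g).comm d hd t ht)) hTi
    have h2 : conjS h D ≤ T := (hD.conj h).le_of_relIndex
      (le_centralizer_singleton (fun e he => (htD e he).symm)) hTi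
    exact hnocomm h g (fun d hd e he => hT.comm d (h2 hd) e (h1 he))
  have hDK : ∃ d ∈ D, d ∉ K := by
    by_contra hcon
    push Not at hcon
    refine hnocomm 1 1 ?_
    rw [conjS_one, conjS_one]
    exact fun d hd e he => (hKN d (hcon d hd) e (hEN he)).symm
  have hEK : ∃ e ∈ E, e ∉ K := by
    by_contra hcon
    push Not at hcon
    refine hnocomm 1 1 ?_
    rw [conjS_one, conjS_one]
    exact fun d hd e he => hKN e (hcon e he) d (hDN hd)
  have hDK' : ∀ h : G, ∃ d ∈ conjS h D, d ∉ K := by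
    intro h
    obtain ⟨d, hd, hdK⟩ := hDK
    refine ⟨h * d * h⁻¹, conj_mem_conjS hd, ?_⟩
    intro h1
    apply hdK
    have h2 := hKn.conj_mem _ h1 h⁻¹
    have h3 : h⁻¹ * (h * d * h⁻¹) * h⁻¹⁻¹ = d := by group
    rwa [h3] at h2
  -- the quotient
  obtain ⟨π, hπ⟩ : ∃ π : G →* G ⧸ K, π = QuotientGroup.mk' K := ⟨_, rfl⟩
  have hsurj : Function.Surjective π := by rw [hπ]; exact QuotientGroup.mk'_surjective K
  have hone : ∀ x, π x = 1 ↔ x ∈ K := by
    intro x; rw [hπ]; exact QuotientGroup.eq_one_iff x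
  -- (a)
  have hJ : (π '' {j | j ^ m = 1 ∧ ∀ e ∈ E, j * e = e * j}).Finite := by
    obtain ⟨y, hy, hyK⟩ := hEK
    obtain ⟨T, hT, _, hTi⟩ := hB y hy hyK
    have hET : E ≤ T := hE.le_of_relIndex
      (le_centralizer_singleton (fun e he => hE.comm e he y hy)) hTi
    have hTle : T ≤ K ⊔ E := tor_le_sup hfd hT hET (fun t ht htE => hF 1 1 t
      (by rw [conjS_one]; exact ht) (by rw [conjS_one]; exact htE))
    exact expo_finite hm hE hKn hy hTi hTle π hone
  -- (b)
  have hTle' : ∀ (h : G) (T : Subgroup G), IsTor T → conjS h D ≤ T → T ≤ K ⊔ conjS h D := by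
    intro h T hT hle
    refine tor_le_sup (hfd.symm.conj_right h) hT hle (fun t ht htE => hF' h 1 t
      (by rw [conjS_one]; exact ht) htE)
  have hYfin : ∀ h h' x x' : G, x ∈ conjS h D → x ∉ K → x' ∈ conjS h' D → x' ∉ K →
      K ⊔ conjS h D ≠ K ⊔ conjS h' D →
      (π '' ((pmz x ⊓ pmz x' : Subgroup G) : Set G)).Finite := by
    intro h h' x x' hx hxK hx' hxK' hne
    obtain ⟨T, hT, hTi⟩ := hA' h x hx hxK
    have hDT : conjS h D ≤ T := (hD.conj h).le_of_relIndex
      ((le_centralizer_singleton (fun d hd => (hD.conj h).comm d hd x hx)).trans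
        (centralizer_le_pmz x)) hTi
    have hTl := hTle' h T hT hDT
    obtain ⟨T', hT', hTi'⟩ := hA' h' x' hx' hxK'
    have hDT' : conjS h' D ≤ T' := (hD.conj h').le_of_relIndex
      ((le_centralizer_singleton (fun d hd => (hD.conj h').comm d hd x' hx')).trans
        (centralizer_le_pmz x')) hTi'
    have hTT : (T ⊓ T').relIndex (pmz x ⊓ pmz x') ≠ 0 :=
      Subgroup.relIndex_inf_ne_zero
        (mt (Subgroup.relIndex_eq_zero_of_le_right inf_le_left) hTi)
        (mt (Subgroup.relIndex_eq_zero_of_le_right inf_le_right) hTi')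
    obtain ⟨R, hR, hRcov⟩ := exists_left_transversal hTT
    let rep : G → G := fun r =>
      if hh : ∃ j ∈ pmz x ⊓ pmz x', r⁻¹ * j ∈ T ⊓ T' then hh.choose else 1
    have hrep : ∀ r, (∃ j ∈ pmz x ⊓ pmz x', r⁻¹ * j ∈ T ⊓ T') →
        rep r ∈ pmz x ⊓ pmz x' ∧ r⁻¹ * rep r ∈ T ⊓ T' := by
      intro r hr
      have h1 : rep r = hr.choose := dif_pos hr
      rw [h1]
      exact hr.choose_spec
    refine (hR.image (fun r => π (rep r))).subset ?_
    rintro _ ⟨j, hj, rfl⟩
    obtain ⟨r, hr, _, t1, ht1, hjt1⟩ := hRcov j hj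
    have hrt : r⁻¹ * j ∈ T ⊓ T' := by rw [hjt1, inv_mul_cancel_left]; exact ht1
    obtain ⟨hj1, hj1T⟩ := hrep r ⟨j, hj, hrt⟩
    obtain ⟨j1, hj1def⟩ : ∃ j1 : G, j1 = rep r := ⟨_, rfl⟩
    rw [← hj1def] at hj1 hj1T
    refine ⟨r, hr, ?_⟩
    change π (rep r) = π j
    rw [← hj1def]
    obtain ⟨t, ht⟩ : ∃ t : G, t = j1⁻¹ * j := ⟨_, rfl⟩
    have htTT : t ∈ T ⊓ T' := by
      have h1 : t = (r⁻¹ * j1)⁻¹ * (r⁻¹ * j) := by rw [ht]; group
      rw [h1]
      exact (T ⊓ T').mul_mem ((T ⊓ T').inv_mem hj1T) hrt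
    have htc : ∀ d ∈ conjS h' D, t * d = d * t := fun d hd => hT'.comm t htTT.2 d (hDT' hd)
    have htK : t ∈ K := by
      have h2 := hTl htTT.1
      rw [← SetLike.mem_coe, Subgroup.normal_mul K (conjS h D)] at h2
      obtain ⟨k, hk, d1, hd1, hkd⟩ := h2
      have hkd' : k * d1 = t := hkd
      have hd1c : ∀ d ∈ conjS h' D, d1 * d = d * d1 := by
        intro d hd
        have h3 : Commute k d := (hKN k hk d (hDN' h' hd)).symm
        have h4 : Commute t d := htc d hd
        have h5 : d1 = k⁻¹ * t := by rw [← hkd']; group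
        rw [h5]
        exact h3.inv_left.mul_left h4
      have hd1K : d1 ∈ K := by
        by_contra hd1K
        obtain ⟨T1, hT1, hT1i⟩ := hA' h d1 hd1 hd1K
        have h3 : conjS h D ≤ T1 := (hD.conj h).le_of_relIndex
          ((le_centralizer_singleton (fun d hd => (hD.conj h).comm d hd d1 hd1)).trans
            (centralizer_le_pmz d1)) hT1i
        have h4 : conjS h' D ≤ T1 := (hD.conj h').le_of_relIndex
          ((le_centralizer_singleton (fun d hd => (hd1c d hd).symm)).trans
            (centralizer_le_pmz d1)) hT1i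
        apply hne
        apply le_antisymm
        · exact sup_le le_sup_left (h3.trans (hTle' h' T1 hT1 h4))
        · exact sup_le le_sup_left (h4.trans (hTle' h T1 hT1 h3))
      rw [← hkd']
      exact K.mul_mem hk hd1K
    have h6 : π j1 = π j := by
      have h7 : π t = 1 := (hone t).2 htK
      rw [ht, map_mul, map_inv] at h7
      exact (inv_mul_eq_one.1 h7)
    exact h6
  -- (c)
  have hKconj : ∀ h : G, conjS h K = K := by
    intro h
    ext x
    rw [mem_conjS]
    constructor
    · intro h1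
      have h2 := hKn.conj_mem _ h1 h
      have h3 : h * (h⁻¹ * x * h) * h⁻¹ = x := by group
      rwa [h3] at h2
    · intro h1
      have h2 := hKn.conj_mem _ h1 h⁻¹
      rwa [inv_inv] at h2
  let line : G → Subgroup G := fun h => conjS h (K ⊔ D)
  have hline : ∀ h, line h = K ⊔ conjS h D := by
    intro h
    change conjS h (K ⊔ D) = _
    rw [conjS_sup, hKconj]
  have hinf : (Set.range line).Infinite := by
    intro hfin
    let St : Subgroup G :=
      { carrier := {g | conjS g (K ⊔ D) = K ⊔ D}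
        one_mem' := conjS_one _
        mul_mem' := by
          intro a b ha hb
          change conjS (a * b) (K ⊔ D) = K ⊔ D
          rw [conjS_mul, show conjS b (K ⊔ D) = K ⊔ D from hb,
            show conjS a (K ⊔ D) = K ⊔ D from ha]
        inv_mem' := by
          intro a ha
          change conjS a⁻¹ (K ⊔ D) = K ⊔ D
          nth_rewrite 1 [← show conjS a (K ⊔ D) = K ⊔ D from ha]
          rw [← conjS_mul, inv_mul_cancel, conjS_one] }
    have hESt : E ≤ St := by
      refine hE.le_of_relIndex le_rfl ?_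
      have hsub : ∀ t ∈ E, ∃ L ∈ Set.range line, L = line t := fun t _ => ⟨_, ⟨t, rfl⟩, rfl⟩
      have hfin' : Finite (Set.range line) := hfin
      have hf2 : Finite (E ⧸ St.subgroupOf E) := by
        let F : (E ⧸ St.subgroupOf E) → Set.range line :=
          fun q => ⟨line ((Quotient.out q : E) : G), ⟨_, rfl⟩⟩
        refine Finite.of_injective F ?_
        intro a b hab
        have h1 : line ((Quotient.out a : E) : G) = line ((Quotient.out b : E) : G) :=
          congrArg Subtype.val hab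
        have h2 : (QuotientGroup.mk (Quotient.out a) : E ⧸ St.subgroupOf E) =
            QuotientGroup.mk (Quotient.out b) := by
          rw [QuotientGroup.eq]
          change conjS ((((Quotient.out a : E)⁻¹ * (Quotient.out b : E)) : E) : G) (K ⊔ D) = K ⊔ D
          have h3 : ((((Quotient.out a : E)⁻¹ * (Quotient.out b : E)) : E) : G) =
              ((Quotient.out a : E) : G)⁻¹ * ((Quotient.out b : E) : G) := rfl
          rw [h3, conjS_mul]
          have h4 : conjS ((Quotient.out b : E) : G) (K ⊔ D) =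
              conjS ((Quotient.out a : E) : G) (K ⊔ D) := h1.symm
          rw [h4, ← conjS_mul, inv_mul_cancel, conjS_one]
        rwa [QuotientGroup.out_eq', QuotientGroup.out_eq'] at h2
      exact (Subgroup.finiteIndex_of_finite_quotient (H := St.subgroupOf E)).index_ne_zero
    obtain ⟨d0, hd0, hd0K⟩ := hDK
    apply hd0K
    refine hF 1 1 d0 (by rw [conjS_one]; exact hd0) ?_
    rw [conjS_one]
    obtain ⟨m, hm, hm1⟩ := hD.tors d0 hd0
    refine comm_of_mod hE hEN hKN (hDN hd0) hm (fun f _ => by rw [hm1, one_mul, mul_one]) ?_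
    have hE2 : E ≤ (centralizer {π d0}).comap π := by
      refine hE.le_of_relIndex le_rfl ?_
      -- a finite set of values
      have hval : ∀ e ∈ E, π (e⁻¹ * d0 * e) ∈ {x | x ∈ D.map π ∧ x ^ m = 1} := by
        intro e he
        constructor
        · have h1 : d0 ∈ conjS e (K ⊔ D) := by
            rw [show conjS e (K ⊔ D) = K ⊔ D from hESt he]
            exact (le_sup_right : D ≤ K ⊔ D) hd0
          rw [mem_conjS] at h1
          rw [← SetLike.mem_coe, Subgroup.normal_mul K D] at h1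
          obtain ⟨k, hk, d1, hd1, hkd⟩ := h1
          have hkd' : k * d1 = e⁻¹ * d0 * e := hkd
          refine ⟨d1, hd1, ?_⟩
          rw [← hkd', map_mul, (hone k).2 hk, one_mul]
        · rw [← map_pow]
          have h1 : (e⁻¹ * d0 * e) ^ m = e⁻¹ * d0 ^ m * e := by
            have := conj_pow (i := m) (a := e⁻¹) (b := d0)
            rwa [inv_inv] at this
          rw [h1, hm1]; simp
      have hvf := (hD.map π).pow_finite hm
      have hvf' : Finite ({x | x ∈ D.map π ∧ x ^ m = 1} : Set (G ⧸ K)) := hvf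
      have hf2 : Finite (E ⧸ ((centralizer {π d0}).comap π).subgroupOf E) := by
        let F : (E ⧸ ((centralizer {π d0}).comap π).subgroupOf E) →
            ({x | x ∈ D.map π ∧ x ^ m = 1} : Set (G ⧸ K)) :=
          fun q => ⟨π (((Quotient.out q : E) : G)⁻¹ * d0 * ((Quotient.out q : E) : G)),
            hval _ (Quotient.out q : E).2⟩
        refine Finite.of_injective F ?_
        intro a b hab
        have h1 : π (((Quotient.out a : E) : G)⁻¹ * d0 * ((Quotient.out a : E) : G)) =
            π (((Quotient.out b : E) : G)⁻¹ * d0 * ((Quotient.out b : E) : G)) :=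
          congrArg Subtype.val hab
        have h2 : (QuotientGroup.mk (Quotient.out a) :
            E ⧸ ((centralizer {π d0}).comap π).subgroupOf E) =
            QuotientGroup.mk (Quotient.out b) := by
          rw [QuotientGroup.eq]
          change π ((((Quotient.out a : E)⁻¹ * (Quotient.out b : E)) : E) : G) ∈
            centralizer {π d0}
          have h3 : ((((Quotient.out a : E)⁻¹ * (Quotient.out b : E)) : E) : G) =
              ((Quotient.out b : E) : G) * ((Quotient.out a : E) : G)⁻¹ :=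
            hE.comm _ (E.inv_mem (Quotient.out a : E).2) _ (Quotient.out b : E).2
          rw [h3, mem_centralizer_singleton]
          simp only [map_mul, map_inv] at h1 ⊢
          generalize π ((Quotient.out a : E) : G) = p at h1 ⊢
          generalize π ((Quotient.out b : E) : G) = q at h1 ⊢
          calc q * p⁻¹ * π d0 = q * (p⁻¹ * π d0 * p) * p⁻¹ := by group
            _ = q * (q⁻¹ * π d0 * q) * p⁻¹ := by rw [h1]
            _ = π d0 * (q * p⁻¹) := by group
        rwa [QuotientGroup.out_eq', QuotientGroup.out_eq'] at h2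
      exact (Subgroup.finiteIndex_of_finite_quotient
        (H := ((centralizer {π d0}).comap π).subgroupOf E)).index_ne_zero
    intro f hf
    have h1 := mem_centralizer_singleton.1 (hE2 hf)
    rw [← hone]
    simp only [map_mul, map_inv]
    rw [← h1]; group
  -- (d)
  obtain ⟨𝓛, h𝓛, hcard⟩ := hinf.exists_subset_card_eq (hJ.toFinset.card + 1)
  have hch : ∀ L : Subgroup G, ∃ h : G, L ∈ 𝓛 → line h = L := by
    intro L
    by_cases hL : L ∈ 𝓛
    · obtain ⟨h, hh⟩ := h𝓛 hL
      exact ⟨h, fun _ => hh⟩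
    · exact ⟨1, fun h => absurd h hL⟩
  choose ch hch using hch
  choose xx hxx hxxK using hDK'
  let Pw : G → Set G := fun h => {j | ∀ d ∈ conjS h D, d ^ c ∈ zpowers (j * d * j⁻¹ * d⁻¹)}
  let Y : Set (G ⧸ K) := ⋃ L ∈ 𝓛, ⋃ L' ∈ (𝓛.filter (fun L' => L ≠ L')),
    π '' (((pmz (xx (ch L)) ⊓ pmz (xx (ch L')) : Subgroup G) : Set G) ∩ Pw (ch L))
  have hY : Y.Finite := by
    refine Set.Finite.biUnion 𝓛.finite_toSet ?_
    intro L hL
    refine Set.Finite.biUnion (Finset.finite_toSet _) ?_
    intro L' hL'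
    obtain ⟨hL'1, hL'2⟩ := Finset.mem_filter.1 hL'
    refine (hYfin _ _ _ _ (hxx (ch L)) (hxxK (ch L)) (hxx (ch L')) (hxxK (ch L')) ?_).subset
      (Set.image_mono Set.inter_subset_left)
    rw [← hline, ← hline, hch L hL, hch L' hL'1]
    exact hL'2
  obtain ⟨p, hp, hpf⟩ := group_cover_pairs (hY.prod hJ) (by
    intro q
    obtain ⟨g, rfl⟩ := hsurj q
    have hj : ∀ L : Subgroup G, ∃ j : G, j ^ m = 1 ∧
        (∀ d ∈ conjS (ch L) D, j * d * j⁻¹ ∈ zpowers d ∧ d ^ c ∈ zpowers (j * d * j⁻¹ * d⁻¹)) ∧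
        ∀ e ∈ conjS g E, j * e = e * j := by
      intro L
      obtain ⟨i, hi, hiD, hiE⟩ := hinv ((ch L)⁻¹ * g)
      have hcz : ∀ a b : G, (ch L)⁻¹ * a * ch L ∈ zpowers ((ch L)⁻¹ * b * ch L) →
          a ∈ zpowers b := by
        rintro a b ⟨k, hk⟩
        have hk' : ((ch L)⁻¹ * b * ch L) ^ k = (ch L)⁻¹ * a * ch L := hk
        have h1 : ((ch L)⁻¹ * b * ch L) ^ k = (ch L)⁻¹ * b ^ k * ch L := by
          have := conj_zpow (i := k) (a := (ch L)⁻¹) (b := b)
          rwa [inv_inv] at this
        rw [h1] at hk'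
        exact ⟨k, mul_left_cancel (mul_right_cancel hk')⟩
      refine ⟨ch L * i * (ch L)⁻¹, ?_, ?_, ?_⟩
      · rw [conj_pow, hi]; group
      · intro d hd
        obtain ⟨h1, h2⟩ := hiD _ (mem_conjS.1 hd)
        constructor
        · apply hcz
          have h3 : (ch L)⁻¹ * (ch L * i * (ch L)⁻¹ * d * (ch L * i * (ch L)⁻¹)⁻¹) * ch L =
              i * ((ch L)⁻¹ * d * ch L) * i⁻¹ := by group
          rw [h3]; exact h1
        · apply hcz
          have h3 : (ch L)⁻¹ * (ch L * i * (ch L)⁻¹ * d * (ch L * i * (ch L)⁻¹)⁻¹ * d⁻¹) * ch L =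
              i * ((ch L)⁻¹ * d * ch L) * i⁻¹ * ((ch L)⁻¹ * d * ch L)⁻¹ := by group
          have h4 : (ch L)⁻¹ * d ^ c * ch L = ((ch L)⁻¹ * d * ch L) ^ c := by
            have := conj_pow (i := c) (a := (ch L)⁻¹) (b := d)
            rw [inv_inv] at this
            exact this.symm
          rw [h3, h4]; exact h2
      · intro e he
        have h2 : (ch L)⁻¹ * e * ch L ∈ conjS ((ch L)⁻¹ * g) E := by
          rw [conjS_mul, mem_conjS, inv_inv]
          have h3 : ch L * ((ch L)⁻¹ * e * ch L) * (ch L)⁻¹ = e := by group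
          rw [h3]; exact he
        have h4 := hiE _ h2
        calc ch L * i * (ch L)⁻¹ * e = ch L * (i * ((ch L)⁻¹ * e * ch L)) * (ch L)⁻¹ := by group
          _ = ch L * (((ch L)⁻¹ * e * ch L) * i) * (ch L)⁻¹ := by rw [h4]
          _ = e * (ch L * i * (ch L)⁻¹) := by group
    choose jj hjj0 hjj1 hjj2 using hj
    have hjjp : ∀ L, jj L ∈ pmz (xx (ch L)) := fun L =>
      mem_pmz_of_pow hm (hjj0 L) (hjj1 L _ (hxx (ch L))).1
    have hmap : ∀ L ∈ 𝓛, π (g⁻¹ * jj L * g) ∈ hJ.toFinset := by
      intro L _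
      rw [hJ.mem_toFinset]
      refine ⟨g⁻¹ * jj L * g, ⟨?_, ?_⟩, rfl⟩
      · have := conj_pow (i := m) (a := g⁻¹) (b := jj L)
        rw [inv_inv] at this
        rw [this, hjj0]; group
      · intro e he
        have h1 := hjj2 L _ (conj_mem_conjS (g := g) he)
        calc g⁻¹ * jj L * g * e = g⁻¹ * (jj L * (g * e * g⁻¹)) * g := by group
          _ = g⁻¹ * ((g * e * g⁻¹) * jj L) * g := by rw [h1]
          _ = e * (g⁻¹ * jj L * g) := by group
    obtain ⟨L, hL, L', hL', hLL, heq⟩ := Finset.exists_ne_map_eq_of_card_lt_of_maps_to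
      (by rw [hcard]; exact Nat.lt_succ_self _) hmap
    have hππ : π (jj L) = π (jj L') := by
      simp only [map_mul, map_inv] at heq
      exact mul_left_cancel (mul_right_cancel heq)
    refine ⟨(π (jj L), π (g⁻¹ * jj L * g)), ⟨?_, (hJ.mem_toFinset).1 (hmap L hL)⟩, ?_⟩
    · refine Set.mem_biUnion hL (Set.mem_biUnion (Finset.mem_filter.2 ⟨hL', hLL⟩) ?_)
      refine ⟨jj L, ⟨⟨hjjp L, ?_⟩, fun d hd => (hjj1 L d hd).2⟩, rfl⟩
      have hκ : (jj L')⁻¹ * jj L ∈ K := by
        rw [← hone, map_mul, map_inv, hππ, inv_mul_cancel]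
      have h1 : (jj L')⁻¹ * jj L ∈ pmz (xx (ch L')) := by
        apply centralizer_le_pmz
        rw [mem_centralizer_singleton]
        exact (hKN _ hκ _ (hDN' _ (hxx (ch L')))).symm
      have h2 : jj L = jj L' * ((jj L')⁻¹ * jj L) := by group
      rw [h2]
      exact (pmz (xx (ch L'))).mul_mem (hjjp L') h1
    · change (π g)⁻¹ * π (jj L) * π g = π (g⁻¹ * jj L * g)
      simp only [map_mul, map_inv])
  -- the contradiction
  obtain ⟨hpY, _⟩ := hp
  obtain ⟨L, hL, hpY⟩ := Set.mem_iUnion₂.1 hpY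
  obtain ⟨L', hL', j, ⟨_, hj⟩, hjp⟩ := Set.mem_iUnion₂.1 hpY
  apply hxxK (ch L)
  obtain ⟨f, hf, hfe⟩ := (hD.conj (ch L)).div c hc0 _ (hxx (ch L))
  rw [← hfe, ← hone]
  have hcomm := mem_centralizer_singleton.1
    (((hD.conj (ch L)).map π).le_of_finiteIndex hpf ⟨f, hf, rfl⟩)
  rw [← hjp] at hcomm
  obtain ⟨k, hk⟩ := hj f hf
  have hk' : (j * f * j⁻¹ * f⁻¹) ^ k = f ^ c := hk
  have h1 : π (j * f * j⁻¹ * f⁻¹) = 1 := by
    simp only [map_mul, map_inv]
    rw [← hcomm]; group
  rw [← hk', map_zpow, h1, one_zpow]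

end Pool.Agent.CdebT
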