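import Pool.Agent.CdebT.Product

set_option autoImplicit false

/-!
The inductive step in the case where the involutions invert `D` and centralize the conjugates
of `E`.
-/

namespace Pool.Agent.CdebT

open Subgroup

open scoped Pointwise

open Pool.Agent.Cdeb98 (conjS mem_conjS conj_mem_conjS conjS_mul conjS_one conjS_mono conjS_sup
  conjS_finiteIndex dcc_of_le dcc_of_surjective dcc_prod exists_pow_mem_of_relIndex
  exists_pow_mem_of_finiteIndex mem_sup_of_comm FD relIndex_ne_zero_of_map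
  le_centralizer_singleton mem_centralizer_singleton exists_left_transversal)

universe u v

variable {G : Type u} [Group G]

/-- the elements of exponent `n` of a torus form a finite set -/
theorem IsTor.pow_finite {D : Subgroup G} (hD : IsTor D) {n : ℕ} (hn : 0 < n) :
    {x | x ∈ D ∧ x ^ n = 1}.Finite := by
  let K : Subgroup G :=
    { carrier := {x | x ∈ D ∧ x ^ n = 1}
      one_mem' := ⟨D.one_mem, by simp⟩
      mul_mem' := by
        rintro x y ⟨hx, hx2⟩ ⟨hy, hy2⟩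
        refine ⟨D.mul_mem hx hy, ?_⟩
        rw [Commute.mul_pow (show Commute x y from hD.comm x hx y hy), hx2, hy2, one_mul]
      inv_mem' := by
        rintro x ⟨hx, hx2⟩
        exact ⟨D.inv_mem hx, by rw [inv_pow, hx2, inv_one]⟩ }
  have hKD : K ≤ D := fun x hx => hx.1
  obtain ⟨P, hPK, hP, hPi⟩ := exists_tor (Q := K) (fun a ha b hb => hD.comm a (hKD ha) b (hKD hb))
    (dcc_of_le hKD hD.min)
  have hPbot : P = ⊥ := by
    rw [eq_bot_iff]
    intro x hx
    obtain ⟨y, hy, hyx⟩ := hP.div n hn x hx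
    rw [Subgroup.mem_bot, ← hyx]
    exact (hPK hy).2
  rw [hPbot] at hPi
  have hfin : Finite K := by
    rw [Subgroup.relIndex, Subgroup.bot_subgroupOf, Subgroup.index_bot] at hPi
    exact Nat.finite_of_card_ne_zero hPi
  exact hfin

/-- a torus containing `E` is contained in `K E` -/
theorem tor_le_sup {D E T K : Subgroup G} (hfd : FD D E) (hT : IsTor T) (hET : E ≤ T)
    (hF : ∀ t ∈ D, (∀ e ∈ E, t * e = e * t) → t ∈ K) : T ≤ K ⊔ E := by
  have h1 : T ≤ (T ⊓ D) ⊔ E := by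
    refine hT.le_of_relIndex le_rfl ?_
    obtain ⟨S, hS, hcov⟩ := hfd
    choose σ hσ d hd e he heq using hcov
    refine relIndex_ne_zero_of_map hS σ (fun t _ => hσ t) ?_
    intro a ha b hb hab
    have h2 := heq a
    have h3 := heq b
    rw [← hab] at h3
    have h4 : b = (d b * (d a)⁻¹) * a * ((e a)⁻¹ * e b) := by
      calc b = d b * σ a * e b := h3
        _ = (d b * (d a)⁻¹) * (d a * σ a * e a) * ((e a)⁻¹ * e b) := by group
        _ = (d b * (d a)⁻¹) * a * ((e a)⁻¹ * e b) := by rw [← h2]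
    have heT : (e a)⁻¹ * e b ∈ T := hET (E.mul_mem (E.inv_mem (he _)) (he _))
    have hdT : d b * (d a)⁻¹ ∈ T := by
      have h5 : d b * (d a)⁻¹ = b * ((e a)⁻¹ * e b)⁻¹ * a⁻¹ := by
        nth_rewrite 2 [h4]; group
      rw [h5]
      exact T.mul_mem (T.mul_mem hb (T.inv_mem heT)) (T.inv_mem ha)
    have h6 : a⁻¹ * b = (d b * (d a)⁻¹) * ((e a)⁻¹ * e b) := by
      have h7 := hT.comm (d b * (d a)⁻¹) hdT a ha
      calc a⁻¹ * b = a⁻¹ * ((d b * (d a)⁻¹) * a * ((e a)⁻¹ * e b)) := by rw [← h4]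
        _ = a⁻¹ * (a * (d b * (d a)⁻¹)) * ((e a)⁻¹ * e b) := by rw [h7]; group
        _ = (d b * (d a)⁻¹) * ((e a)⁻¹ * e b) := by group
    rw [h6]
    exact ((T ⊓ D) ⊔ E).mul_mem
      ((le_sup_left : T ⊓ D ≤ (T ⊓ D) ⊔ E) ⟨hdT, D.mul_mem (hd _) (D.inv_mem (hd _))⟩)
      ((le_sup_right : E ≤ (T ⊓ D) ⊔ E) (E.mul_mem (E.inv_mem (he _)) (he _)))
  refine h1.trans (sup_le ?_ le_sup_right)
  intro t ht
  exact (le_sup_left : K ≤ K ⊔ E) (hF t ht.2 (fun e he => hT.comm t ht.1 e (hET he)))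

/-- finitely many classes of elements `j` commuting with `E` with `j ^ 2 = 1`, modulo `K` -/
theorem involutions_finite {E T K : Subgroup G} (hE : IsTor E) (hKn : K.Normal) {y : G} (hy : y ∈ E)
    (hTi : T.relIndex (centralizer {y}) ≠ 0) (hTle : T ≤ K ⊔ E)
    {Q : Type v} [Group Q] (π : G →* Q) (hone : ∀ x, π x = 1 ↔ x ∈ K) :
    (π '' {j | j * j = 1 ∧ ∀ e ∈ E, j * e = e * j}).Finite := by
  classical
  obtain ⟨R, hR, hRcov⟩ := exists_left_transversal hTi
  let J : Set G := {j | j * j = 1 ∧ ∀ e ∈ E, j * e = e * j}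
  let rep : G → G := fun r => if h : ∃ j ∈ J, r⁻¹ * j ∈ T then h.choose else 1
  have hrep : ∀ r, (∃ j ∈ J, r⁻¹ * j ∈ T) → rep r ∈ J ∧ r⁻¹ * rep r ∈ T := by
    intro r hr
    have h1 : rep r = hr.choose := dif_pos hr
    rw [h1]
    exact hr.choose_spec
  have hfin := (hR.prod (hE.map π).two_finite).image (fun q : G × Q => π (rep q.1) * q.2)
  refine hfin.subset ?_
  rintro _ ⟨j, hj, rfl⟩
  have hjy : j ∈ centralizer {y} := mem_centralizer_singleton.2 (hj.2 y hy)
  obtain ⟨r, hr, _, t, ht, hjt⟩ := hRcov j hjy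
  have hrt : r⁻¹ * j ∈ T := by rw [hjt]; simpa using ht
  obtain ⟨hj0, hj0T⟩ := hrep r ⟨j, hj, hrt⟩
  have ht0 : (rep r)⁻¹ * j ∈ T := by
    have h1 : (rep r)⁻¹ * j = (r⁻¹ * rep r)⁻¹ * (r⁻¹ * j) := by group
    rw [h1]
    exact T.mul_mem (T.inv_mem hj0T) hrt
  have h2 := hTle ht0
  rw [← SetLike.mem_coe, Subgroup.normal_mul K E] at h2
  obtain ⟨k, hk, e, he, hke⟩ := h2
  have hπe : π ((rep r)⁻¹ * j) = π e := by
    have hke' : k * e = (rep r)⁻¹ * j := hke
    rw [← hke', map_mul, (hone k).2 hk, one_mul]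
  refine ⟨(r, π e), ⟨hr, ⟨e, he, rfl⟩, ?_⟩, ?_⟩
  · -- `π e` has order at most two
    change (π e) ^ 2 = 1
    have h3 : π j = π (rep r) * π e := by
      rw [← hπe, ← map_mul]; congr 1; group
    have h4 : π (rep r) * π e = π e * π (rep r) := by
      rw [← map_mul, ← map_mul, hj0.2 e he]
    have h5 : π j * π j = 1 := by rw [← map_mul, hj.1, map_one]
    have h6 : π (rep r) * π (rep r) = 1 := by rw [← map_mul, hj0.1, map_one]
    calc (π e) ^ 2 = (π (rep r) * π (rep r)) * (π e * π e) := by rw [h6, one_mul, pow_two]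
      _ = π (rep r) * (π (rep r) * π e) * π e := by group
      _ = π (rep r) * (π e * π (rep r)) * π e := by rw [h4]
      _ = (π (rep r) * π e) * (π (rep r) * π e) := by group
      _ = 1 := by rw [← h3, h5]
  · change π (rep r) * π e = π j
    rw [← hπe, ← map_mul]; congr 1; group

/-- B. H. Neumann's lemma for transporters in the whole group -/
theorem group_cover_pairs {I : Set (G × G)} (hI : I.Finite)
    (hcov : ∀ g : G, ∃ p ∈ I, g⁻¹ * p.1 * g = p.2) :
    ∃ p ∈ I, (centralizer {p.1}).FiniteIndex := by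
  classical
  let γ : G × G → G := fun p => if h : ∃ g : G, g⁻¹ * p.1 * g = p.2 then h.choose else 1
  have hγ : ∀ p : G × G, (∃ g : G, g⁻¹ * p.1 * g = p.2) → (γ p)⁻¹ * p.1 * γ p = p.2 := by
    intro p hp
    have h1 : γ p = hp.choose := dif_pos hp
    rw [h1]
    exact hp.choose_spec
  have hcover : ⋃ p ∈ hI.toFinset, γ p •
      ((conjS (γ p)⁻¹ (centralizer {p.1}) : Subgroup G) : Set G) = Set.univ := by
    rw [Set.eq_univ_iff_forall]
    intro g
    obtain ⟨p, hp, hgp⟩ := hcov g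
    rw [Set.mem_iUnion₂]
    refine ⟨p, hI.mem_toFinset.2 hp, ?_⟩
    rw [mem_leftCoset_iff]
    change (γ p)⁻¹ * g ∈ conjS (γ p)⁻¹ (centralizer {p.1})
    rw [mem_conjS, inv_inv, mem_centralizer_singleton]
    have h1 := hγ p ⟨g, hgp⟩
    rw [← hgp] at h1
    have h2 : p.1 = γ p * (g⁻¹ * p.1 * g) * (γ p)⁻¹ := by rw [← h1]; group
    calc γ p * ((γ p)⁻¹ * g) * (γ p)⁻¹ * p.1 = g * (γ p)⁻¹ * p.1 := by group
      _ = g * (γ p)⁻¹ * (γ p * (g⁻¹ * p.1 * g) * (γ p)⁻¹) := by rw [← h2]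
      _ = p.1 * (γ p * ((γ p)⁻¹ * g) * (γ p)⁻¹) := by group
  obtain ⟨p, hp, hpf⟩ := Subgroup.exists_finiteIndex_of_leftCoset_cover hcover
  refine ⟨p, hI.mem_toFinset.1 hp, ?_⟩
  have h1 := conjS_finiteIndex (γ p) _ hpf
  rwa [← conjS_mul, mul_inv_cancel, conjS_one] at h1

end Pool.Agent.CdebT
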