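import Pool.Agent.Cdeb98.Main

set_option autoImplicit false

/-!
Divisible abelian torsion groups (all primes allowed) with the descending chain condition on
subgroups, as subgroups of an ambient group.
-/

namespace Pool.Agent.CdebT

open Subgroup

open Pool.Agent.Cdeb98 (conjS mem_conjS conj_mem_conjS conjS_mul conjS_one conjS_mono conjS_sup
  conjS_finiteIndex dcc_of_le dcc_of_surjective dcc_prod exists_pow_mem_of_relIndex
  exists_pow_mem_of_finiteIndex mem_sup_of_comm)

universe u v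

variable {G : Type u} [Group G] {H : Type v} [Group H]

/-- A subgroup that is abelian, torsion, divisible, and has the descending chain condition
on subgroups. -/
structure IsTor (D : Subgroup G) : Prop where
  comm : ∀ x ∈ D, ∀ y ∈ D, x * y = y * x
  tors : ∀ x ∈ D, ∃ k : ℕ, 0 < k ∧ x ^ k = 1
  div : ∀ n : ℕ, 0 < n → ∀ x ∈ D, ∃ y ∈ D, y ^ n = x
  min : WellFoundedLT (Subgroup D)

theorem IsTor.map {D : Subgroup G} (hD : IsTor D) (f : G →* H) : IsTor (D.map f) where
  comm := by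
    rintro _ ⟨x, hx, rfl⟩ _ ⟨y, hy, rfl⟩
    rw [← map_mul, ← map_mul, hD.comm x hx y hy]
  tors := by
    rintro _ ⟨x, hx, rfl⟩
    obtain ⟨k, hk0, hk⟩ := hD.tors x hx
    exact ⟨k, hk0, by rw [← map_pow, hk, map_one]⟩
  div := by
    rintro n hn _ ⟨x, hx, rfl⟩
    obtain ⟨y, hy, hyx⟩ := hD.div n hn x hx
    exact ⟨f y, ⟨y, hy, rfl⟩, by rw [← map_pow, hyx]⟩
  min := dcc_of_surjective (f.subgroupMap D) (f.subgroupMap_surjective D) hD.min

theorem IsTor.conj {D : Subgroup G} (hD : IsTor D) (g : G) : IsTor (conjS g D) :=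
  hD.map _

theorem IsTor.top {D : Subgroup G} (hD : IsTor D) : IsTor (⊤ : Subgroup D) where
  comm := by
    rintro ⟨x, hx⟩ - ⟨y, hy⟩ -
    exact Subtype.ext (hD.comm x hx y hy)
  tors := by
    rintro ⟨x, hx⟩ -
    obtain ⟨k, hk0, hk⟩ := hD.tors x hx
    exact ⟨k, hk0, Subtype.ext (by simpa using hk)⟩
  div := by
    rintro n hn ⟨x, hx⟩ -
    obtain ⟨y, hy, hyx⟩ := hD.div n hn x hx
    exact ⟨⟨y, hy⟩, trivial, Subtype.ext (by simpa using hyx)⟩
  min := dcc_of_surjective (Subgroup.topEquiv (G := D)).symm.toMonoidHom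
    (Subgroup.topEquiv (G := D)).symm.surjective hD.min

theorem IsTor.range {D : Subgroup G} (hD : IsTor D) (f : D →* H) : IsTor f.range := by
  have := hD.top.map f
  rwa [← MonoidHom.range_eq_map] at this

/-- a torus contained in `C`, as a subgroup of `C` -/
theorem IsTor.subgroupOf {D : Subgroup G} (hD : IsTor D) {C : Subgroup G} (h : D ≤ C) :
    IsTor (D.subgroupOf C) := by
  have h1 := hD.range (Subgroup.inclusion h)
  have h2 : (Subgroup.inclusion h).range = D.subgroupOf C := by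
    ext ⟨x, hx⟩
    constructor
    · rintro ⟨⟨y, hy⟩, hyx⟩
      have : y = x := congrArg Subtype.val hyx
      subst this
      exact hy
    · intro hx'
      exact ⟨⟨x, hx'⟩, rfl⟩
  rwa [h2] at h1

theorem IsTor.le_of_relIndex {P : Subgroup G} (hP : IsTor P) {K C : Subgroup G}
    (hPC : P ≤ C) (h : K.relIndex C ≠ 0) : P ≤ K := by
  obtain ⟨n, hn, hn'⟩ := exists_pow_mem_of_relIndex h
  intro x hx
  obtain ⟨y, hy, rfl⟩ := hP.div n hn x hx
  exact hn' y (hPC hy)

theorem IsTor.le_of_finiteIndex {P : Subgroup G} (hP : IsTor P) {K : Subgroup G}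
    (h : K.FiniteIndex) : P ≤ K := by
  obtain ⟨n, hn, hn'⟩ := exists_pow_mem_of_finiteIndex h
  intro x hx
  obtain ⟨y, hy, rfl⟩ := hP.div n hn x hx
  exact hn' y

theorem IsTor.sup {P Q : Subgroup G} (hP : IsTor P) (hQ : IsTor Q)
    (hc : ∀ x ∈ P, ∀ y ∈ Q, x * y = y * x) : IsTor (P ⊔ Q) := by
  let f : P × Q →* G :=
    { toFun := fun z => (z.1 : G) * (z.2 : G)
      map_one' := by simp
      map_mul' := by
        rintro ⟨⟨p, hp⟩, ⟨q, hq⟩⟩ ⟨⟨p', hp'⟩, ⟨q', hq'⟩⟩
        have := hc p' hp' q hq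
        simp only [Prod.mk_mul_mk, MulMemClass.mk_mul_mk]
        calc p * p' * (q * q') = p * (p' * q) * q' := by group
          _ = p * (q * p') * q' := by rw [this]
          _ = p * q * (p' * q') := by group }
  have hf : f.range = P ⊔ Q := by
    apply le_antisymm
    · rintro _ ⟨⟨⟨p, hp⟩, ⟨q, hq⟩⟩, rfl⟩
      exact (P ⊔ Q).mul_mem ((le_sup_left : P ≤ P ⊔ Q) hp) ((le_sup_right : Q ≤ P ⊔ Q) hq)
    · intro x hx
      obtain ⟨p, hp, q, hq, rfl⟩ := mem_sup_of_comm hc hx
      exact ⟨(⟨p, hp⟩, ⟨q, hq⟩), rfl⟩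
  rw [← hf]
  refine ⟨?_, ?_, ?_, ?_⟩
  · rintro _ ⟨⟨⟨p, hp⟩, ⟨q, hq⟩⟩, rfl⟩ _ ⟨⟨⟨p', hp'⟩, ⟨q', hq'⟩⟩, rfl⟩
    rw [← map_mul, ← map_mul]
    congr 1
    simp only [Prod.mk_mul_mk, MulMemClass.mk_mul_mk, Prod.mk.injEq, Subtype.mk.injEq]
    exact ⟨hP.comm p hp p' hp', hQ.comm q hq q' hq'⟩
  · rintro _ ⟨⟨⟨p, hp⟩, ⟨q, hq⟩⟩, rfl⟩
    obtain ⟨k, hk0, hk⟩ := hP.tors p hp
    obtain ⟨l, hl0, hl⟩ := hQ.tors q hq
    refine ⟨k * l, Nat.mul_pos hk0 hl0, ?_⟩
    rw [← map_pow]
    have : ((⟨p, hp⟩, ⟨q, hq⟩) : P × Q) ^ (k * l) = 1 := by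
      rw [Prod.ext_iff]
      constructor
      · apply Subtype.ext
        simp only [Prod.pow_fst, SubmonoidClass.mk_pow, Prod.fst_one, OneMemClass.coe_one]
        rw [pow_mul, hk, one_pow]
      · apply Subtype.ext
        simp only [Prod.pow_snd, SubmonoidClass.mk_pow, Prod.snd_one, OneMemClass.coe_one]
        rw [mul_comm, pow_mul, hl, one_pow]
    rw [this, map_one]
  · rintro n hn _ ⟨⟨⟨p, hp⟩, ⟨q, hq⟩⟩, rfl⟩
    obtain ⟨p', hp', rfl⟩ := hP.div n hn p hp
    obtain ⟨q', hq', rfl⟩ := hQ.div n hn q hq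
    refine ⟨f (⟨p', hp'⟩, ⟨q', hq'⟩), ⟨_, rfl⟩, ?_⟩
    rw [← map_pow]
    rfl
  · exact dcc_of_surjective f.rangeRestrict f.rangeRestrict_surjective (dcc_prod hP.min hQ.min)

/-- a descending sequence of subgroups of a torus has two equal consecutive terms -/
theorem IsTor.chain {D : Subgroup G} (hD : IsTor D) (V : ℕ → Subgroup G)
    (hV : ∀ n, V n ≤ D) (hanti : ∀ n, V (n + 1) ≤ V n) : ∃ n, V (n + 1) = V n := by
  by_contra hcon
  push Not at hcon
  have hlt : ∀ n, (V (n + 1)).subgroupOf D < (V n).subgroupOf D := by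
    intro n
    refine lt_of_le_of_ne ?_ ?_
    · intro x hx
      exact hanti n hx
    · intro h
      apply hcon n
      have := Subgroup.subgroupOf_inj.1 h
      rwa [inf_of_le_left (hV _), inf_of_le_left (hV _)] at this
  have hwf := hD.min.wf
  exact (RelEmbedding.natGT (r := fun a b : Subgroup D => a < b)
    (fun n => (V n).subgroupOf D) hlt).not_wellFounded hwf

/-! ### finite subgroups, torsion from the chain condition -/

/-- the chain condition forces torsion -/
theorem tors_of_dcc {Q : Subgroup G} (hmin : WellFoundedLT (Subgroup Q)) :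
    ∀ x ∈ Q, ∃ k : ℕ, 0 < k ∧ x ^ k = 1 := by
  intro x hx
  by_contra hcon
  push Not at hcon
  let y : Q := ⟨x, hx⟩
  have hy : ∀ k : ℕ, 0 < k → y ^ k ≠ 1 := by
    intro k hk h
    exact hcon k hk (by simpa [y] using congrArg Subtype.val h)
  have hlt : ∀ n : ℕ, Subgroup.zpowers (y ^ (2 ^ (n + 1))) < Subgroup.zpowers (y ^ (2 ^ n)) := by
    intro n
    refine lt_of_le_of_ne ?_ ?_
    · rw [Subgroup.zpowers_le]
      refine ⟨2, ?_⟩
      simp only
      rw [pow_succ, pow_mul]
      norm_cast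
    · intro h
      have h1 : y ^ (2 ^ n) ∈ Subgroup.zpowers (y ^ (2 ^ (n + 1))) := by
        rw [h]; exact Subgroup.mem_zpowers _
      obtain ⟨m, hm⟩ := h1
      simp only at hm
      have h2 : y ^ ((2 ^ (n + 1) : ℤ) * m - 2 ^ n) = 1 := by
        rw [zpow_sub, zpow_mul]
        have h3 : y ^ (2 ^ (n + 1) : ℤ) = y ^ (2 ^ (n + 1)) := by
          exact_mod_cast zpow_natCast y (2 ^ (n + 1))
        have h4 : y ^ (2 ^ n : ℤ) = y ^ (2 ^ n) := by
          exact_mod_cast zpow_natCast y (2 ^ n)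
        rw [h3, h4, hm, mul_inv_cancel]
      have h5 : (2 ^ (n + 1) : ℤ) * m - 2 ^ n ≠ 0 := by
        have h6 : (2 ^ (n + 1) : ℤ) * m - 2 ^ n = 2 ^ n * (2 * m - 1) := by ring
        rw [h6]
        apply mul_ne_zero (by positivity)
        omega
      have h7 : ¬ IsOfFinOrder y := by
        rw [isOfFinOrder_iff_pow_eq_one]
        rintro ⟨k, hk, hk1⟩
        exact hy k hk hk1
      apply h7
      rw [isOfFinOrder_iff_zpow_eq_one]
      exact ⟨_, h5, h2⟩
  exact (RelEmbedding.natGT (r := fun a b : Subgroup Q => a < b)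
    (fun n => Subgroup.zpowers (y ^ (2 ^ n))) hlt).not_wellFounded hmin.wf

/-- the elements of order at most two of a torus form a finite set -/
theorem IsTor.two_finite {D : Subgroup G} (hD : IsTor D) : {x | x ∈ D ∧ x ^ 2 = 1}.Finite := by
  let K : Subgroup G :=
    { carrier := {x | x ∈ D ∧ x ^ 2 = 1}
      one_mem' := ⟨D.one_mem, by simp⟩
      mul_mem' := by
        rintro x y ⟨hx, hx2⟩ ⟨hy, hy2⟩
        refine ⟨D.mul_mem hx hy, ?_⟩
        rw [Commute.mul_pow (show Commute x y from hD.comm x hx y hy), hx2, hy2, one_mul]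
      inv_mem' := by
        rintro x ⟨hx, hx2⟩
        exact ⟨D.inv_mem hx, by rw [inv_pow, hx2, inv_one]⟩ }
  have hKD : K ≤ D := fun x hx => hx.1
  let _ : CommGroup K :=
    { (inferInstance : Group K) with
      mul_comm := fun a b => Subtype.ext (hD.comm a (hKD a.2) b (hKD b.2)) }
  have hfin : Finite K := Pool.Agent.Cdeb98.finite_of_exponent_two (A := K)
    (fun x => Subtype.ext x.2.2) (dcc_of_le hKD hD.min)
  exact hfin

/-- a finite torus is trivial -/
theorem IsTor.eq_one_of_finite {D : Subgroup G} (hD : IsTor D) (hf : Finite D) :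
    ∀ x ∈ D, x = 1 := by
  intro x hx
  have hc : 0 < Nat.card D := Nat.card_pos
  obtain ⟨y, hy, hyx⟩ := hD.div (Nat.card D) hc x hx
  have h1 : (⟨y, hy⟩ : D) ^ Nat.card D = 1 := pow_card_eq_one'
  have h2 := congrArg Subtype.val h1
  simp only [SubmonoidClass.mk_pow, OneMemClass.coe_one] at h2
  rw [← hyx, h2]

/-! ### existence -/

theorem exists_dual_zmod {V : Type u} [AddCommGroup V] {p : ℕ} [hp : Fact p.Prime]
    (hV : ∀ v : V, p • v = 0) (x : V) (hx : x ≠ 0) : ∃ f : V →+ ZMod p, f x ≠ 0 := by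
  let _ : Module (ZMod p) V := AddCommGroup.zmodModule (n := p) hV
  obtain ⟨f, hf⟩ := Module.Projective.exists_dual_ne_zero (ZMod p) hx
  exact ⟨f.toAddMonoidHom, hf⟩

/-- in a commutative group, a non-`p`th-power lies outside some subgroup of finite index -/
theorem exists_finiteIndex_of_not_pow {A : Type u} [CommGroup A] {p : ℕ} [hp : Fact p.Prime]
    {x : A} (hx : ∀ y : A, y ^ p ≠ x) : ∃ M : Subgroup A, M.FiniteIndex ∧ x ∉ M := by
  let sq : Subgroup A := (powMonoidHom p : A →* A).range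
  have hexp : ∀ q : Additive (A ⧸ sq), p • q = 0 := by
    intro q
    obtain ⟨a, ha⟩ := QuotientGroup.mk'_surjective sq (Additive.toMul q)
    have h1 : (Additive.toMul q) ^ p = 1 := by
      rw [← ha, ← map_pow]
      exact (QuotientGroup.eq_one_iff _).2 ⟨a, rfl⟩
    exact h1
  have hxne : (Additive.ofMul (QuotientGroup.mk' sq x) : Additive (A ⧸ sq)) ≠ 0 := by
    intro h
    have h1 : (QuotientGroup.mk' sq x) = 1 := h
    have h2 : x ∈ sq := (QuotientGroup.eq_one_iff x).1 h1
    obtain ⟨y, hy⟩ := h2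
    exact hx y hy
  obtain ⟨f, hf⟩ := exists_dual_zmod hexp _ hxne
  let F : A →* Multiplicative (ZMod p) :=
    { toFun := fun a => Multiplicative.ofAdd (f (Additive.ofMul (QuotientGroup.mk' sq a)))
      map_one' := by
        have h1 : f (Additive.ofMul (QuotientGroup.mk' sq 1)) = 0 := by
          rw [map_one]; exact map_zero f
        exact congrArg Multiplicative.ofAdd h1
      map_mul' := fun a b => by
        have h1 : f (Additive.ofMul (QuotientGroup.mk' sq (a * b))) =
            f (Additive.ofMul (QuotientGroup.mk' sq a)) +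
              f (Additive.ofMul (QuotientGroup.mk' sq b)) := by
          rw [map_mul, ofMul_mul, map_add]
        exact congrArg Multiplicative.ofAdd h1 }
  refine ⟨F.ker, ?_, ?_⟩
  · have : Finite (Multiplicative (ZMod p)) := inferInstanceAs (Finite (ZMod p))
    have : Finite F.range := Subtype.finite
    exact Subgroup.finiteIndex_ker F
  · intro h
    apply hf
    exact h

/-- an abelian group with the descending chain condition has a torus of finite index -/
theorem exists_tor {Q : Subgroup G} (hcomm : ∀ x ∈ Q, ∀ y ∈ Q, x * y = y * x)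
    (hmin : WellFoundedLT (Subgroup Q)) :
    ∃ P : Subgroup G, P ≤ Q ∧ IsTor P ∧ P.relIndex Q ≠ 0 := by
  obtain ⟨H0, hH0, hmin0⟩ : ∃ H0 : Subgroup Q, H0.index ≠ 0 ∧
      ∀ H : Subgroup Q, H.index ≠ 0 → ¬ H < H0 := by
    have hne : ({H : Subgroup Q | H.index ≠ 0} : Set (Subgroup Q)).Nonempty :=
      ⟨⊤, by simp⟩
    exact ⟨hmin.wf.min _ hne, hmin.wf.min_mem _ hne, fun H hH => hmin.wf.not_lt_min _ hH⟩
  set P : Subgroup G := H0.map Q.subtype with hPdef
  have hPQ : P ≤ Q := by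
    rintro _ ⟨x, _, rfl⟩
    exact x.2
  have hPsub : P.subgroupOf Q = H0 := by
    rw [hPdef, Subgroup.subgroupOf, Subgroup.comap_map_eq_self_of_injective
      (Subgroup.subtype_injective Q)]
  have hPi : P.relIndex Q ≠ 0 := by
    rw [Subgroup.relIndex, hPsub]; exact hH0
  have hnoprop : ∀ H : Subgroup G, H ≤ P → H.relIndex P ≠ 0 → P ≤ H := by
    intro H hHP hHi
    have h1 : H.relIndex Q ≠ 0 := Subgroup.relIndex_ne_zero_trans hHi hPi
    have h2 := hmin0 (H.subgroupOf Q) h1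
    have h3 : H.subgroupOf Q ≤ H0 := by
      rw [← hPsub]
      intro x hx
      exact hHP hx
    have h4 : H.subgroupOf Q = H0 := by
      by_contra hne
      exact h2 (lt_of_le_of_ne h3 hne)
    intro x hx
    have h5 : (⟨x, hPQ hx⟩ : Q) ∈ H0 := by
      rw [← hPsub]; exact hx
    rw [← h4] at h5
    exact h5
  have hPcomm : ∀ x ∈ P, ∀ y ∈ P, x * y = y * x := fun x hx y hy =>
    hcomm x (hPQ hx) y (hPQ hy)
  have hPp : ∀ p : ℕ, p.Prime → ∀ x ∈ P, ∃ y ∈ P, y ^ p = x := by
    intro p hp x hx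
    by_contra hcon
    push Not at hcon
    let _ : CommGroup P :=
      { (inferInstance : Group P) with
        mul_comm := fun a b => Subtype.ext (hPcomm a a.2 b b.2) }
    have : Fact p.Prime := ⟨hp⟩
    obtain ⟨M, hM, hxM⟩ := exists_finiteIndex_of_not_pow (A := P) (p := p) (x := ⟨x, hx⟩) (by
      rintro ⟨y, hy⟩ hyx
      exact hcon y hy (congrArg Subtype.val hyx))
    have hMi : (M.map P.subtype).relIndex P ≠ 0 := by
      have : (M.map P.subtype).subgroupOf P = M := by
        rw [Subgroup.subgroupOf, Subgroup.comap_map_eq_self_of_injective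
          (Subgroup.subtype_injective P)]
      rw [Subgroup.relIndex, this]
      exact hM.index_ne_zero
    have hMP : M.map P.subtype ≤ P := by
      rintro _ ⟨y, _, rfl⟩
      exact y.2
    obtain ⟨y, hy, hyx⟩ := hnoprop _ hMP hMi hx
    apply hxM
    have : y = ⟨x, hx⟩ := Subtype.ext hyx
    rw [← this]; exact hy
  have hPn : ∀ n : ℕ, 0 < n → ∀ x ∈ P, ∃ y ∈ P, y ^ n = x := by
    intro n
    induction n using Nat.recOnMul with
    | zero => intro h; exact absurd h (lt_irrefl 0)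
    | one => intro _ x hx; exact ⟨x, hx, by simp⟩
    | prime p hp => intro _ x hx; exact hPp p hp x hx
    | mul a b iha ihb =>
      intro hab x hx
      have ha : 0 < a := Nat.pos_of_ne_zero (by rintro rfl; simp at hab)
      have hb : 0 < b := Nat.pos_of_ne_zero (by rintro rfl; simp at hab)
      obtain ⟨y, hy, hyx⟩ := ihb hb x hx
      obtain ⟨z, hz, hzy⟩ := iha ha y hy
      exact ⟨z, hz, by rw [pow_mul, hzy, hyx]⟩
  exact ⟨P, hPQ, ⟨hPcomm, tors_of_dcc (dcc_of_le hPQ hmin), hPn, dcc_of_le hPQ hmin⟩, hPi⟩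

end Pool.Agent.CdebT
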